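import Pool.Agent.Helper70.TU.Defs
import Pool.Agent.Helper1.TS.WALK
import Pool.Agent.Helper1.TS.A0
import Pool.Agent.Helper1.TS.UNI

/-!
BLOCK TU-H1 (about 130 lines). The normalized character: multiplication, cycle types.

Proofs in words.
* `rr_mul`: `schur_sum ρ c` (`Helper1/TS/WALK.lean`): `∑_y ρ(y c y⁻¹) = γ • 1`; traces: `n! χ(c) = γ dim V`; so
  `∑_y χ(y c y⁻¹ g) = γ χ(g)`, i.e. `∑_y χ(y c y⁻¹ g) dim V = n! χ(c) χ(g)`. The characters are real (`char_perm_real`); divide by
  `(dim V)²` (`dim V > 0` since `ρ` is irreducible, see `walk`).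
* `rr_eq_RM`: `rr` is a class function and the class is determined by the cycle type (`Equiv.Perm.isConj_iff_cycleType_eq`).
* `RM_zero`: `RM ρ 0 = rr ρ 1 = 1` (`Equiv.Perm.cycleType_eq_zero`).
* `abs_rr_le_one`: `norm_char_le`.
* `exists_cycleType`: `Equiv.Perm.exists_with_cycleType_iff`.
-/

set_option autoImplicit false

open Module Equiv Pool.Agent.Helper1.TS

namespace Pool.Agent.Helper70.TU

variable {n : ℕ} {V : Type*} [AddCommGroup V] [Module ℂ V] [FiniteDimensional ℂ V]

omit [FiniteDimensional ℂ V] in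
private theorem char_of_isConj_h80 {G : Type*} [Group G] (ρ : Representation ℂ G V) {a b : G}
    (h : IsConj a b) : ρ.character b = ρ.character a := by
  obtain ⟨c, hc⟩ := isConj_iff.1 h
  rw [← hc]
  exact ρ.char_conj a c

private theorem finrank_ne_zero_h80 (ρ : Representation ℂ (Perm (Fin n)) V) [ρ.IsIrreducible] :
    finrank ℂ V ≠ 0 := by
  have hnt : Nontrivial V := by
    by_contra hcon
    rw [not_nontrivial_iff_subsingleton] at hcon
    have h1 := Representation.IsIrreducible.finrank_intertwiningMap_self ρ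
    have h2 : Subsingleton (Representation.IntertwiningMap ρ ρ) :=
      ⟨fun f f' => Representation.IntertwiningMap.ext (LinearMap.ext (fun v => Subsingleton.elim _ _))⟩
    rw [finrank_zero_of_subsingleton] at h1
    exact absurd h1 (by norm_num)
  exact (finrank_pos (R := ℂ) (M := V)).ne'

theorem rr_mul (ρ : Representation ℂ (Perm (Fin n)) V) [ρ.IsIrreducible] (c g : Perm (Fin n)) :
    (n.factorial : ℝ) * (rr ρ c * rr ρ g) = ∑ y : Perm (Fin n), rr ρ (y * c * y⁻¹ * g) := by
  obtain ⟨γ, hγ⟩ := schur_sum ρ c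
  have hd := finrank_ne_zero_h80 ρ
  have hdR : (finrank ℂ V : ℝ) ≠ 0 := by exact_mod_cast hd
  have htr : (n.factorial : ℂ) * ρ.character c = γ * finrank ℂ V := by
    have h1 := congrArg (LinearMap.trace ℂ V) hγ
    rw [map_sum, map_smul, LinearMap.trace_one, smul_eq_mul] at h1
    rw [← h1]
    have h2 : ∀ y : Perm (Fin n), LinearMap.trace ℂ V (ρ (y * c * y⁻¹)) = ρ.character c := fun y =>
      ρ.char_conj c y
    simp only [h2]
    rw [Finset.sum_const, Finset.card_univ, nsmul_eq_mul, Fintype.card_perm, Fintype.card_fin]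
  have hsum : ∑ y : Perm (Fin n), ρ.character (y * c * y⁻¹ * g) = γ * ρ.character g := by
    have h1 : (∑ y : Perm (Fin n), ρ (y * c * y⁻¹ * g)) = γ • ρ g := by
      have h2 : ∀ y : Perm (Fin n), ρ (y * c * y⁻¹ * g) = ρ (y * c * y⁻¹) * ρ g := fun y =>
        map_mul _ _ _
      simp only [h2]
      rw [← Finset.sum_mul, hγ, smul_mul_assoc, one_mul]
    have h3 := congrArg (LinearMap.trace ℂ V) h1
    rw [map_sum, map_smul, smul_eq_mul] at h3
    exact h3
  have hreal : (n.factorial : ℝ) * ((ρ.character c).re * (ρ.character g).re)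
      = (∑ y : Perm (Fin n), (ρ.character (y * c * y⁻¹ * g)).re) * finrank ℂ V := by
    have h1 : (n.factorial : ℂ) * (ρ.character c * ρ.character g)
        = (∑ y : Perm (Fin n), ρ.character (y * c * y⁻¹ * g)) * finrank ℂ V := by
      rw [hsum, ← mul_assoc, htr]
      ring
    rw [char_perm_real ρ c, char_perm_real ρ g,
      Finset.sum_congr rfl (fun y _ => char_perm_real ρ (y * c * y⁻¹ * g))] at h1
    exact_mod_cast h1
  unfold rr
  rw [← Finset.sum_div, div_mul_div_comm, ← mul_div_assoc, hreal]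
  field_simp

theorem rr_eq_RM (ρ : Representation ℂ (Perm (Fin n)) V) (g : Perm (Fin n)) :
    rr ρ g = RM ρ g.cycleType := by
  classical
  unfold RM
  have h : ∃ h : Perm (Fin n), h.cycleType = g.cycleType := ⟨g, rfl⟩
  rw [dif_pos h]
  unfold rr
  rw [char_of_isConj_h80 ρ (Equiv.Perm.isConj_iff_cycleType_eq.2 h.choose_spec)]

theorem abs_rr_le_one (ρ : Representation ℂ (Perm (Fin n)) V) (g : Perm (Fin n)) :
    |rr ρ g| ≤ 1 := by
  unfold rr
  rw [abs_div, Nat.abs_cast]
  refine div_le_one_of_le₀ ?_ (Nat.cast_nonneg _)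
  exact (Complex.abs_re_le_norm _).trans (norm_char_le ρ g)

theorem RM_zero (ρ : Representation ℂ (Perm (Fin n)) V) [ρ.IsIrreducible] : RM ρ 0 = 1 := by
  have h := rr_eq_RM ρ 1
  rw [Equiv.Perm.cycleType_one] at h
  rw [← h]
  unfold rr
  rw [Representation.char_one]
  have hd := finrank_ne_zero_h80 ρ
  have hdR : (finrank ℂ V : ℝ) ≠ 0 := by exact_mod_cast hd
  rw [Complex.natCast_re]
  exact div_self hdR

theorem abs_RM_le_one (ρ : Representation ℂ (Perm (Fin n)) V) (M : Multiset ℕ) :
    |RM ρ M| ≤ 1 := by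
  classical
  unfold RM
  split_ifs with h
  · exact abs_rr_le_one ρ _
  · simp

theorem exists_cycleType {M : Multiset ℕ} (h2 : ∀ a ∈ M, 2 ≤ a) (hn : M.sum ≤ n) :
    ∃ g : Perm (Fin n), g.cycleType = M := by
  classical
  rw [Equiv.Perm.exists_with_cycleType_iff, Fintype.card_fin]
  exact ⟨hn, h2⟩

end Pool.Agent.Helper70.TU
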