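import Mathlib

/-!
BLOCK TU-D1 (about 100 lines). A numerical bound.

Proof in words. `j = n - k ≤ ε n`. `C(n,k) ≤ 2^n`. `(j!)^n ≤ (n!)^j` for `j ≤ n` (as `(j!)^{n-j} ≤ (j^j)^{n-j} = (j^{n-j})^j ≤ (n!/j!)^j`), so
`j! ≤ (n!)^{j/n} ≤ (n!)^ε` (real powers, `n! ≥ 1`), `√(j!) ≤ (n!)^{ε/2}`. And `2^n < (n!)^{ε/2}` for large `n`: `n! ≥ (n/3)^n`, so
`(n!)^{ε/2} ≥ ((n/3)^{ε/2})^n > 2^n` as soon as `(n/3)^{ε/2} > 2`, `n ≥ 1`. (`Helper1/TS/DEG2.lean`, `real_bound`, is a similar statement.)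
-/

set_option autoImplicit false

namespace Pool.Agent.Helper70.TU

private theorem fp75 (j : ℕ) : ∀ n : ℕ, j ≤ n → (j.factorial) ^ n ≤ (n.factorial) ^ j := by
  intro n hn
  induction n, hn using Nat.le_induction with
  | base => exact le_rfl
  | succ n hn ih =>
    have h1 : j.factorial ≤ (n + 1) ^ j :=
      (Nat.factorial_le_pow j).trans (Nat.pow_le_pow_left (by omega) j)
    calc j.factorial ^ (n + 1) = j.factorial ^ n * j.factorial := pow_succ _ _
      _ ≤ n.factorial ^ j * (n + 1) ^ j := Nat.mul_le_mul ih h1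
      _ = (n + 1).factorial ^ j := by rw [Nat.factorial_succ, mul_pow, mul_comm]

theorem real_bound_eps (ε : ℝ) (hε : 0 < ε) (hε1 : ε < 1) : ∃ N : ℕ, ∀ n ≥ N, ∀ k : ℕ, k ≤ n →
    (1 - ε) * n ≤ k →
    (n.choose k : ℝ) * Real.sqrt ((n - k).factorial) < (n.factorial : ℝ) ^ ε := by
  obtain ⟨N, hN⟩ := exists_nat_gt (3 * (2 : ℝ) ^ (2 / ε))
  refine ⟨N + 1, fun n hn k hk hke => ?_⟩
  have hn1 : 1 ≤ n := by omega
  have hnr : (1 : ℝ) ≤ n := by exact_mod_cast hn1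
  have hn0 : (0 : ℝ) < n := by linarith
  have hnN : (N : ℝ) ≤ n := by exact_mod_cast (by omega : N ≤ n)
  have hf1 : (1 : ℝ) ≤ n.factorial := by exact_mod_cast Nat.one_le_iff_ne_zero.2 (Nat.factorial_ne_zero n)
  -- the factorial
  have hj : ((n - k).factorial : ℝ) ≤ (n.factorial : ℝ) ^ ε := by
    have h1 : ((n - k).factorial : ℝ) ^ n ≤ (n.factorial : ℝ) ^ (n - k) := by
      exact_mod_cast fp75 (n - k) n (Nat.sub_le n k)
    have h0 : (0 : ℝ) ≤ (n - k).factorial := Nat.cast_nonneg _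
    have h2 : ((n - k).factorial : ℝ) = (((n - k).factorial : ℝ) ^ n) ^ ((n : ℝ)⁻¹) :=
      (Real.pow_rpow_inv_natCast h0 (by omega)).symm
    rw [h2]
    have h3 : (((n - k).factorial : ℝ) ^ n) ^ ((n : ℝ)⁻¹) ≤ ((n.factorial : ℝ) ^ (n - k)) ^ ((n : ℝ)⁻¹) :=
      Real.rpow_le_rpow (pow_nonneg h0 n) h1 (by positivity)
    refine h3.trans ?_
    rw [← Real.rpow_natCast, ← Real.rpow_mul (by linarith)]
    refine Real.rpow_le_rpow_of_exponent_le hf1 ?_
    rw [← div_eq_mul_inv, div_le_iff₀ hn0, Nat.cast_sub hk]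
    linarith
  have hs : Real.sqrt ((n - k).factorial) ≤ (n.factorial : ℝ) ^ (ε / 2) := by
    rw [Real.sqrt_le_left (by positivity)]
    refine hj.trans (le_of_eq ?_)
    rw [← Real.rpow_natCast, ← Real.rpow_mul (by linarith)]
    congr 1
    push_cast
    ring
  have hc : (n.choose k : ℝ) ≤ 2 ^ n := by exact_mod_cast Nat.choose_le_two_pow n k
  have h3n : ((n : ℝ) / 3) ^ n ≤ n.factorial := by
    have h1 := Real.pow_div_factorial_le_exp (n : ℝ) hn0.le n
    have h2 : Real.exp (n : ℝ) ≤ 3 ^ n := by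
      have h4 : Real.exp (n : ℝ) = Real.exp 1 ^ n := by rw [← Real.exp_nat_mul, mul_one]
      rw [h4]
      exact pow_le_pow_left₀ (Real.exp_pos 1).le (by linarith [Real.exp_one_lt_d9]) n
    have h5 : (n : ℝ) ^ n / n.factorial ≤ 3 ^ n := h1.trans h2
    rw [div_le_iff₀ (by linarith)] at h5
    rw [div_pow, div_le_iff₀ (by positivity)]
    linarith
  have h2n : (2 : ℝ) ^ n < (n.factorial : ℝ) ^ (ε / 2) := by
    have hb : (2 : ℝ) < ((n : ℝ) / 3) ^ (ε / 2) := by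
      have h1 : (2 : ℝ) ^ (2 / ε) < (n : ℝ) / 3 := by
        rw [lt_div_iff₀ (by norm_num)]
        linarith
      have h2 := Real.rpow_lt_rpow (Real.rpow_nonneg (by norm_num) _) h1 (by positivity : 0 < ε / 2)
      rw [← Real.rpow_mul (by norm_num)] at h2
      have h3 : 2 / ε * (ε / 2) = 1 := by field_simp
      rwa [h3, Real.rpow_one] at h2
    have h4 : (2 : ℝ) ^ n < (((n : ℝ) / 3) ^ (ε / 2)) ^ n :=
      pow_lt_pow_left₀ hb (by norm_num) (by omega)
    have h5 : (((n : ℝ) / 3) ^ (ε / 2)) ^ n = (((n : ℝ) / 3) ^ n) ^ (ε / 2) := by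
      rw [← Real.rpow_natCast, ← Real.rpow_natCast, ← Real.rpow_mul (by positivity), ← Real.rpow_mul (by positivity),
        mul_comm]
    rw [h5] at h4
    exact h4.trans_le (Real.rpow_le_rpow (by positivity) h3n (by positivity))
  have hfp : 0 < (n.factorial : ℝ) ^ (ε / 2) := Real.rpow_pos_of_pos (by linarith) _
  calc (n.choose k : ℝ) * Real.sqrt ((n - k).factorial) ≤ 2 ^ n * (n.factorial : ℝ) ^ (ε / 2) :=
        mul_le_mul hc hs (Real.sqrt_nonneg _) (by positivity)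
    _ < (n.factorial : ℝ) ^ (ε / 2) * (n.factorial : ℝ) ^ (ε / 2) := mul_lt_mul_of_pos_right h2n hfp
    _ = (n.factorial : ℝ) ^ ε := by
        rw [← Real.rpow_add (by linarith)]
        congr 1
        ring

end Pool.Agent.Helper70.TU
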