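import Pool.Agent.Helper70.TU.Defs
import Pool.Agent.Helper1.TS.PROB

/-!
BLOCK TU-H2 (about 200 lines). The product of a cycle `a` and a permutation `b`: support and cycle type.

Proofs in words. `J = supp a ∩ supp b`.
* `supp_mul_ge`: every point of `supp a \ supp b` and of `supp b \ supp a` is moved by `a * b`: if `x ∉ supp b` then `(ab)x = a x ≠ x`; if
  `x ∈ supp b \ supp a` then `(ab) x = x` would give `b x = a⁻¹ x = x`. So `|supp(ab)| ≥ |supp a| + |supp b| - 2|J|`.
* `supp_mul_gt`: if moreover `a` is a cycle, `J ≠ ∅` and `a⁻¹` is not in `b.cycleFactorsFinset`, then some point of `J` is moved by `ab`, so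
  `|supp(ab)| ≥ |supp a| + |supp b| - 2|J| + 1`. Indeed, if `ab` fixes all `x ∈ J` then `b x = a⁻¹ x` for `x ∈ J`; this point is moved by `b`
  (image of a moved point) and by `a`, so it is in `J`; so `J` is stable under `a⁻¹`, and `a` is a cycle, so `J = supp a`
  (`Equiv.Perm.IsCycle.exists_zpow_eq`), and `b = a⁻¹` on `supp a = supp a⁻¹`: `Equiv.Perm.mem_cycleFactorsFinset_iff`.
* `cycleType_mul_of_inv_mem`: if `a⁻¹ ∈ b.cycleFactorsFinset` then `(a b).cycleType = b.cycleType.erase k`, `k = |supp a|`:
  `a * b = a b a⁻¹ * a`.. i.e. `a b` is conjugate to `b a = b * (a⁻¹)⁻¹`, and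
  `Equiv.Perm.cycleType_mul_inv_mem_cycleFactorsFinset_eq_sub : (g * f⁻¹).cycleType = g.cycleType - f.cycleType`, `f.cycleType = {k}`.
* `card_overlap_le`: `y` with `|y(S) ∩ T| ≥ j`: there is `J₀ ⊆ S` with `j` elements and `y J₀ ⊆ T`; union bound over the `C(|S|,j)` sets and
  `card_maps_subset`: at most `C(|S|,j) (|T|/n)^j n!`.
* `supp_conj`: the support of `y a y⁻¹` is `(supp a).map y` (`Equiv.Perm.support_conj`).
-/

set_option autoImplicit false

open Equiv Pool.Agent.Helper1.TS

namespace Pool.Agent.Helper70.TU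

variable {n : ℕ}

private theorem sub_supp_h85 (a b : Perm (Fin n)) :
    (a.support \ b.support) ∪ (b.support \ a.support) ⊆ (a * b).support := by
  intro x hx
  rw [Finset.mem_union, Finset.mem_sdiff, Finset.mem_sdiff] at hx
  rw [Equiv.Perm.mem_support, Equiv.Perm.mul_apply]
  rcases hx with ⟨h1, h2⟩ | ⟨h1, h2⟩
  · rw [Equiv.Perm.notMem_support.1 h2]
    exact Equiv.Perm.mem_support.1 h1
  · intro h3
    have h4 : a x = x := Equiv.Perm.notMem_support.1 h2
    have h5 : b x = x := a.injective (h3.trans h4.symm)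
    exact Equiv.Perm.mem_support.1 h1 h5

private theorem disj_h85 {A B : Finset (Fin n)} : Disjoint (A \ B) (B \ A) := by
  rw [Finset.disjoint_left]
  intro x h1 h2
  exact (Finset.mem_sdiff.1 h2).2 (Finset.mem_sdiff.1 h1).1

theorem supp_mul_ge (a b : Perm (Fin n)) :
    a.support.card + b.support.card ≤ (a * b).support.card + 2 * (a.support ∩ b.support).card := by
  have h1 := sub_supp_h85 a b
  have h2 := Finset.card_le_card h1
  rw [Finset.card_union_of_disjoint disj_h85] at h2
  have h3 := Finset.card_sdiff_add_card_inter a.support b.support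
  have h4 := Finset.card_sdiff_add_card_inter b.support a.support
  rw [Finset.inter_comm b.support] at h4
  omega

theorem supp_mul_gt (a b : Perm (Fin n)) (ha : a.IsCycle) (hJ : (a.support ∩ b.support).Nonempty)
    (hab : a⁻¹ ∉ b.cycleFactorsFinset) :
    a.support.card + b.support.card + 1 ≤
      (a * b).support.card + 2 * (a.support ∩ b.support).card := by
  obtain ⟨x, hxJ, hx⟩ : ∃ x ∈ a.support ∩ b.support, x ∈ (a * b).support := by
    by_contra hcon
    push Not at hcon
    apply hab
    have h1 : ∀ x ∈ a.support ∩ b.support, b x = a⁻¹ x := by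
      intro x hx
      have h2 := Equiv.Perm.notMem_support.1 (hcon x hx)
      rw [Equiv.Perm.mul_apply] at h2
      rw [Equiv.Perm.eq_inv_iff_eq]
      exact h2
    have h3 : ∀ x ∈ a.support ∩ b.support, a⁻¹ x ∈ a.support ∩ b.support := by
      intro x hx
      obtain ⟨k1, k2⟩ := Finset.mem_inter.1 hx
      refine Finset.mem_inter.2 ⟨?_, ?_⟩
      · rw [← Equiv.Perm.support_inv, Equiv.Perm.apply_mem_support, Equiv.Perm.support_inv]
        exact k1
      · rw [← h1 x hx]
        exact Equiv.Perm.apply_mem_support.2 k2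
    obtain ⟨x0, hx0⟩ := hJ
    have h4 : ∀ i : ℕ, ((a⁻¹) ^ i) x0 ∈ a.support ∩ b.support := by
      intro i
      induction i with
      | zero => exact hx0
      | succ i ih =>
        rw [pow_succ', Equiv.Perm.mul_apply]
        exact h3 _ ih
    have ha' : a⁻¹.IsCycle := ha.inv
    have h5 : ∀ y ∈ a.support, y ∈ a.support ∩ b.support := by
      intro y hy
      have k1 : a⁻¹ x0 ≠ x0 := by
        have := (Finset.mem_inter.1 hx0).1
        rw [← Equiv.Perm.support_inv] at this
        exact Equiv.Perm.mem_support.1 this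
      have k2 : a⁻¹ y ≠ y := by
        rw [← Equiv.Perm.support_inv] at hy
        exact Equiv.Perm.mem_support.1 hy
      obtain ⟨i, hi⟩ := ha'.exists_pow_eq k1 k2
      rw [← hi]
      exact h4 i
    rw [Equiv.Perm.mem_cycleFactorsFinset_iff]
    refine ⟨ha', fun y hy => ?_⟩
    rw [Equiv.Perm.support_inv] at hy
    exact (h1 y (h5 y hy)).symm
  have h1 := sub_supp_h85 a b
  have hnot : x ∉ (a.support \ b.support) ∪ (b.support \ a.support) := by
    obtain ⟨k1, k2⟩ := Finset.mem_inter.1 hxJ
    intro h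
    rcases Finset.mem_union.1 h with h | h
    · exact (Finset.mem_sdiff.1 h).2 k2
    · exact (Finset.mem_sdiff.1 h).2 k1
  have h2 := Finset.card_le_card (Finset.insert_subset hx h1)
  rw [Finset.card_insert_of_notMem hnot, Finset.card_union_of_disjoint disj_h85] at h2
  have h3 := Finset.card_sdiff_add_card_inter a.support b.support
  have h4 := Finset.card_sdiff_add_card_inter b.support a.support
  rw [Finset.inter_comm b.support] at h4
  omega

theorem cycleType_mul_of_inv_mem (a b : Perm (Fin n)) (hab : a⁻¹ ∈ b.cycleFactorsFinset) :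
    (a * b).cycleType = b.cycleType.erase a.support.card := by
  have h1 : (a * b).cycleType = (b * a).cycleType := by
    have h2 : a * b = a * (b * a) * a⁻¹ := by group
    rw [h2, Equiv.Perm.cycleType_conj]
  have h3 : b * a = b * (a⁻¹)⁻¹ := by rw [inv_inv]
  have h4 : a⁻¹.IsCycle := (Equiv.Perm.mem_cycleFactorsFinset_iff.1 hab).1
  rw [h1, h3, Equiv.Perm.cycleType_mul_inv_mem_cycleFactorsFinset_eq_sub hab, h4.cycleType, Equiv.Perm.support_inv,
    Multiset.sub_singleton]

theorem card_overlap_le (S T : Finset (Fin n)) (j : ℕ) :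
    ((Finset.univ.filter (fun y : Perm (Fin n) =>
      j ≤ ((S.map y.toEmbedding) ∩ T).card)).card : ℝ) ≤
      (S.card.choose j : ℝ) * ((T.card : ℝ) / n) ^ j * n.factorial := by
  classical
  have h1 : (Finset.univ.filter (fun y : Perm (Fin n) => j ≤ ((S.map y.toEmbedding) ∩ T).card)) ⊆
      (S.powersetCard j).biUnion fun J => Finset.univ.filter (fun y : Perm (Fin n) => J.map y.toEmbedding ⊆ T) := by
    intro y hy
    rw [Finset.mem_filter] at hy
    obtain ⟨K, hK1, hK2⟩ := Finset.exists_subset_card_eq hy.2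
    rw [Finset.mem_biUnion]
    refine ⟨K.map y.symm.toEmbedding, ?_, ?_⟩
    · rw [Finset.mem_powersetCard, Finset.card_map]
      refine ⟨fun x hx => ?_, hK2⟩
      obtain ⟨k, hk, rfl⟩ := Finset.mem_map.1 hx
      have h2 := (Finset.mem_inter.1 (hK1 hk)).1
      obtain ⟨s, hs, hsk⟩ := Finset.mem_map.1 h2
      rw [← hsk]
      simpa using hs
    · rw [Finset.mem_filter]
      refine ⟨Finset.mem_univ _, fun x hx => ?_⟩
      obtain ⟨k, hk, rfl⟩ := Finset.mem_map.1 hx
      obtain ⟨k', hk', rfl⟩ := Finset.mem_map.1 hk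
      have h2 := (Finset.mem_inter.1 (hK1 hk')).2
      simpa using h2
  have h2 : ((Finset.univ.filter (fun y : Perm (Fin n) => j ≤ ((S.map y.toEmbedding) ∩ T).card)).card : ℝ) ≤
      ∑ J ∈ S.powersetCard j, ((Finset.univ.filter (fun y : Perm (Fin n) => J.map y.toEmbedding ⊆ T)).card : ℝ) := by
    have h3 := (Finset.card_le_card h1).trans Finset.card_biUnion_le
    exact_mod_cast h3
  refine h2.trans ?_
  calc ∑ J ∈ S.powersetCard j, ((Finset.univ.filter (fun y : Perm (Fin n) => J.map y.toEmbedding ⊆ T)).card : ℝ)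
      ≤ ∑ _J ∈ S.powersetCard j, ((T.card : ℝ) / n) ^ j * n.factorial := by
        refine Finset.sum_le_sum fun J hJ => ?_
        have h3 := card_maps_subset J T
        rw [(Finset.mem_powersetCard.1 hJ).2] at h3
        exact h3
    _ = (S.card.choose j : ℝ) * ((T.card : ℝ) / n) ^ j * n.factorial := by
        rw [Finset.sum_const, Finset.card_powersetCard, nsmul_eq_mul, mul_assoc]

theorem supp_conj (a y : Perm (Fin n)) : (y * a * y⁻¹).support = a.support.map y.toEmbedding := by
  exact Equiv.Perm.support_conj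

end Pool.Agent.Helper70.TU
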