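import Pool.Agent.Helper70.TU.H1
import Pool.Agent.Helper70.TU.H2

/-!
BLOCK TU-H5 (about 130 lines). Approximate multiplicativity of normalized characters on small supports (no hypothesis on the character).

Proof in words. `mult_step`: `b` with cycle type `M`, `a` with cycle type `{k}`; in `n! r(a) r(b) = ∑_y r(y a y⁻¹ b)` (`rr_mul`) the terms with
`supp(y a y⁻¹) ∩ supp b = ∅` are `RM (k ::ₘ M)` (`Equiv.Perm.Disjoint.cycleType_mul`), the other ones are at most `n! k s/n` many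
(`card_overlap_le`, `j = 1`, `supp_conj`), all values are `≤ 1` in absolute value: the difference is at most `2 k s/n ≤ 2 K²/n`.
`mult`: induction on `M` (`Multiset.induction_on`), `|RM {j}| ≤ 1`: the error is at most `M.card * 2K²/n ≤ 2 K³/n`; `M = 0`: `RM 0 = 1`.
The product over `j ∈ M` is written as `∏_{j=2}^K (RM {j})^{M.count j}` (`Finset.prod_multiset_map_count` or so; parts are in `[2, K]`).
-/

set_option autoImplicit false

open Module Equiv Pool.Agent.Helper1.TS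

namespace Pool.Agent.Helper70.TU

private theorem step56 {n : ℕ} {V : Type} [AddCommGroup V] [Module ℂ V] [FiniteDimensional ℂ V]
    (ρ : Representation ℂ (Perm (Fin n)) V) [ρ.IsIrreducible] {K k : ℕ} {M : Multiset ℕ} (hn : 0 < n) (hK : K ≤ n)
    (hk : 2 ≤ k) (hM : ∀ a ∈ M, 2 ≤ a) (hs : k + M.sum ≤ K) :
    |RM ρ (k ::ₘ M) - RM ρ {k} * RM ρ M| ≤ 2 * (K : ℝ) ^ 2 / n := by
  classical
  obtain ⟨a, ha⟩ := exists_cycleType (n := n) (M := {k}) (by
    intro x hx
    rw [Multiset.mem_singleton.1 hx]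
    exact hk) (by
    rw [Multiset.sum_singleton]
    omega)
  obtain ⟨b, hb⟩ := exists_cycleType (n := n) (M := M) hM (by omega)
  have hsa : a.support.card = k := by
    rw [← Equiv.Perm.sum_cycleType, ha, Multiset.sum_singleton]
  have hsb : b.support.card = M.sum := by
    rw [← Equiv.Perm.sum_cycleType, hb]
  have hn0 : (0 : ℝ) < n := by exact_mod_cast hn
  have hf : (0 : ℝ) < n.factorial := by exact_mod_cast n.factorial_pos
  obtain ⟨R, hR⟩ : ∃ R, R = RM ρ (k ::ₘ M) := ⟨_, rfl⟩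
  have hR1 : |R| ≤ 1 := hR ▸ abs_RM_le_one ρ _
  have hmul := rr_mul ρ a b
  rw [rr_eq_RM ρ a, rr_eq_RM ρ b, ha, hb] at hmul
  have hterm : ∀ y : Perm (Fin n), |rr ρ (y * a * y⁻¹ * b) - R| ≤
      if 1 ≤ ((a.support.map y.toEmbedding) ∩ b.support).card then 2 else 0 := by
    intro y
    split_ifs with h
    · have h1 := abs_rr_le_one ρ (y * a * y⁻¹ * b)
      calc |rr ρ (y * a * y⁻¹ * b) - R| ≤ |rr ρ (y * a * y⁻¹ * b)| + |R| := abs_sub _ _
        _ ≤ 2 := by linarith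
    · have h1 : (a.support.map y.toEmbedding) ∩ b.support = ∅ := by
        rw [← Finset.card_eq_zero]
        omega
      have h2 : Equiv.Perm.Disjoint (y * a * y⁻¹) b := by
        rw [Equiv.Perm.disjoint_iff_disjoint_support, supp_conj, Finset.disjoint_iff_inter_eq_empty]
        exact h1
      have h3 : (y * a * y⁻¹ * b).cycleType = k ::ₘ M := by
        rw [h2.cycleType_mul, Equiv.Perm.cycleType_conj, ha, hb, Multiset.singleton_add]
      rw [rr_eq_RM, h3, ← hR, sub_self, abs_zero]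
  have hbad := card_overlap_le a.support b.support 1
  rw [hsa, hsb, Nat.choose_one_right, pow_one] at hbad
  have hsum : (n.factorial : ℝ) * (RM ρ {k} * RM ρ M - R) = ∑ y : Perm (Fin n), (rr ρ (y * a * y⁻¹ * b) - R) := by
    rw [Finset.sum_sub_distrib, ← hmul, Finset.sum_const, Finset.card_univ, Fintype.card_perm, Fintype.card_fin,
      nsmul_eq_mul]
    ring
  have h1 : (n.factorial : ℝ) * |RM ρ {k} * RM ρ M - R| ≤ 2 * ((k : ℝ) * ((M.sum : ℝ) / n) * n.factorial) := by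
    calc (n.factorial : ℝ) * |RM ρ {k} * RM ρ M - R| = |(n.factorial : ℝ) * (RM ρ {k} * RM ρ M - R)| := by
          rw [abs_mul, abs_of_pos hf]
      _ = |∑ y : Perm (Fin n), (rr ρ (y * a * y⁻¹ * b) - R)| := by rw [hsum]
      _ ≤ ∑ y : Perm (Fin n), |rr ρ (y * a * y⁻¹ * b) - R| := Finset.abs_sum_le_sum_abs _ _
      _ ≤ ∑ y : Perm (Fin n), (if 1 ≤ ((a.support.map y.toEmbedding) ∩ b.support).card then (2 : ℝ) else 0) :=
          Finset.sum_le_sum fun y _ => hterm y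
      _ = 2 * ((Finset.univ.filter (fun y : Perm (Fin n) =>
            1 ≤ ((a.support.map y.toEmbedding) ∩ b.support).card)).card : ℝ) := by
          rw [← Finset.sum_filter, Finset.sum_const, nsmul_eq_mul, mul_comm]
      _ ≤ 2 * ((k : ℝ) * ((M.sum : ℝ) / n) * n.factorial) := mul_le_mul_of_nonneg_left hbad (by norm_num)
  have h2 : |RM ρ {k} * RM ρ M - R| ≤ 2 * ((k : ℝ) * ((M.sum : ℝ) / n)) := by
    have h3 : (n.factorial : ℝ) * |RM ρ {k} * RM ρ M - R| ≤ (n.factorial : ℝ) * (2 * ((k : ℝ) * ((M.sum : ℝ) / n))) :=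
      h1.trans (le_of_eq (by ring))
    exact le_of_mul_le_mul_left h3 hf
  rw [← hR, abs_sub_comm]
  refine h2.trans ?_
  have hkK : (k : ℝ) ≤ K := by exact_mod_cast (by omega : k ≤ K)
  have hsK : (M.sum : ℝ) ≤ K := by exact_mod_cast (by omega : M.sum ≤ K)
  have h4 : (k : ℝ) * (M.sum : ℝ) ≤ K * K := mul_le_mul hkK hsK (Nat.cast_nonneg _) (Nat.cast_nonneg _)
  calc 2 * ((k : ℝ) * ((M.sum : ℝ) / n)) = 2 * ((k : ℝ) * (M.sum : ℝ)) / n := by ring
    _ ≤ 2 * (K : ℝ) ^ 2 / n := div_le_div_of_nonneg_right (by nlinarith) hn0.le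

private theorem ind56 {n : ℕ} {V : Type} [AddCommGroup V] [Module ℂ V] [FiniteDimensional ℂ V]
    (ρ : Representation ℂ (Perm (Fin n)) V) [ρ.IsIrreducible] {K : ℕ} (hn : 0 < n) (hK : K ≤ n) (M : Multiset ℕ) :
    (∀ a ∈ M, 2 ≤ a) → M.sum ≤ K →
      |RM ρ M - ∏ j ∈ Finset.Icc 2 K, RM ρ {j} ^ (M.count j)| ≤ M.card * (2 * (K : ℝ) ^ 2 / n) := by
  induction M using Multiset.induction_on with
  | empty =>
    intro _ _
    rw [RM_zero]
    simp
  | cons k M ih =>
    intro h2 hs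
    rw [Multiset.sum_cons] at hs
    have hM2 : ∀ a ∈ M, 2 ≤ a := fun a ha => h2 a (Multiset.mem_cons_of_mem ha)
    have hk : 2 ≤ k := h2 k (Multiset.mem_cons_self k M)
    have h3 := ih hM2 (by omega)
    have h4 := step56 ρ hn hK hk hM2 hs
    have h5 : ∏ j ∈ Finset.Icc 2 K, RM ρ {j} ^ ((k ::ₘ M).count j) =
        RM ρ {k} * ∏ j ∈ Finset.Icc 2 K, RM ρ {j} ^ (M.count j) := by
      have h6 : ∀ j ∈ Finset.Icc 2 K, RM ρ {j} ^ ((k ::ₘ M).count j) =
          RM ρ {j} ^ (M.count j) * RM ρ {j} ^ (if k = j then 1 else 0) := by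
        intro j _
        rw [Multiset.count_cons, pow_add]
        simp only [eq_comm]
      rw [Finset.prod_congr rfl h6, Finset.prod_mul_distrib, Finset.prod_pow_boole, if_pos, mul_comm]
      rw [Finset.mem_Icc]
      omega
    rw [h5, Multiset.card_cons]
    obtain ⟨Q, hQ⟩ : ∃ Q, Q = ∏ j ∈ Finset.Icc 2 K, RM ρ {j} ^ (M.count j) := ⟨_, rfl⟩
    rw [← hQ] at h3 ⊢
    have h7 : |RM ρ {k} * RM ρ M - RM ρ {k} * Q| ≤ M.card * (2 * (K : ℝ) ^ 2 / n) := by
      rw [← mul_sub, abs_mul]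
      have h8 := abs_RM_le_one ρ {k}
      calc |RM ρ {k}| * |RM ρ M - Q| ≤ 1 * |RM ρ M - Q| := mul_le_mul_of_nonneg_right h8 (abs_nonneg _)
        _ ≤ _ := by rw [one_mul]; exact h3
    calc |RM ρ (k ::ₘ M) - RM ρ {k} * Q|
        = |(RM ρ (k ::ₘ M) - RM ρ {k} * RM ρ M) + (RM ρ {k} * RM ρ M - RM ρ {k} * Q)| := by
          congr 1
          ring
      _ ≤ |RM ρ (k ::ₘ M) - RM ρ {k} * RM ρ M| + |RM ρ {k} * RM ρ M - RM ρ {k} * Q| := abs_add_le _ _
      _ ≤ 2 * (K : ℝ) ^ 2 / n + M.card * (2 * (K : ℝ) ^ 2 / n) := add_le_add h4 h7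
      _ = ((M.card + 1 : ℕ) : ℝ) * (2 * (K : ℝ) ^ 2 / n) := by
          push_cast
          ring

theorem mult (K : ℕ) :
    ∃ C : ℝ, 0 < C ∧ ∀ n ≥ K, ∀ (V : Type) [AddCommGroup V] [Module ℂ V]
      [FiniteDimensional ℂ V] (ρ : Representation ℂ (Perm (Fin n)) V) [ρ.IsIrreducible],
      ∀ M : Multiset ℕ, (∀ a ∈ M, 2 ≤ a) → M.sum ≤ K →
        |RM ρ M - ∏ j ∈ Finset.Icc 2 K, RM ρ {j} ^ (M.count j)| ≤ C / n := by
  refine ⟨2 * (K : ℝ) ^ 3 + 1, by positivity, ?_⟩
  intro n hn V _ _ _ ρ _ M hM hs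
  have hcard : M.card ≤ M.sum := by
    have h1 := Multiset.card_nsmul_le_sum (s := M) (a := 1) (fun x hx => by
      have := hM x hx
      omega)
    rw [smul_eq_mul, mul_one] at h1
    exact h1
  rcases Nat.eq_zero_or_pos n with h0 | h0
  · subst h0
    have hK0 : K = 0 := by omega
    subst hK0
    have hM0 : M = 0 := by
      rw [← Multiset.card_eq_zero]
      omega
    subst hM0
    rw [RM_zero]
    simp
  · have hn0 : (0 : ℝ) < n := by exact_mod_cast h0
    refine (ind56 ρ h0 hn M hM hs).trans ?_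
    have h1 : (M.card : ℝ) ≤ K := by exact_mod_cast hcard.trans hs
    calc (M.card : ℝ) * (2 * (K : ℝ) ^ 2 / n) ≤ K * (2 * (K : ℝ) ^ 2 / n) :=
          mul_le_mul_of_nonneg_right h1 (by positivity)
      _ = 2 * (K : ℝ) ^ 3 / n := by ring
      _ ≤ (2 * (K : ℝ) ^ 3 + 1) / n := div_le_div_of_nonneg_right (by linarith) hn0.le

end Pool.Agent.Helper70.TU
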