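import Pool.Agent.Helper70.TU.Defs

/-!
BLOCK TU-H6 (about 150 lines). Sums over permutations of small support as sums over cycle types.

`MM m` is the multiset with `m i` parts `i + 2`, `SS m` its sum; `m : Fin L → ℕ`, with `K ≤ L + 1` all parts `2, ..., K` are available.

Proofs in words.
* `MM_sum`, `count_MM`, `two_le_of_mem_MM`: direct (`Multiset.sum_sum`, `Multiset.count_sum`).
* `exists_MM`: a multiset `M` with parts `≥ 2` and sum `≤ K ≤ L + 1` is `MM m` with `m i = M.count (i + 2)` (compare counts, `Multiset.ext`;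
  all parts are `≤ K ≤ L + 1`), `SS m = M.sum`; `m` is unique (`count_MM`).
* `sum_small`: group the permutations with `s(g) ≤ K` by `m`, `MM m = g.cycleType` (`Equiv.Perm.sum_cycleType`: the sum is `s(g)`;
  `Equiv.Perm.two_le_of_mem_cycleType`); `m i ≤ K`. `Finset.sum_fiberwise_of_maps_to` or `Finset.card_eq_sum_card_fiberwise`.
* `card_MM`: `Equiv.Perm.card_of_cycleType`: the number is `n!/((n-s)! (M.prod * ∏_{a ∈ M.toFinset} (M.count a)!))`; for `M = MM m` the product is
  `∏ i, (i+2)^{m i} (m i)!`; division in `ℕ` is exact (`Equiv.Perm.card_of_cycleType_mul_eq` or similar), and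
  `n!/(n-s)! = Nat.descFactorial n s`.
* `desc_le`, `desc_ge`: `n^s ≥ descFactorial n s ≥ (n - s)^s ≥ n^s (1 - s²/n)` (Bernoulli) for `s ≤ n`, `0 < n`.
-/

set_option autoImplicit false

open Equiv

namespace Pool.Agent.Helper70.TU

theorem MM_sum {L : ℕ} (m : Fin L → ℕ) : (MM m).sum = SS m := by
  unfold MM SS
  rw [← Multiset.coe_sumAddMonoidHom, map_sum]
  refine Finset.sum_congr rfl fun i _ => ?_
  rw [map_nsmul, Multiset.coe_sumAddMonoidHom, Multiset.sum_singleton, smul_eq_mul]

theorem count_MM {L : ℕ} (m : Fin L → ℕ) (i : Fin L) : (MM m).count ((i : ℕ) + 2) = m i := by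
  unfold MM
  rw [Multiset.count_sum', Finset.sum_eq_single i]
  · rw [Multiset.count_nsmul, Multiset.count_singleton_self, mul_one]
  · intro j _ hj
    rw [Multiset.count_nsmul, Multiset.count_singleton, if_neg, mul_zero]
    intro h
    exact hj (Fin.ext (by omega))
  · intro h
    exact absurd (Finset.mem_univ i) h

private theorem mem_MM61 {L : ℕ} (m : Fin L → ℕ) {a : ℕ} (ha : a ∈ MM m) :
    ∃ i : Fin L, a = (i : ℕ) + 2 := by
  unfold MM at ha
  rw [Multiset.mem_sum] at ha
  obtain ⟨i, _, hi⟩ := ha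
  have := Multiset.mem_of_mem_nsmul hi
  exact ⟨i, Multiset.mem_singleton.1 this⟩

theorem two_le_of_mem_MM {L : ℕ} (m : Fin L → ℕ) {a : ℕ} (ha : a ∈ MM m) : 2 ≤ a := by
  obtain ⟨i, hi⟩ := mem_MM61 m ha
  omega

private theorem exists_MM61 {K L : ℕ} (hL : K ≤ L + 1) {M : Multiset ℕ} (h2 : ∀ a ∈ M, 2 ≤ a)
    (hK : M.sum ≤ K) : M = MM (fun i : Fin L => M.count ((i : ℕ) + 2)) := by
  ext a
  by_cases ha : ∃ i : Fin L, a = (i : ℕ) + 2
  · obtain ⟨i, rfl⟩ := ha
    rw [count_MM]
  · have h1 : a ∉ M := by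
      intro hM
      have h3 := h2 a hM
      have h4 := Multiset.le_sum_of_mem hM
      exact ha ⟨⟨a - 2, by omega⟩, by show a = (a - 2) + 2; omega⟩
    have h5 : a ∉ MM (fun i : Fin L => M.count ((i : ℕ) + 2)) := by
      intro hM
      exact ha (mem_MM61 _ hM)
    rw [Multiset.count_eq_zero_of_notMem h1, Multiset.count_eq_zero_of_notMem h5]

theorem sum_small {n : ℕ} (K L : ℕ) (hL : K ≤ L + 1) (F : Multiset ℕ → ℝ) :
    ∑ g ∈ Finset.univ.filter (fun g : Perm (Fin n) => g.support.card ≤ K), F g.cycleType =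
      ∑ m ∈ (Fintype.piFinset (fun _ : Fin L => Finset.range (K + 1))).filter (fun m => SS m ≤ K),
        ((Finset.univ.filter (fun g : Perm (Fin n) => g.cycleType = MM m)).card : ℝ) * F (MM m) := by
  classical
  have hmem : ∀ g : Perm (Fin n), g.support.card ≤ K →
      g.cycleType = MM (fun i : Fin L => g.cycleType.count ((i : ℕ) + 2)) := by
    intro g hg
    exact exists_MM61 hL (fun a ha => Equiv.Perm.two_le_of_mem_cycleType ha)
      (by rw [Equiv.Perm.sum_cycleType]; exact hg)
  rw [← Finset.sum_fiberwise_of_maps_to (t := (Fintype.piFinset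
    (fun _ : Fin L => Finset.range (K + 1))).filter (fun m => SS m ≤ K))
    (g := fun g : Perm (Fin n) => fun i : Fin L => g.cycleType.count ((i : ℕ) + 2))]
  · refine Finset.sum_congr rfl fun m hm => ?_
    have hm2 : SS m ≤ K := (Finset.mem_filter.1 hm).2
    have e : (Finset.univ.filter (fun g : Perm (Fin n) => g.support.card ≤ K)).filter
        (fun g => (fun i : Fin L => g.cycleType.count ((i : ℕ) + 2)) = m) =
        Finset.univ.filter (fun g : Perm (Fin n) => g.cycleType = MM m) := by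
      ext g
      simp only [Finset.mem_filter, Finset.mem_univ, true_and]
      constructor
      · rintro ⟨h1, h2⟩
        rw [hmem g h1, h2]
      · intro h
        constructor
        · rw [← Equiv.Perm.sum_cycleType, h, MM_sum]
          exact hm2
        · funext i
          rw [h, count_MM]
    rw [e, ← nsmul_eq_mul, ← Finset.sum_const]
    refine Finset.sum_congr rfl fun g hg => ?_
    rw [(Finset.mem_filter.1 hg).2]
  · intro g hg
    have hg2 : g.support.card ≤ K := (Finset.mem_filter.1 hg).2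
    have h3 := hmem g hg2
    have h4 : SS (fun i : Fin L => g.cycleType.count ((i : ℕ) + 2)) ≤ K := by
      rw [← MM_sum, ← h3, Equiv.Perm.sum_cycleType]
      exact hg2
    refine Finset.mem_filter.2 ⟨Fintype.mem_piFinset.2 fun i => ?_, h4⟩
    rw [Finset.mem_range]
    have h5 : g.cycleType.count ((i : ℕ) + 2) * ((i : ℕ) + 2) ≤
        SS (fun i : Fin L => g.cycleType.count ((i : ℕ) + 2)) := by
      unfold SS
      exact Finset.single_le_sum (f := fun i : Fin L =>
        g.cycleType.count ((i : ℕ) + 2) * ((i : ℕ) + 2)) (fun _ _ => Nat.zero_le _)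
        (Finset.mem_univ i)
    have h6 : g.cycleType.count ((i : ℕ) + 2) ≤
        g.cycleType.count ((i : ℕ) + 2) * ((i : ℕ) + 2) := Nat.le_mul_of_pos_right _ (by omega)
    show Multiset.count ((i : ℕ) + 2) g.cycleType < K + 1
    omega

private theorem prod_MM61 {L : ℕ} (m : Fin L → ℕ) :
    (MM m).prod = ∏ i : Fin L, ((i : ℕ) + 2) ^ m i := by
  have key : ∀ s : Finset (Fin L), (∑ i ∈ s, m i • ({(i : ℕ) + 2} : Multiset ℕ)).prod =
      ∏ i ∈ s, ((i : ℕ) + 2) ^ m i := by
    classical
    intro s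
    induction s using Finset.induction_on with
    | empty => simp
    | insert a s ha ih =>
      rw [Finset.sum_insert ha, Finset.prod_insert ha, Multiset.prod_add, ih,
        Multiset.prod_nsmul, Multiset.prod_singleton]
  exact key Finset.univ

private theorem prod_count61 {L : ℕ} (m : Fin L → ℕ) :
    ∏ a ∈ (MM m).toFinset, ((MM m).count a).factorial = ∏ i : Fin L, (m i).factorial := by
  classical
  have h1 : ∏ a ∈ (MM m).toFinset, ((MM m).count a).factorial =
      ∏ a ∈ Finset.univ.image (fun i : Fin L => (i : ℕ) + 2), ((MM m).count a).factorial := by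
    refine Finset.prod_subset ?_ ?_
    · intro a ha
      obtain ⟨i, hi⟩ := mem_MM61 m (Multiset.mem_toFinset.1 ha)
      exact Finset.mem_image.2 ⟨i, Finset.mem_univ i, hi.symm⟩
    · intro a _ ha
      rw [Multiset.count_eq_zero_of_notMem (fun h => ha (Multiset.mem_toFinset.2 h))]
      rfl
  rw [h1, Finset.prod_image]
  · refine Finset.prod_congr rfl fun i _ => ?_
    rw [count_MM]
  · intro i _ j _ hij
    exact Fin.ext (by simpa using hij)

theorem card_MM {n L : ℕ} (m : Fin L → ℕ) (hn : SS m ≤ n) :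
    ((Finset.univ.filter (fun g : Perm (Fin n) => g.cycleType = MM m)).card : ℝ) =
      (n.descFactorial (SS m) : ℝ) * ∏ i : Fin L, (1 / ((((i : ℕ) + 2 : ℕ) : ℝ) ^ m i * (m i).factorial)) := by
  classical
  have h1 := Equiv.Perm.card_of_cycleType_mul_eq (Fin n) (MM m)
  rw [if_pos ⟨by rw [MM_sum, Fintype.card_fin]; exact hn, fun a ha => two_le_of_mem_MM m ha⟩,
    MM_sum, Fintype.card_fin, ← Nat.factorial_mul_descFactorial hn, prod_MM61, prod_count61] at h1
  have h2 : 0 < (n - SS m).factorial := Nat.factorial_pos _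
  have h3 : (Finset.univ.filter (fun g : Perm (Fin n) => g.cycleType = MM m)).card *
      ((∏ i : Fin L, ((i : ℕ) + 2) ^ m i) * ∏ i : Fin L, (m i).factorial) =
      n.descFactorial (SS m) := by
    apply Nat.eq_of_mul_eq_mul_left h2
    rw [← h1]
    ring
  have h4 : ((Finset.univ.filter (fun g : Perm (Fin n) => g.cycleType = MM m)).card : ℝ) *
      ∏ i : Fin L, (((((i : ℕ) + 2 : ℕ) : ℝ) ^ m i * (m i).factorial)) =
      (n.descFactorial (SS m) : ℝ) := by
    rw [← h3, Finset.prod_mul_distrib]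
    push_cast
    ring
  have h5 : ∏ i : Fin L, (((((i : ℕ) + 2 : ℕ) : ℝ) ^ m i * (m i).factorial)) ≠ 0 := by
    refine Finset.prod_ne_zero_iff.2 fun i _ => ?_
    positivity
  simp only [one_div]
  rw [Finset.prod_inv_distrib, ← h4, mul_assoc, mul_inv_cancel₀ h5, mul_one]

theorem desc_le (n s : ℕ) : (n.descFactorial s : ℝ) ≤ (n : ℝ) ^ s := by
  exact_mod_cast Nat.descFactorial_le_pow n s

theorem desc_ge (n s : ℕ) (hn : 0 < n) (hs : s ≤ n) :
    (n : ℝ) ^ s * (1 - (s : ℝ) ^ 2 / n) ≤ (n.descFactorial s : ℝ) := by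
  have h1 : (n + 1 - s) ^ s ≤ n.descFactorial s := Nat.pow_sub_le_descFactorial n s
  have hn' : (0 : ℝ) < n := by exact_mod_cast hn
  have hs' : (s : ℝ) ≤ n := by exact_mod_cast hs
  have h2 : ((n : ℝ) - s) ^ s ≤ (n.descFactorial s : ℝ) := by
    have h3 : ((n - s : ℕ) : ℝ) = (n : ℝ) - s := by rw [Nat.cast_sub hs]
    rw [← h3]
    have h4 : (n - s) ^ s ≤ n.descFactorial s :=
      (Nat.pow_le_pow_left (by omega) s).trans h1
    exact_mod_cast h4
  refine le_trans ?_ h2
  have h5 : ((n : ℝ) - s) ^ s = (n : ℝ) ^ s * (1 + -((s : ℝ) / n)) ^ s := by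
    rw [← mul_pow]
    congr 1
    field_simp
    ring
  rw [h5]
  refine mul_le_mul_of_nonneg_left ?_ (by positivity)
  have h6 : (s : ℝ) / n ≤ 1 := (div_le_one hn').2 hs'
  have h7 := one_add_mul_le_pow (a := -((s : ℝ) / n)) (by linarith) s
  refine le_trans (le_of_eq ?_) h7
  field_simp
  ring

end Pool.Agent.Helper70.TU
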