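import Pool.Agent.Helper70.TU.Defs

/-!
BLOCK TU-H7 (about 200 lines). Mehler's formula on the diagonal.

`aa k m x = hh k m x ^ 2 / (k^m m!)`. Claim: for `|t| < 1`, `∑_m aa k m x t^m = (1 - t²)^{-1/2} exp((x²/k) t/(1+t))`.

Proof in words. Put `y = x²/k`, `a_m = aa k m x`.
1. Recurrence: `(m+3) a_{m+3} = (y - (m+2)) a_{m+2} + ((m+2) - y) a_{m+1} + (m+1) a_m`. With `h_m = hh k m x` it says (times
   `k^{m+3} (m+2)!`) `h_{m+3}² = (x² - k(m+2)) h_{m+2}² + k(m+2) (k(m+2) - x²) h_{m+1}² + k³ (m+2)(m+1)² h_m²`; use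
   `h_{m+3} = x h_{m+2} - k (m+2) h_{m+1}` and `h_{m+2} = x h_{m+1} - k (m+1) h_m`: with `u = h_{m+1}`, `v = h_m`, `c = k(m+1)`, `d = k(m+2)`,
   `h_{m+2} = x u - c v`: left `(x (xu - cv) - d u)²`, right `(x² - d)(xu - cv)² + d (d - x²) u² + d c² k ((m+1)²/(m+1)²)..`: note
   `k³ (m+2)(m+1)² = d c²`; so the identity is `(x w - d u)² = (x² - d) w² + d (d - x²) u² + d c² v²`, `w = x u - c v`, i.e.
   `- 2 d x w u = - d w² - d x² u² + d c² v²`, i.e. `(w - x u)² = c² v²`, true. Initial values `a_0 = 1`, `a_1 = y`, `a_2 = (x² - k)²/(2k²) = (y-1)²/2`.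
2. Growth: `a_m ≥ 0` and `a_m ≤ exp(4 |x| √m / √k)`-like subexponential bound is enough; simplest: with `b_m = h_m/√(k^m m!)`:
   `b_{m+2} = (x/√(k(m+2))) b_{m+1} - √((m+1)/(m+2)) b_m`, so `max(|b_{m+2}|, |b_{m+1}|) ≤ (1 + |x|/√(k(m+2))) max(|b_{m+1}|, |b_m|)`, and
   `1 + |x|/√(k(m+2)) → 1`, so `|b_m| ≤ C_r r^m` for every `r > 1`; so the series converges absolutely for `|t| < 1`, and so do the
   series of the derivatives.
3. ODE: `M(t) = ∑ a_m t^m` is differentiable on `(-1,1)` and by 1. `(1 + t)(1 - t²) M'(t) = (t (1+t) + y (1-t)) M(t)` (compare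
   coefficients), i.e. `M'/M = t/(1-t²) + y/(1+t)²`, which is the logarithmic derivative of `R(t) = (1-t²)^{-1/2} exp(y t/(1+t))`. So `M/R` has
   derivative `0` and `M(0)/R(0) = 1`.
(Instead of analysis one may use formal power series; any proof is fine.)
* `mehler_lower`: `(1-t²)^{-1/2} ≥ 1` and `y t/(1+t) ≥ -y |t|/(1-|t|)`.
* `mehler_upper` (`0 ≤ t`): `(1-t²)^{-1/2} ≤ exp(t²/(2(1-t²))) ≤ exp(t²/(1-t²))`, `y t/(1+t) ≤ y t`.
-/

set_option autoImplicit false

namespace Pool.Agent.Helper70.TU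

/-- The normalized squares. -/
noncomputable def aa (k m : ℕ) (x : ℝ) : ℝ := hh k m x ^ 2 / ((k : ℝ) ^ m * m.factorial)

theorem aa_nonneg (k m : ℕ) (x : ℝ) : 0 ≤ aa k m x := by
  unfold aa
  positivity

private theorem rec27 {k : ℕ} (hk : 0 < k) (x : ℝ) (m : ℕ) :
    ((m : ℝ) + 3) * aa k (m + 3) x = (x ^ 2 / k - (m + 2)) * aa k (m + 2) x +
      ((m + 2) - x ^ 2 / k) * aa k (m + 1) x + (m + 1) * aa k m x := by
  have hk0 : (k : ℝ) ≠ 0 := by exact_mod_cast hk.ne'
  have hf : ((m.factorial : ℕ) : ℝ) ≠ 0 := by exact_mod_cast m.factorial_ne_zero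
  have h1 : ((m : ℝ) + 1) ≠ 0 := by positivity
  have h2 : ((m : ℝ) + 2) ≠ 0 := by positivity
  have h3 : ((m : ℝ) + 3) ≠ 0 := by positivity
  have f1 : (((m + 1).factorial : ℕ) : ℝ) = (m + 1) * (m.factorial : ℕ) := by
    rw [Nat.factorial_succ]; push_cast; ring
  have f2 : (((m + 2).factorial : ℕ) : ℝ) = (m + 2) * ((m + 1) * (m.factorial : ℕ)) := by
    rw [show m + 2 = (m + 1) + 1 by ring, Nat.factorial_succ, Nat.cast_mul, f1]; push_cast; ring
  have f3 : (((m + 3).factorial : ℕ) : ℝ) = (m + 3) * ((m + 2) * ((m + 1) * (m.factorial : ℕ))) := by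
    rw [show m + 3 = (m + 2) + 1 by ring, Nat.factorial_succ, Nat.cast_mul, f2]; push_cast; ring
  have e3 : hh k (m + 3) x = x * hh k (m + 2) x - k * ((m + 2 : ℕ) : ℝ) * hh k (m + 1) x := by
    rw [show m + 3 = (m + 1) + 2 by ring, hh]; push_cast; ring
  have e2 : hh k (m + 2) x = x * hh k (m + 1) x - k * (m + 1) * hh k m x := by
    rw [hh]
  unfold aa
  rw [f1, f2, f3, e3, e2]
  generalize hh k (m + 1) x = u
  generalize hh k m x = v
  generalize ((m.factorial : ℕ) : ℝ) = F at *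
  push_cast
  field_simp
  ring

private theorem zero27 (k : ℕ) (x : ℝ) : aa k 0 x = 1 := by
  unfold aa
  simp [hh]

private theorem one27 (k : ℕ) (x : ℝ) : aa k 1 x = x ^ 2 / k := by
  unfold aa
  simp [hh]

private theorem two27 {k : ℕ} (hk : 0 < k) (x : ℝ) : 2 * aa k 2 x = (x ^ 2 / k - 1) ^ 2 := by
  have hk0 : (k : ℝ) ≠ 0 := by exact_mod_cast hk.ne'
  unfold aa
  rw [show (2 : ℕ) = 0 + 2 by rfl, hh]
  simp [hh, Nat.factorial]
  field_simp

private theorem step27 {k : ℕ} (hk : 0 < k) (x : ℝ) {δ : ℝ} (hδ : 0 < δ) (m : ℕ)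
    (hm : (1 + 1 / δ) * (x ^ 2 / k) ≤ δ * (m + 2)) :
    aa k (m + 2) x ≤ δ * aa k (m + 1) x + (1 + δ) * aa k m x := by
  have hk0 : (0 : ℝ) < k := by exact_mod_cast hk
  have hf : (0 : ℝ) < ((m.factorial : ℕ) : ℝ) := by exact_mod_cast m.factorial_pos
  have f1 : (((m + 1).factorial : ℕ) : ℝ) = (m + 1) * (m.factorial : ℕ) := by
    rw [Nat.factorial_succ]; push_cast; ring
  have f2 : (((m + 2).factorial : ℕ) : ℝ) = (m + 2) * ((m + 1) * (m.factorial : ℕ)) := by
    rw [show m + 2 = (m + 1) + 1 by ring, Nat.factorial_succ, Nat.cast_mul, f1]; push_cast; ring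
  have e2 : hh k (m + 2) x = x * hh k (m + 1) x - k * (m + 1) * hh k m x := by
    rw [hh]
  have key : aa k (m + 2) x ≤ (1 + 1 / δ) * (x ^ 2 / k) / (m + 2) * aa k (m + 1) x +
      (1 + δ) * ((m + 1) / (m + 2)) * aa k m x := by
    unfold aa
    rw [f1, f2, e2]
    generalize hh k (m + 1) x = u
    generalize hh k m x = v
    generalize ((m.factorial : ℕ) : ℝ) = F at *
    have hD : (0 : ℝ) < (k : ℝ) ^ (m + 2) * ((m + 2) * ((m + 1) * F)) := by positivity
    have e : (1 + 1 / δ) * (x ^ 2 / k) / (m + 2) * (u ^ 2 / ((k : ℝ) ^ (m + 1) * ((m + 1) * F))) +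
        (1 + δ) * ((m + 1) / (m + 2)) * (v ^ 2 / ((k : ℝ) ^ m * F)) =
        ((1 + 1 / δ) * (x * u) ^ 2 + (1 + δ) * (k * (m + 1) * v) ^ 2) /
          ((k : ℝ) ^ (m + 2) * ((m + 2) * ((m + 1) * F))) := by
      field_simp
      ring
    rw [e]
    apply div_le_div_of_nonneg_right _ hD.le
    have h := sq_nonneg (x * u + δ * (k * (m + 1) * v))
    have h' : 0 ≤ (x * u + δ * (k * (m + 1) * v)) ^ 2 / δ := div_nonneg h hδ.le
    have e' : (x * u + δ * (k * (m + 1) * v)) ^ 2 / δ =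
        1 / δ * (x * u) ^ 2 + 2 * (x * u) * (k * (m + 1) * v) + δ * (k * (m + 1) * v) ^ 2 := by
      field_simp
      ring
    rw [e'] at h'
    nlinarith [h']
  have n1 := aa_nonneg k (m + 1) x
  have n0 := aa_nonneg k m x
  have c1 : (1 + 1 / δ) * (x ^ 2 / k) / (m + 2) ≤ δ := by
    rw [div_le_iff₀ (by positivity)]
    exact hm
  have c2 : ((m : ℝ) + 1) / (m + 2) ≤ 1 := by
    rw [div_le_one (by positivity)]
    linarith
  calc aa k (m + 2) x ≤ _ := key
    _ ≤ δ * aa k (m + 1) x + (1 + δ) * 1 * aa k m x := by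
        gcongr
    _ = _ := by ring

private theorem growth27 {k : ℕ} (hk : 0 < k) (x : ℝ) {r : ℝ} (hr : 1 < r) :
    ∃ C : ℝ, 0 < C ∧ ∀ m : ℕ, aa k m x ≤ C * r ^ m := by
  obtain ⟨δ, hδ, hr'⟩ : ∃ δ : ℝ, 0 < δ ∧ r = 1 + 2 * δ := ⟨(r - 1) / 2, by linarith, by ring⟩
  obtain ⟨m0, hm0⟩ := exists_nat_ge ((1 + 1 / δ) * (x ^ 2 / k) / δ)
  have hbig : ∀ m : ℕ, m0 ≤ m → (1 + 1 / δ) * (x ^ 2 / k) ≤ δ * (m + 2) := by
    intro m hm
    have h1 : (m0 : ℝ) ≤ m := by exact_mod_cast hm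
    rw [div_le_iff₀ hδ] at hm0
    nlinarith
  -- C bounds everything up to m0 + 1
  let C : ℝ := 1 + ∑ i ∈ Finset.range (m0 + 2), aa k i x
  have hC : 0 < C := by
    have : 0 ≤ ∑ i ∈ Finset.range (m0 + 2), aa k i x := Finset.sum_nonneg fun i _ => aa_nonneg k i x
    show 0 < 1 + _
    linarith
  have hsmall : ∀ m : ℕ, m < m0 + 2 → aa k m x ≤ C := by
    intro m hm
    have : aa k m x ≤ ∑ i ∈ Finset.range (m0 + 2), aa k i x :=
      Finset.single_le_sum (f := fun i => aa k i x) (fun i _ => aa_nonneg k i x) (Finset.mem_range.2 hm)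
    show _ ≤ 1 + _
    linarith
  refine ⟨C, hC, ?_⟩
  have main : ∀ m : ℕ, aa k m x ≤ C * r ^ m ∧ aa k (m + 1) x ≤ C * r ^ (m + 1) := by
    intro m
    induction m with
    | zero =>
      refine ⟨?_, ?_⟩
      · simpa using hsmall 0 (by omega)
      · have := hsmall 1 (by omega)
        rw [zero_add, pow_one]
        nlinarith
    | succ m ih =>
      refine ⟨ih.2, ?_⟩
      by_cases hm : m + 2 < m0 + 2
      · have h1 := hsmall (m + 2) hm
        have h2 : (1 : ℝ) ≤ r ^ (m + 1 + 1) := one_le_pow₀ hr.le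
        calc aa k (m + 1 + 1) x ≤ C := h1
          _ ≤ C * r ^ (m + 1 + 1) := by nlinarith
      · have h1 := step27 hk x hδ m (hbig m (by omega))
        have h2 : r ^ m ≤ r ^ (m + 1) := pow_le_pow_right₀ hr.le (by omega)
        calc aa k (m + 1 + 1) x ≤ δ * aa k (m + 1) x + (1 + δ) * aa k m x := h1
          _ ≤ δ * (C * r ^ (m + 1)) + (1 + δ) * (C * r ^ (m + 1)) := by
              have := ih.1
              have := ih.2
              gcongr
              calc aa k m x ≤ C * r ^ m := ih.1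
                _ ≤ C * r ^ (m + 1) := by gcongr
          _ = C * r ^ (m + 1 + 1) := by
              rw [hr']
              ring
  exact fun m => (main m).1

private theorem summable27 {k : ℕ} (hk : 0 < k) (x : ℝ) {s : ℝ} (hs0 : 0 < s) (hs1 : s < 1) :
    Summable (fun n : ℕ => (n : ℝ) * aa k n x * s ^ (n - 1)) ∧
      Summable (fun n : ℕ => aa k n x * s ^ n) := by
  have hr : 1 < (1 + s) / (2 * s) := by
    rw [lt_div_iff₀ (by positivity)]
    linarith
  obtain ⟨C, hC, hb⟩ := growth27 hk x hr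
  have hq : (1 + s) / (2 * s) * s = (1 + s) / 2 := by field_simp
  have hq1 : ‖(1 + s) / 2‖ < 1 := by
    rw [Real.norm_of_nonneg (by positivity)]
    linarith
  have hb2 : ∀ n : ℕ, aa k n x * s ^ n ≤ C * ((1 + s) / 2) ^ n := by
    intro n
    calc aa k n x * s ^ n ≤ C * ((1 + s) / (2 * s)) ^ n * s ^ n := by
          gcongr
          exact hb n
      _ = C * ((1 + s) / 2) ^ n := by
          rw [mul_assoc, ← mul_pow, hq]
  constructor
  · have S := (summable_pow_mul_geometric_of_norm_lt_one 1 hq1).mul_left (C / s)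
    refine Summable.of_nonneg_of_le (fun n => ?_) (fun n => ?_) S
    · have := aa_nonneg k n x
      positivity
    · rcases Nat.eq_zero_or_pos n with h0 | hpos
      · subst h0
        simp
      · have e : s ^ (n - 1) = s ^ n / s := by
          rw [eq_div_iff hs0.ne', ← pow_succ, Nat.sub_add_cancel hpos]
        rw [e]
        calc (n : ℝ) * aa k n x * (s ^ n / s) = (n : ℝ) / s * (aa k n x * s ^ n) := by ring
          _ ≤ (n : ℝ) / s * (C * ((1 + s) / 2) ^ n) :=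
              mul_le_mul_of_nonneg_left (hb2 n) (by positivity)
          _ = C / s * ((n : ℝ) ^ 1 * ((1 + s) / 2) ^ n) := by ring
  · have S := (summable_geometric_of_norm_lt_one hq1).mul_left C
    refine Summable.of_nonneg_of_le (fun n => ?_) (fun n => ?_) S
    · have := aa_nonneg k n x
      positivity
    · exact hb2 n

private theorem deriv27 {k : ℕ} (hk : 0 < k) (x : ℝ) {t : ℝ} (ht : |t| < 1) :
    HasDerivAt (fun z => ∑' n : ℕ, aa k n x * z ^ n)
      (∑' n : ℕ, aa k n x * ((n : ℝ) * t ^ (n - 1))) t := by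
  obtain ⟨s, hs, hs1⟩ := exists_between ht
  have hs0 : 0 < s := (abs_nonneg t).trans_lt hs
  obtain ⟨S1, S0⟩ := summable27 hk x hs0 hs1
  refine hasDerivAt_tsum_of_isPreconnected (u := fun n : ℕ => (n : ℝ) * aa k n x * s ^ (n - 1))
    (g := fun n z => aa k n x * z ^ n) (g' := fun n z => aa k n x * ((n : ℝ) * z ^ (n - 1)))
    (t := Set.Ioo (-s) s) (y₀ := 0) S1 isOpen_Ioo isPreconnected_Ioo ?_ ?_ ?_ ?_ ?_
  · intro n y _
    exact (hasDerivAt_pow n y).const_mul _
  · intro n y hy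
    have hy' : |y| ≤ s := (abs_lt.2 hy).le
    rw [Real.norm_eq_abs, abs_mul, abs_mul, abs_of_nonneg (aa_nonneg k n x), abs_pow,
      abs_of_nonneg (Nat.cast_nonneg n)]
    have : |y| ^ (n - 1) ≤ s ^ (n - 1) := pow_le_pow_left₀ (abs_nonneg y) hy' _
    have h2 := aa_nonneg k n x
    calc aa k n x * ((n : ℝ) * |y| ^ (n - 1)) ≤ aa k n x * ((n : ℝ) * s ^ (n - 1)) := by gcongr
      _ = _ := by ring
  · exact ⟨by linarith, hs0⟩
  · apply summable_of_ne_finset_zero (s := {0})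
    intro n hn
    have hn0 : n ≠ 0 := by simpa using hn
    simp [hn0]
  · exact abs_lt.1 hs

private theorem summ27 {k : ℕ} (hk : 0 < k) (x : ℝ) {t : ℝ} (ht : |t| < 1) :
    Summable (fun n : ℕ => aa k n x * t ^ n) ∧
      Summable (fun n : ℕ => aa k n x * ((n : ℝ) * t ^ (n - 1))) := by
  obtain ⟨s, hs, hs1⟩ := exists_between ht
  have hs0 : 0 < s := (abs_nonneg t).trans_lt hs
  obtain ⟨S1, S0⟩ := summable27 hk x hs0 hs1
  constructor
  · refine Summable.of_norm_bounded S0 (fun n => ?_)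
    rw [Real.norm_eq_abs, abs_mul, abs_of_nonneg (aa_nonneg k n x), abs_pow]
    have : |t| ^ n ≤ s ^ n := pow_le_pow_left₀ (abs_nonneg t) hs.le _
    have h2 := aa_nonneg k n x
    gcongr
  · refine Summable.of_norm_bounded S1 (fun n => ?_)
    rw [Real.norm_eq_abs, abs_mul, abs_mul, abs_of_nonneg (aa_nonneg k n x), abs_pow,
      abs_of_nonneg (Nat.cast_nonneg n)]
    have : |t| ^ (n - 1) ≤ s ^ (n - 1) := pow_le_pow_left₀ (abs_nonneg t) hs.le _
    have h2 := aa_nonneg k n x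
    calc aa k n x * ((n : ℝ) * |t| ^ (n - 1)) ≤ aa k n x * ((n : ℝ) * s ^ (n - 1)) := by gcongr
      _ = _ := by ring

/-- The differential equation of the generating function. -/
private theorem ode27 {k : ℕ} (hk : 0 < k) (x : ℝ) {t : ℝ} (ht : |t| < 1) :
    (1 + t) * (1 - t ^ 2) * (∑' n : ℕ, aa k n x * ((n : ℝ) * t ^ (n - 1))) =
      (t * (1 + t) + x ^ 2 / k * (1 - t)) * ∑' n : ℕ, aa k n x * t ^ n := by
  obtain ⟨S0, S1⟩ := summ27 hk x ht
  set y : ℝ := x ^ 2 / k with hy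
  -- the three shifts of M
  have M0 := S0.hasSum
  have M1 : HasSum (fun n : ℕ => aa k (n + 1) x * t ^ (n + 1))
      ((∑' n : ℕ, aa k n x * t ^ n) - 1) := by
    have := (hasSum_nat_add_iff' 1).2 M0
    simpa [zero27] using this
  have M2 : HasSum (fun n : ℕ => aa k (n + 2) x * t ^ (n + 2))
      ((∑' n : ℕ, aa k n x * t ^ n) - (1 + y * t)) := by
    have := (hasSum_nat_add_iff' 2).2 M0
    simpa [Finset.sum_range_succ, zero27, one27, hy] using this
  have D0 := S1.hasSum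
  have D1 : HasSum (fun n : ℕ => aa k (n + 1) x * (((n : ℝ) + 1) * t ^ n))
      (∑' n : ℕ, aa k n x * ((n : ℝ) * t ^ (n - 1))) := by
    have := (hasSum_nat_add_iff' 1).2 D0
    simpa [zero27] using this
  have D2 : HasSum (fun n : ℕ => aa k (n + 2) x * (((n : ℝ) + 2) * t ^ (n + 1)))
      ((∑' n : ℕ, aa k n x * ((n : ℝ) * t ^ (n - 1))) - y) := by
    have := (hasSum_nat_add_iff' 1).2 D1
    have e : (fun n : ℕ => aa k (n + 1 + 1) x * ((((n + 1 : ℕ) : ℝ) + 1) * t ^ (n + 1))) =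
        fun n : ℕ => aa k (n + 2) x * (((n : ℝ) + 2) * t ^ (n + 1)) := by
      funext n
      push_cast
      ring
    rw [e] at this
    simpa [one27, hy] using this
  have D3 : HasSum (fun n : ℕ => aa k (n + 3) x * (((n : ℝ) + 3) * t ^ (n + 2)))
      ((∑' n : ℕ, aa k n x * ((n : ℝ) * t ^ (n - 1))) - y - (y - 1) ^ 2 * t) := by
    have := (hasSum_nat_add_iff' 1).2 D2
    have e : (fun n : ℕ => aa k (n + 1 + 2) x * ((((n + 1 : ℕ) : ℝ) + 2) * t ^ (n + 1 + 1))) =
        fun n : ℕ => aa k (n + 3) x * (((n : ℝ) + 3) * t ^ (n + 2)) := by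
      funext n
      push_cast
      ring
    rw [e] at this
    have e2 := two27 hk x
    rw [← hy] at e2
    have e3 : ∑ i ∈ Finset.range 1, aa k (i + 2) x * (((i : ℝ) + 2) * t ^ (i + 1)) = (y - 1) ^ 2 * t := by
      rw [Finset.sum_range_one]
      simp only [zero_add, Nat.cast_zero, pow_one]
      rw [← e2]
      ring
    rw [e3] at this
    exact this
  set M : ℝ := ∑' n : ℕ, aa k n x * t ^ n with hM
  set D : ℝ := ∑' n : ℕ, aa k n x * ((n : ℝ) * t ^ (n - 1)) with hD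
  -- t D = sum n a_n t^n, as a sum
  have N0 : HasSum (fun n : ℕ => aa k n x * ((n : ℝ) * t ^ n)) (t * D) := by
    have := D0.mul_left t
    have e : (fun n : ℕ => t * (aa k n x * ((n : ℝ) * t ^ (n - 1)))) =
        fun n : ℕ => aa k n x * ((n : ℝ) * t ^ n) := by
      funext n
      rcases Nat.eq_zero_or_pos n with h0 | hpos
      · subst h0
        simp
      · obtain ⟨j, rfl⟩ : ∃ j, n = j + 1 := ⟨n - 1, by omega⟩
        rw [Nat.add_sub_cancel, pow_succ]
        ring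
    rw [e] at this
    exact this
  have A := (((D3.add (D2.mul_left t)).sub (D1.mul_left (t ^ 2))).sub (N0.mul_left (t ^ 2))).sub
    (((M2.mul_left y).add (M1.mul_left ((1 - y) * t))).add (M0.mul_left (t ^ 2)))
  have Z : HasSum (fun _ : ℕ => (0 : ℝ)) (D - y - (y - 1) ^ 2 * t + t * (D - y) - t ^ 2 * D - t ^ 2 * (t * D) -
      (y * (M - (1 + y * t)) + (1 - y) * t * (M - 1) + t ^ 2 * M)) := by
    have hA : ∀ n : ℕ, (0 : ℝ) = aa k (n + 3) x * ((↑n + 3) * t ^ (n + 2)) +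
          t * (aa k (n + 2) x * ((↑n + 2) * t ^ (n + 1))) -
            t ^ 2 * (aa k (n + 1) x * ((↑n + 1) * t ^ n)) -
          t ^ 2 * (aa k n x * (↑n * t ^ n)) -
        (y * (aa k (n + 2) x * t ^ (n + 2)) + (1 - y) * t * (aa k (n + 1) x * t ^ (n + 1)) +
          t ^ 2 * (aa k n x * t ^ n)) := by
      intro n
      have h := rec27 hk x n
      rw [← hy] at h
      have h' : aa k (n + 3) x * (((n : ℝ) + 3) * t ^ (n + 2)) =
          (((n : ℝ) + 3) * aa k (n + 3) x) * t ^ (n + 2) := by ring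
      rw [h', h]
      ring
    rw [funext hA]
    exact A
  have Z0 := Z.unique (hasSum_zero)
  linear_combination Z0

theorem mehler {k : ℕ} (hk : 0 < k) (x : ℝ) {t : ℝ} (ht : |t| < 1) :
    HasSum (fun m => aa k m x * t ^ m)
      (Real.exp (x ^ 2 / k * (t / (1 + t))) / Real.sqrt (1 - t ^ 2)) := by
  obtain ⟨S0, S1⟩ := summ27 hk x ht
  set y : ℝ := x ^ 2 / k with hy
  have hval : (∑' n : ℕ, aa k n x * t ^ n) = Real.exp (y * (t / (1 + t))) / Real.sqrt (1 - t ^ 2) := by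
    let G : ℝ → ℝ := fun z => (∑' n : ℕ, aa k n x * z ^ n) * (Real.exp (-(y * (z / (1 + z)))) * Real.sqrt (1 - z ^ 2))
    have hG : ∀ z ∈ Set.Ioo (-1 : ℝ) 1, HasDerivAt G 0 z := by
      intro z hz
      have hz' : |z| < 1 := abs_lt.2 hz
      have p1 : 0 < 1 + z := by linarith [hz.1]
      have p2 : 0 < 1 - z := by linarith [hz.2]
      have p3 : 0 < 1 - z ^ 2 := by nlinarith
      have d1 := deriv27 hk x hz'
      have d2 : HasDerivAt (fun z : ℝ => z / (1 + z)) ((1 * (1 + z) - z * (0 + 1)) / (1 + z) ^ 2) z :=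
        (hasDerivAt_id z).div ((hasDerivAt_const z (1 : ℝ)).add (hasDerivAt_id z)) p1.ne'
      have d3 : HasDerivAt (fun z : ℝ => Real.exp (-(y * (z / (1 + z)))))
          (Real.exp (-(y * (z / (1 + z)))) * (-(y * ((1 * (1 + z) - z * (0 + 1)) / (1 + z) ^ 2)))) z :=
        ((d2.const_mul y).neg).exp
      have d4 : HasDerivAt (fun z : ℝ => 1 - z ^ 2) (0 - (2 : ℕ) * z ^ (2 - 1)) z :=
        (hasDerivAt_const z (1 : ℝ)).sub (hasDerivAt_pow 2 z)
      have d5 := d4.sqrt p3.ne'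
      have d6 := d1.mul (d3.mul d5)
      have hode := ode27 hk x hz'
      rw [← hy] at hode
      have d7 : HasDerivAt G _ z := d6
      refine d7.congr_deriv ?_
      clear d7 d6 d5 d3 d1
      show (∑' n : ℕ, aa k n x * ((n : ℝ) * z ^ (n - 1))) *
        (Real.exp (-(y * (z / (1 + z)))) * Real.sqrt (1 - z ^ 2)) +
        (∑' n : ℕ, aa k n x * z ^ n) *
        (Real.exp (-(y * (z / (1 + z)))) * (-(y * ((1 * (1 + z) - z * (0 + 1)) / (1 + z) ^ 2))) *
          Real.sqrt (1 - z ^ 2) +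
          Real.exp (-(y * (z / (1 + z)))) * ((0 - (2 : ℕ) * z ^ (2 - 1)) / (2 * Real.sqrt (1 - z ^ 2)))) = 0
      set S := Real.sqrt (1 - z ^ 2) with hS
      have hS0 : 0 < S := Real.sqrt_pos.2 p3
      have hSS : S * S = 1 - z ^ 2 := Real.mul_self_sqrt p3.le
      set E := Real.exp (-(y * (z / (1 + z)))) with hE
      set M := ∑' n : ℕ, aa k n x * z ^ n with hM
      set D := ∑' n : ℕ, aa k n x * ((n : ℝ) * z ^ (n - 1)) with hD
      have hD' : D = (z * (1 + z) + y * (1 - z)) * M / ((1 + z) * (1 - z ^ 2)) := by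
        rw [eq_div_iff (by positivity)]
        linear_combination hode
      rw [hD']
      have hS2 : (1 - z ^ 2) = S ^ 2 := by rw [← hSS]; ring
      have hfac : (1 - z) * (1 + z) = S ^ 2 := by rw [← hS2]; ring
      have hz1 : (1 - z) = S ^ 2 / (1 + z) := by
        rw [eq_div_iff p1.ne']
        exact hfac
      have e1 : ((0 : ℝ) - (2 : ℕ) * z ^ (2 - 1)) / (2 * S) = - z / S := by
        rw [show (2 - 1 : ℕ) = 1 by norm_num, pow_one]
        push_cast
        field_simp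
        ring
      rw [e1, hS2]
      field_simp
      have : y * (1 - z) * (1 + z) = y * S ^ 2 := by rw [mul_assoc, hfac]
      ring_nf
      ring_nf at this
      linear_combination (M * E) * this
    have hc : G t = G 0 := by
      have hcont : DifferentiableOn ℝ G (Set.Ioo (-1 : ℝ) 1) :=
        fun z hz => ((hG z hz).differentiableAt).differentiableWithinAt
      refine isOpen_Ioo.is_const_of_deriv_eq_zero isPreconnected_Ioo hcont ?_ (abs_lt.1 ht) ⟨by norm_num, by norm_num⟩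
      intro z hz
      exact (hG z hz).deriv
    have hG0 : G 0 = 1 := by
      show (∑' n : ℕ, aa k n x * (0 : ℝ) ^ n) * (Real.exp (-(y * ((0 : ℝ) / (1 + 0)))) * Real.sqrt (1 - (0 : ℝ) ^ 2)) = 1
      rw [tsum_eq_single 0 (by intro n hn; simp [hn])]
      simp [zero27]
    have p1 : 0 < 1 + t := by linarith [(abs_lt.1 ht).1]
    have p2 : 0 < 1 - t := by linarith [(abs_lt.1 ht).2]
    have p3 : 0 < 1 - t ^ 2 := by nlinarith
    have hS0 : 0 < Real.sqrt (1 - t ^ 2) := Real.sqrt_pos.2 p3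
    rw [hG0] at hc
    rw [eq_div_iff hS0.ne']
    have h1 : (∑' n : ℕ, aa k n x * t ^ n) * (Real.exp (-(y * (t / (1 + t)))) * Real.sqrt (1 - t ^ 2)) = 1 := hc
    rw [Real.exp_neg] at h1
    have hE := Real.exp_pos (y * (t / (1 + t)))
    generalize Real.exp (y * (t / (1 + t))) = E at h1 hE ⊢
    generalize Real.sqrt (1 - t ^ 2) = S at h1 hS0 ⊢
    calc (∑' n : ℕ, aa k n x * t ^ n) * S = E * ((∑' n : ℕ, aa k n x * t ^ n) * (E⁻¹ * S)) := by
          field_simp
      _ = E := by rw [h1, mul_one]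
  rw [← hval]
  exact S0.hasSum

theorem mehler_lower {k : ℕ} (hk : 0 < k) (x : ℝ) {t : ℝ} (ht : |t| < 1) :
    Real.exp (-(x ^ 2 / k * (|t| / (1 - |t|)))) ≤
      Real.exp (x ^ 2 / k * (t / (1 + t))) / Real.sqrt (1 - t ^ 2) := by
  have hk0 : (0 : ℝ) < k := by exact_mod_cast hk
  have hy : 0 ≤ x ^ 2 / k := by positivity
  have p1 : 0 < 1 + t := by linarith [(abs_lt.1 ht).1]
  have p2 : 0 < 1 - t := by linarith [(abs_lt.1 ht).2]
  have p3 : 0 < 1 - t ^ 2 := by nlinarith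
  have hS0 : 0 < Real.sqrt (1 - t ^ 2) := Real.sqrt_pos.2 p3
  have hS1 : Real.sqrt (1 - t ^ 2) ≤ 1 := by
    rw [Real.sqrt_le_iff]
    exact ⟨zero_le_one, by nlinarith [sq_nonneg t]⟩
  have h1 : Real.exp (x ^ 2 / k * (t / (1 + t))) ≤
      Real.exp (x ^ 2 / k * (t / (1 + t))) / Real.sqrt (1 - t ^ 2) := by
    rw [le_div_iff₀ hS0]
    have := Real.exp_pos (x ^ 2 / k * (t / (1 + t)))
    nlinarith
  refine le_trans (Real.exp_le_exp.2 ?_) h1
  rw [← mul_neg]
  apply mul_le_mul_of_nonneg_left _ hy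
  rcases le_total 0 t with h | h
  · have q1 : 0 ≤ t / (1 + t) := by positivity
    have q2 : 0 ≤ |t| / (1 - |t|) := div_nonneg (abs_nonneg t) (by linarith)
    linarith
  · rw [abs_of_nonpos h, sub_neg_eq_add, neg_div, neg_neg]

theorem mehler_upper {k : ℕ} (hk : 0 < k) (x : ℝ) {t : ℝ} (ht0 : 0 ≤ t) (ht : t < 1) :
    Real.exp (x ^ 2 / k * (t / (1 + t))) / Real.sqrt (1 - t ^ 2) ≤
      Real.exp (x ^ 2 / k * t + t ^ 2 / (1 - t ^ 2)) := by
  have hk0 : (0 : ℝ) < k := by exact_mod_cast hk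
  have hy : 0 ≤ x ^ 2 / k := by positivity
  have p1 : 0 < 1 + t := by linarith
  have p3 : 0 < 1 - t ^ 2 := by nlinarith
  have hS0 : 0 < Real.sqrt (1 - t ^ 2) := Real.sqrt_pos.2 p3
  have h1 : 1 - t ^ 2 ≤ Real.sqrt (1 - t ^ 2) := by
    apply Real.le_sqrt_of_sq_le
    nlinarith [sq_nonneg t]
  have h2 : t / (1 + t) ≤ t := by
    rw [div_le_iff₀ p1]
    nlinarith
  have h3 : 1 / (1 - t ^ 2) ≤ Real.exp (t ^ 2 / (1 - t ^ 2)) := by
    have := Real.add_one_le_exp (t ^ 2 / (1 - t ^ 2))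
    have e : t ^ 2 / (1 - t ^ 2) + 1 = 1 / (1 - t ^ 2) := by
      field_simp
      ring
    linarith
  have h4 : 1 / Real.sqrt (1 - t ^ 2) ≤ 1 / (1 - t ^ 2) := one_div_le_one_div_of_le p3 h1
  rw [Real.exp_add, div_eq_mul_one_div]
  have h5 : Real.exp (x ^ 2 / k * (t / (1 + t))) ≤ Real.exp (x ^ 2 / k * t) :=
    Real.exp_le_exp.2 (mul_le_mul_of_nonneg_left h2 hy)
  exact mul_le_mul h5 (h4.trans h3) (by positivity) (Real.exp_pos _).le

end Pool.Agent.Helper70.TU
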