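import Pool.Agent.Helper70.TU.H4
import Pool.Agent.Helper70.TU.H5
import Pool.Agent.Helper70.TU.H6
import Pool.Agent.Helper70.TU.H7

/-!
BLOCK TU-H9 (about 200 lines). The sum over the permutations of small support.

Proof in words. `L = K - 1` (for `K = 0` both sides are sums over `1` resp. `m = 0` (empty function), value `RM ρ 0 ^2 * RM σ 0 = 1`;
treat `K ≤ 1` separately or note that all statements used hold). `sum_small K L` with `F M = (RM ρ M)² RM σ M` (`rr_eq_RM`): the left sum is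
`∑_m N_m (RM ρ (MM m))² RM σ (MM m)`, `N_m = descFactorial n s * ∏ 1/((i+2)^{m i} (m i)!)` (`card_MM`), `s = SS m ≤ K ≤ n`. With
`xx ρ M = √n^s RM ρ M`, `(RM ρ M)² = (xx ρ M)²/n^s`. So the term is `(descFactorial n s/n^s) ∏ 1/(..) (xx ρ M)² RM σ M`, and
`descFactorial n s/n^s = 1 + O(K²/n)` (`desc_le`, `desc_ge`), `xx ρ M = ∏_{j=2}^K hh j (count) (xx ρ {j}) + O(1/√n)` (`herm`), `|xx ρ M| ≤ B`,
`RM σ M = ∏_{j=2}^K (RM σ {j})^{count} + O(1/n)` (`mult`), all factors bounded in terms of `K, B`; the products over `j ∈ Icc 2 K` are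
the products over `i : Fin (K-1)`, `j = i + 2` (`count_MM`), and `(hh j (m i) x)²/(j^{m i} (m i)!) = aa j (m i) x`. The number of `m` is at most
`(K+1)^K`.
-/

set_option autoImplicit false

open Module Equiv Pool.Agent.Helper1.TS

namespace Pool.Agent.Helper70.TU

private theorem prod_fin4 (K : ℕ) (f : ℕ → ℝ) :
    ∏ j ∈ Finset.Icc 2 K, f j = ∏ i : Fin (K - 1), f ((i : ℕ) + 2) := by
  have h1 : Finset.Icc 2 K = Finset.Ico 2 (K + 1) := by
    ext j
    rw [Finset.mem_Icc, Finset.mem_Ico]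
    omega
  rw [h1, Finset.prod_Ico_eq_prod_range, Fin.prod_univ_eq_prod_range (fun i => f (i + 2)) (K - 1)]
  have h2 : K + 1 - 2 = K - 1 := by omega
  rw [h2]
  refine Finset.prod_congr rfl fun i _ => ?_
  rw [add_comm]

/-- the elementary estimate -/
private theorem est4 {d x h u v B C1 C2 K e : ℝ} (hd1 : |d - 1| ≤ K ^ 2 * e) (hx : |x| ≤ B) (hh1 : |x - h| ≤ C1 * e)
    (hu : |u| ≤ 1) (huv : |u - v| ≤ C2 * e) (hC1 : 0 ≤ C1) (he1 : e ≤ 1) :
    |d * x ^ 2 * u - h ^ 2 * v| ≤ (K ^ 2 * B ^ 2 + C1 * (2 * B + C1) + (B + C1) ^ 2 * C2) * e := by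
  have hB : 0 ≤ B := (abs_nonneg _).trans hx
  have hh : |h| ≤ B + C1 := by
    have h1 : |h| ≤ |x| + |x - h| := by
      have := abs_sub_abs_le_abs_sub h x
      rw [abs_sub_comm h x] at this
      linarith
    have h2 : C1 * e ≤ C1 := by nlinarith
    linarith
  have e1 : d * x ^ 2 * u - h ^ 2 * v = (d - 1) * x ^ 2 * u + (x - h) * (x + h) * u + h ^ 2 * (u - v) := by ring
  have x2 : x ^ 2 ≤ B ^ 2 := by
    rw [← sq_abs x]
    exact pow_le_pow_left₀ (abs_nonneg _) hx 2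
  have h2 : h ^ 2 ≤ (B + C1) ^ 2 := by
    rw [← sq_abs h]
    exact pow_le_pow_left₀ (abs_nonneg _) hh 2
  have t1 : |(d - 1) * x ^ 2 * u| ≤ K ^ 2 * B ^ 2 * e := by
    rw [abs_mul, abs_mul, abs_of_nonneg (sq_nonneg x)]
    calc |d - 1| * x ^ 2 * |u| ≤ |d - 1| * x ^ 2 * 1 := by
          exact mul_le_mul_of_nonneg_left hu (mul_nonneg (abs_nonneg _) (sq_nonneg _))
      _ ≤ (K ^ 2 * e) * B ^ 2 := by
          rw [mul_one]
          exact mul_le_mul hd1 x2 (sq_nonneg _) ((abs_nonneg _).trans hd1)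
      _ = K ^ 2 * B ^ 2 * e := by ring
  have t2 : |(x - h) * (x + h) * u| ≤ C1 * (2 * B + C1) * e := by
    rw [abs_mul, abs_mul]
    have h3 : |x + h| ≤ 2 * B + C1 := (abs_add_le x h).trans (by linarith)
    calc |x - h| * |x + h| * |u| ≤ |x - h| * |x + h| * 1 :=
          mul_le_mul_of_nonneg_left hu (mul_nonneg (abs_nonneg _) (abs_nonneg _))
      _ ≤ (C1 * e) * (2 * B + C1) := by
          rw [mul_one]
          exact mul_le_mul hh1 h3 (abs_nonneg _) ((abs_nonneg _).trans hh1)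
      _ = C1 * (2 * B + C1) * e := by ring
  have t3 : |h ^ 2 * (u - v)| ≤ (B + C1) ^ 2 * C2 * e := by
    rw [abs_mul, abs_of_nonneg (sq_nonneg h)]
    calc h ^ 2 * |u - v| ≤ (B + C1) ^ 2 * (C2 * e) :=
          mul_le_mul h2 huv (abs_nonneg _) (sq_nonneg _)
      _ = (B + C1) ^ 2 * C2 * e := by ring
  rw [e1]
  calc |(d - 1) * x ^ 2 * u + (x - h) * (x + h) * u + h ^ 2 * (u - v)|
      ≤ |(d - 1) * x ^ 2 * u| + |(x - h) * (x + h) * u| + |h ^ 2 * (u - v)| := abs_add_three _ _ _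
    _ ≤ K ^ 2 * B ^ 2 * e + C1 * (2 * B + C1) * e + (B + C1) ^ 2 * C2 * e := add_le_add (add_le_add t1 t2) t3
    _ = _ := by ring

private theorem wt4 {L : ℕ} (m : Fin L → ℕ) :
    0 ≤ ∏ i : Fin L, (1 / ((((i : ℕ) + 2 : ℕ) : ℝ) ^ m i * (m i).factorial)) ∧
      ∏ i : Fin L, (1 / ((((i : ℕ) + 2 : ℕ) : ℝ) ^ m i * (m i).factorial)) ≤ 1 := by
  have h1 : ∀ i : Fin L, (1 : ℝ) ≤ (((i : ℕ) + 2 : ℕ) : ℝ) ^ m i * (m i).factorial := by
    intro i
    have a1 : (1 : ℝ) ≤ (((i : ℕ) + 2 : ℕ) : ℝ) ^ m i := one_le_pow₀ (by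
      push_cast
      have : (0 : ℝ) ≤ ((i : ℕ) : ℝ) := Nat.cast_nonneg _
      linarith)
    have a2 : (1 : ℝ) ≤ (m i).factorial := by exact_mod_cast Nat.factorial_pos _
    nlinarith
  constructor
  · exact Finset.prod_nonneg fun i _ => div_nonneg zero_le_one (zero_le_one.trans (h1 i))
  · refine Finset.prod_le_one (fun i _ => div_nonneg zero_le_one (zero_le_one.trans (h1 i))) fun i _ => ?_
    exact (div_le_one (lt_of_lt_of_le one_pos (h1 i))).2 (h1 i)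

theorem head (K : ℕ) (B : ℝ) :
    ∃ C : ℝ, 0 < C ∧ ∃ N : ℕ, ∀ n ≥ N, ∀ (V W : Type) [AddCommGroup V] [Module ℂ V]
      [FiniteDimensional ℂ V] [AddCommGroup W] [Module ℂ W] [FiniteDimensional ℂ W]
      (ρ : Representation ℂ (Perm (Fin n)) V) [ρ.IsIrreducible]
      (σ : Representation ℂ (Perm (Fin n)) W) [σ.IsIrreducible],
      (∀ g : Perm (Fin n), g.support.card ≤ K → Real.sqrt n ^ g.support.card * |rr ρ g| ≤ B) →
      |∑ g ∈ Finset.univ.filter (fun g : Perm (Fin n) => g.support.card ≤ K),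
          (rr ρ g) ^ 2 * rr σ g -
        ∑ m ∈ (Fintype.piFinset (fun _ : Fin (K - 1) => Finset.range (K + 1))).filter
            (fun m => SS m ≤ K),
          ∏ i : Fin (K - 1), aa ((i : ℕ) + 2) (m i) (xx ρ {(i : ℕ) + 2}) * RM σ {(i : ℕ) + 2} ^ m i| ≤
        C / Real.sqrt n := by
  obtain ⟨C1, hC1, N1, hN1⟩ := herm K B
  obtain ⟨C2, hC2, hm2⟩ := mult K
  obtain ⟨E, hE⟩ : ∃ E : ℝ, E = (K : ℝ) ^ 2 * |B| ^ 2 + C1 * (2 * |B| + C1) + (|B| + C1) ^ 2 * C2 := ⟨_, rfl⟩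
  have hE0 : 0 ≤ E := by
    rw [hE]
    have := abs_nonneg B
    positivity
  obtain ⟨S, hS⟩ : ∃ S : Finset (Fin (K - 1) → ℕ), S = (Fintype.piFinset (fun _ : Fin (K - 1) => Finset.range (K + 1))).filter
      (fun m => SS m ≤ K) := ⟨_, rfl⟩
  refine ⟨S.card * E + 1, by positivity, max N1 (max K 1), ?_⟩
  intro n hn V W _ _ _ _ _ _ ρ _ σ _ hB
  have hn1 : N1 ≤ n := (le_max_left _ _).trans hn
  have hnK : K ≤ n := ((le_max_left _ _).trans (le_max_right _ _)).trans hn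
  have hn0 : 1 ≤ n := ((le_max_right _ _).trans (le_max_right _ _)).trans hn
  have hnr : (1 : ℝ) ≤ n := by exact_mod_cast hn0
  have hnp : (0 : ℝ) < n := by linarith
  have hs1 : 1 ≤ Real.sqrt n := by
    rw [Real.one_le_sqrt]
    exact hnr
  have hs0 : 0 < Real.sqrt n := by linarith
  have he1 : 1 / Real.sqrt n ≤ 1 := (div_le_one hs0).2 hs1
  have he0 : 0 ≤ 1 / Real.sqrt n := by positivity
  have hen : 1 / (n : ℝ) ≤ 1 / Real.sqrt n := by
    refine one_div_le_one_div_of_le hs0 ?_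
    calc Real.sqrt n = Real.sqrt n * 1 := (mul_one _).symm
      _ ≤ Real.sqrt n * Real.sqrt n := mul_le_mul_of_nonneg_left hs1 hs0.le
      _ = n := Real.mul_self_sqrt hnp.le
  rw [← hS]
  have hsum : ∑ g ∈ Finset.univ.filter (fun g : Perm (Fin n) => g.support.card ≤ K), (rr ρ g) ^ 2 * rr σ g =
      ∑ m ∈ S, ((Finset.univ.filter (fun g : Perm (Fin n) => g.cycleType = MM m)).card : ℝ) *
        ((RM ρ (MM m)) ^ 2 * RM σ (MM m)) := by
    rw [hS, ← sum_small K (K - 1) (by omega) (fun M => (RM ρ M) ^ 2 * RM σ M)]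
    refine Finset.sum_congr rfl fun g _ => ?_
    rw [rr_eq_RM ρ g, rr_eq_RM σ g]
  rw [hsum, ← Finset.sum_sub_distrib]
  have hterm : ∀ m ∈ S, |((Finset.univ.filter (fun g : Perm (Fin n) => g.cycleType = MM m)).card : ℝ) *
      ((RM ρ (MM m)) ^ 2 * RM σ (MM m)) -
      ∏ i : Fin (K - 1), aa ((i : ℕ) + 2) (m i) (xx ρ {(i : ℕ) + 2}) * RM σ {(i : ℕ) + 2} ^ m i| ≤ E * (1 / Real.sqrt n) := by
    intro m hm
    rw [hS, Finset.mem_filter] at hm
    have hsK : SS m ≤ K := hm.2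
    have hsn : SS m ≤ n := hsK.trans hnK
    have h2 : ∀ a ∈ MM m, 2 ≤ a := fun a ha => two_le_of_mem_MM m ha
    have hMs : (MM m).sum ≤ K := by
      rw [MM_sum]
      exact hsK
    -- the bound of the scaled character
    obtain ⟨g, hg⟩ := exists_cycleType (n := n) h2 (hMs.trans hnK)
    have hgs : g.support.card = SS m := by
      rw [← Equiv.Perm.sum_cycleType, hg, MM_sum]
    have hxB : |xx ρ (MM m)| ≤ B := by
      have h3 := hB g (by
        rw [hgs]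
        exact hsK)
      rw [hgs, rr_eq_RM ρ g, hg] at h3
      unfold xx
      rw [MM_sum, abs_mul, abs_of_nonneg (pow_nonneg hs0.le _)]
      exact h3
    have hxB' : |xx ρ (MM m)| ≤ |B| := hxB.trans (le_abs_self B)
    obtain ⟨x, hx⟩ : ∃ x : ℝ, x = xx ρ (MM m) := ⟨_, rfl⟩
    obtain ⟨u, hu⟩ : ∃ u : ℝ, u = RM σ (MM m) := ⟨_, rfl⟩
    obtain ⟨w, hw⟩ : ∃ w : ℝ, w = ∏ i : Fin (K - 1), (1 / ((((i : ℕ) + 2 : ℕ) : ℝ) ^ m i * (m i).factorial)) := ⟨_, rfl⟩
    obtain ⟨h, hh'⟩ : ∃ h : ℝ, h = ∏ i : Fin (K - 1), hh ((i : ℕ) + 2) (m i) (xx ρ {(i : ℕ) + 2}) := ⟨_, rfl⟩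
    obtain ⟨v, hv⟩ : ∃ v : ℝ, v = ∏ i : Fin (K - 1), RM σ {(i : ℕ) + 2} ^ m i := ⟨_, rfl⟩
    obtain ⟨d, hd⟩ : ∃ d : ℝ, d = (n.descFactorial (SS m) : ℝ) / (n : ℝ) ^ SS m := ⟨_, rfl⟩
    have hw01 := wt4 m
    rw [← hw] at hw01
    -- comparison with the products
    have hxh : |x - h| ≤ C1 * (1 / Real.sqrt n) := by
      have h3 := hN1 n hn1 V ρ hB (MM m) h2 hMs
      rw [prod_fin4 K (fun j => hh j ((MM m).count j) (xx ρ {j}))] at h3
      have h4 : ∏ i : Fin (K - 1), hh ((i : ℕ) + 2) ((MM m).count ((i : ℕ) + 2)) (xx ρ {(i : ℕ) + 2}) = h := by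
        rw [hh']
        refine Finset.prod_congr rfl fun i _ => ?_
        rw [count_MM]
      rw [h4, ← hx] at h3
      rw [mul_one_div]
      exact h3
    have huv : |u - v| ≤ C2 * (1 / Real.sqrt n) := by
      have h3 := hm2 n hnK W σ (MM m) h2 hMs
      rw [prod_fin4 K (fun j => RM σ {j} ^ ((MM m).count j))] at h3
      have h4 : ∏ i : Fin (K - 1), RM σ {(i : ℕ) + 2} ^ ((MM m).count ((i : ℕ) + 2)) = v := by
        rw [hv]
        refine Finset.prod_congr rfl fun i _ => ?_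
        rw [count_MM]
      rw [h4, ← hu] at h3
      refine h3.trans ?_
      rw [div_eq_mul_one_div]
      exact mul_le_mul_of_nonneg_left hen hC2.le
    have hu1 : |u| ≤ 1 := by
      rw [hu]
      exact abs_RM_le_one σ _
    have hnpow : (0 : ℝ) < (n : ℝ) ^ SS m := pow_pos hnp _
    have hd1 : |d - 1| ≤ (K : ℝ) ^ 2 * (1 / Real.sqrt n) := by
      have a1 : d ≤ 1 := by
        rw [hd]
        exact (div_le_one hnpow).2 (desc_le n (SS m))
      have a2 : 1 - ((SS m : ℕ) : ℝ) ^ 2 / n ≤ d := by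
        rw [hd, le_div_iff₀ hnpow, mul_comm]
        exact desc_ge n (SS m) hn0 hsn
      have a3 : ((SS m : ℕ) : ℝ) ^ 2 ≤ (K : ℝ) ^ 2 := by
        have : ((SS m : ℕ) : ℝ) ≤ K := by exact_mod_cast hsK
        exact pow_le_pow_left₀ (Nat.cast_nonneg _) this 2
      rw [abs_of_nonpos (by linarith)]
      calc -(d - 1) ≤ ((SS m : ℕ) : ℝ) ^ 2 / n := by linarith
        _ = ((SS m : ℕ) : ℝ) ^ 2 * (1 / n) := div_eq_mul_one_div _ _
        _ ≤ (K : ℝ) ^ 2 * (1 / Real.sqrt n) := mul_le_mul a3 hen (by positivity) (by positivity)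
    -- the two terms
    have e1 : ((Finset.univ.filter (fun g : Perm (Fin n) => g.cycleType = MM m)).card : ℝ) *
        ((RM ρ (MM m)) ^ 2 * RM σ (MM m)) = w * (d * x ^ 2 * u) := by
      rw [card_MM m hsn, ← hw, ← hu, hd, hx]
      have h3 : (xx ρ (MM m)) ^ 2 = (n : ℝ) ^ SS m * (RM ρ (MM m)) ^ 2 := by
        unfold xx
        rw [MM_sum, mul_pow, ← pow_mul, mul_comm (SS m) 2, pow_mul, Real.sq_sqrt hnp.le]
      rw [h3]
      field_simp
    have e2 : ∏ i : Fin (K - 1), aa ((i : ℕ) + 2) (m i) (xx ρ {(i : ℕ) + 2}) * RM σ {(i : ℕ) + 2} ^ m i = w * (h ^ 2 * v) := by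
      rw [hw, hh', hv, ← Finset.prod_pow, ← Finset.prod_mul_distrib, ← Finset.prod_mul_distrib]
      refine Finset.prod_congr rfl fun i _ => ?_
      unfold aa
      ring
    rw [e1, e2, ← mul_sub, abs_mul, abs_of_nonneg hw01.1]
    have h5 := est4 (K := (K : ℝ)) (B := |B|) (x := x) hd1 (by
      rw [hx]
      exact hxB') hxh hu1 huv hC1.le he1
    rw [← hE] at h5
    calc w * |d * x ^ 2 * u - h ^ 2 * v| ≤ 1 * |d * x ^ 2 * u - h ^ 2 * v| :=
          mul_le_mul_of_nonneg_right hw01.2 (abs_nonneg _)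
      _ ≤ E * (1 / Real.sqrt n) := by
          rw [one_mul]
          exact h5
  refine (Finset.abs_sum_le_sum_abs _ _).trans ((Finset.sum_le_sum hterm).trans ?_)
  have h6 : ((S.card : ℝ) * E + 1) / Real.sqrt n = ((S.card : ℝ) * E + 1) * (1 / Real.sqrt n) := div_eq_mul_one_div _ _
  rw [h6, Finset.sum_const, nsmul_eq_mul, ← mul_assoc]
  exact mul_le_mul_of_nonneg_right (by linarith) he0

end Pool.Agent.Helper70.TU
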