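import Pool.Agent.Helper70.TU.H8
import Pool.Agent.Helper70.TU.H9
import Pool.Agent.Helper1.TS.CLS

/-!
BLOCK TU-M1 (about 250 lines). Lower bound for `∑_g r(g)² q(g)`.

Proof in words. `y_j = (xx ρ {j})²/j`, `t_j = RM σ {j}`, `|t_j| ≤ q^j` for `2 ≤ j ≤ n` (a `j`-cycle has support `j`; `exists_cycleType`, `rr_eq_RM`).
1. `hsmall`: for `s = s(g) ≥ 1`, `s ≤ K`: `cls g ≥ C(n, s) ≥ (n/s)^s`: for each `s`-subset `S` there is a conjugate with support `S`
   (conjugate by a permutation mapping `supp g` to `S`); the class of `g` contributes `cls g * r(g)² w^s ≤ A`. So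
   `n^s r(g)² ≤ A (s/w)^s`, hence `√n^s |r(g)| ≤ B := A (K/w)^K + 1`-like constant (`A ≥ 1`).
2. `hcyc`: for `n ≥ 2K²`: `∑_{j=2}^K y_j w^j ≤ 2 A`: the permutations with cycle type `{j}` are `descFactorial n j / j ≥ n^j/(2j)` many
   (`card_MM` or `Equiv.Perm.card_of_cycleType`), each contributes `(RM ρ {j})² w^j = (xx ρ {j})² w^j/n^j`, and they are disjoint for different `j`.
3. `head K B` and `box_trunc K` with `L = K - 1`, `a i m = aa (i+2) m (xx ρ {i+2})`, `t i = t_{i+2}`, and `mehler` for `S i`, `T i` (`|t| < 1`):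
   `S i = exp(y t/(1+t))/√(1-t²)`, `T i` the same with `w^{i+2}`. `mehler_lower`: `∏ S i ≥ exp(-∑_j y_j q^j/(1-q²)) ≥ exp(-2A/(1-q²)) = c₀`
   (`|t|/(1-|t|) ≤ q^j/(1-q^j) ≤ q^j/(1-q²)`, `q ≤ w`, 2.). `mehler_upper`: `∏ T i ≤ exp(∑_j y_j w^j + ∑_j w^{2j}/(1-w^{2j})) ≤ exp(2A + 1/(1-w)^2..) =: D`
   (`w^{2j}/(1-w^{2j}) ≤ w^{j}/(1-w)`, `∑_j w^j ≤ 1/(1-w)`).
4. Tail: `∑_{s(g) > K} r² |q(g)| ≤ ∑_{s > K} r² q^s ≤ (q/w)^K ∑ r² w^s ≤ (q/w)^K A`.
5. `K` depends only on `q, w, A`: `(q/w)^K (D + A) ≤ c₀/4`, `K ≥ 2`. Total `≥ c₀ - c₀/4 - C/√n ≥ c₀/2` for large `n`. `κ = c₀/2`.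
-/

set_option autoImplicit false

open Module Equiv Pool.Agent.Helper1.TS

namespace Pool.Agent.Helper70.TU

private lemma conj6 {n : ℕ} (g : Perm (Fin n)) (S : Finset (Fin n)) (hS : S.card = g.support.card) :
    ∃ h : Perm (Fin n), h.support = S ∧ ∃ y : Perm (Fin n), h = y * g * y⁻¹ := by
  classical
  have e : {x // x ∈ g.support} ≃ {x // x ∈ S} := Finset.equivOfCardEq hS.symm
  refine ⟨e.extendSubtype * g * (e.extendSubtype)⁻¹, ?_, e.extendSubtype, rfl⟩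
  rw [Equiv.Perm.support_conj]
  refine Finset.eq_of_subset_of_card_le ?_ ?_
  · intro x hx
    obtain ⟨z, hz, rfl⟩ := Finset.mem_map.1 hx
    exact e.extendSubtype_mem z hz
  · rw [Finset.card_map, hS]

private lemma class6 {n : ℕ} {V : Type} [AddCommGroup V] [Module ℂ V] [FiniteDimensional ℂ V]
    (ρ : Representation ℂ (Perm (Fin n)) V) {w A : ℝ} (hw0 : 0 < w)
    (hA : ∑ g : Perm (Fin n), (rr ρ g) ^ 2 * w ^ g.support.card ≤ A) (g : Perm (Fin n)) :
    (n.choose g.support.card : ℝ) * ((rr ρ g) ^ 2 * w ^ g.support.card) ≤ A := by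
  classical
  refine le_trans ?_ hA
  set P := (Finset.univ : Finset (Fin n)).powersetCard g.support.card with hP
  have hex : ∀ S : Finset (Fin n), ∃ h : Perm (Fin n), S ∈ P → h.support = S ∧ ∃ y : Perm (Fin n), h = y * g * y⁻¹ := by
    intro S
    by_cases hS : S ∈ P
    · obtain ⟨h, h1, h2⟩ := conj6 g S (Finset.mem_powersetCard.1 hS).2
      exact ⟨h, fun _ => ⟨h1, h2⟩⟩
    · exact ⟨1, fun h => absurd h hS⟩
  choose c hc using hex
  have hinj : Set.InjOn c (P : Set (Finset (Fin n))) := by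
    intro S hS S' hS' h
    rw [← (hc S hS).1, ← (hc S' hS').1, h]
  have h1 : ∑ S ∈ P, (rr ρ (c S)) ^ 2 * w ^ (c S).support.card =
      (n.choose g.support.card : ℝ) * ((rr ρ g) ^ 2 * w ^ g.support.card) := by
    have : ∀ S ∈ P, (rr ρ (c S)) ^ 2 * w ^ (c S).support.card = (rr ρ g) ^ 2 * w ^ g.support.card := by
      intro S hS
      obtain ⟨h1, y, h2⟩ := hc S hS
      have h3 : rr ρ (c S) = rr ρ g := by
        unfold rr
        rw [h2, Representation.char_conj]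
      rw [h3, h1, (Finset.mem_powersetCard.1 hS).2]
    rw [Finset.sum_congr rfl this, Finset.sum_const, nsmul_eq_mul, hP, Finset.card_powersetCard,
      Finset.card_univ, Fintype.card_fin]
  rw [← h1, ← Finset.sum_image (f := fun h => (rr ρ h) ^ 2 * w ^ h.support.card) hinj]
  refine Finset.sum_le_univ_sum_of_nonneg fun h => ?_
  positivity

theorem hsmall (w A : ℝ) (hw0 : 0 < w) (hw : w < 1) (K : ℕ) :
    ∃ B : ℝ, ∀ (n : ℕ) (V : Type) [AddCommGroup V] [Module ℂ V]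
      [FiniteDimensional ℂ V] (ρ : Representation ℂ (Perm (Fin n)) V),
      ∑ g : Perm (Fin n), (rr ρ g) ^ 2 * w ^ g.support.card ≤ A →
      ∀ g : Perm (Fin n), g.support.card ≤ K → Real.sqrt n ^ g.support.card * |rr ρ g| ≤ B := by
  classical
  refine ⟨(2 * K + 1) ^ K + (2 ^ K * K.factorial * |A| / w ^ K + 1), ?_⟩
  intro n V _ _ _ ρ hA g hg
  have hK1 : (1 : ℝ) ≤ 2 * K + 1 := by
    have : (0 : ℝ) ≤ K := Nat.cast_nonneg _
    linarith
  have hX0 : 0 ≤ 2 ^ K * (K.factorial : ℝ) * |A| / w ^ K := by positivity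
  have hr := abs_rr_le_one ρ g
  rcases Nat.lt_or_ge n (2 * K) with hn | hn
  · have h1 : Real.sqrt n ≤ 2 * K + 1 := by
      rw [Real.sqrt_le_left (by linarith)]
      have h2 : (n : ℝ) ≤ 2 * K := by exact_mod_cast hn.le
      nlinarith
    have h2 : Real.sqrt n ^ g.support.card ≤ (2 * K + 1) ^ K :=
      (pow_le_pow_left₀ (Real.sqrt_nonneg _) h1 _).trans (pow_le_pow_right₀ hK1 hg)
    calc Real.sqrt n ^ g.support.card * |rr ρ g| ≤ (2 * K + 1) ^ K * 1 :=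
          mul_le_mul h2 hr (abs_nonneg _) (by positivity)
      _ ≤ _ := by linarith
  · set s := g.support.card with hs
    have hc := class6 ρ hw0 hA g
    rw [← hs] at hc
    have h1 : ((n : ℝ) / 2) ^ s ≤ (s.factorial : ℝ) * (n.choose s : ℝ) := by
      have h2 := Nat.pow_sub_le_descFactorial n s
      rw [Nat.descFactorial_eq_factorial_mul_choose] at h2
      have h3 : ((n : ℝ) / 2) ≤ ((n + 1 - s : ℕ) : ℝ) := by
        have h4 : n ≤ 2 * (n + 1 - s) := by omega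
        have h5 : (n : ℝ) ≤ 2 * ((n + 1 - s : ℕ) : ℝ) := by exact_mod_cast h4
        linarith
      calc ((n : ℝ) / 2) ^ s ≤ ((n + 1 - s : ℕ) : ℝ) ^ s := pow_le_pow_left₀ (by positivity) h3 _
        _ ≤ (s.factorial : ℝ) * (n.choose s : ℝ) := by exact_mod_cast h2
    have hws : (0 : ℝ) < w ^ s := by positivity
    have h2 : (n : ℝ) ^ s * (rr ρ g) ^ 2 ≤ 2 ^ K * K.factorial * |A| / w ^ K := by
      have h3 : (n : ℝ) ^ s = 2 ^ s * ((n : ℝ) / 2) ^ s := by
        rw [← mul_pow]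
        congr 1
        ring
      have h4 : ((n : ℝ) / 2) ^ s * (rr ρ g) ^ 2 ≤ (s.factorial : ℝ) * (|A| / w ^ s) := by
        have h5 : (n.choose s : ℝ) * (rr ρ g) ^ 2 ≤ |A| / w ^ s := by
          rw [le_div_iff₀ hws]
          calc (n.choose s : ℝ) * (rr ρ g) ^ 2 * w ^ s = (n.choose s : ℝ) * ((rr ρ g) ^ 2 * w ^ s) := by ring
            _ ≤ A := hc
            _ ≤ |A| := le_abs_self A
        calc ((n : ℝ) / 2) ^ s * (rr ρ g) ^ 2 ≤ (s.factorial : ℝ) * (n.choose s : ℝ) * (rr ρ g) ^ 2 :=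
              mul_le_mul_of_nonneg_right h1 (sq_nonneg _)
          _ = (s.factorial : ℝ) * ((n.choose s : ℝ) * (rr ρ g) ^ 2) := by ring
          _ ≤ (s.factorial : ℝ) * (|A| / w ^ s) := mul_le_mul_of_nonneg_left h5 (by positivity)
      have h6 : |A| / w ^ s ≤ |A| / w ^ K := by
        apply div_le_div_of_nonneg_left (abs_nonneg _) (by positivity)
        exact pow_le_pow_of_le_one hw0.le hw.le hg
      have h7 : (2 : ℝ) ^ s ≤ 2 ^ K := pow_le_pow_right₀ (by norm_num) hg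
      have h8 : (s.factorial : ℝ) ≤ K.factorial := by exact_mod_cast Nat.factorial_le hg
      have h9 : 0 ≤ |A| / w ^ K := by positivity
      calc (n : ℝ) ^ s * (rr ρ g) ^ 2 = 2 ^ s * (((n : ℝ) / 2) ^ s * (rr ρ g) ^ 2) := by rw [h3]; ring
        _ ≤ 2 ^ s * ((s.factorial : ℝ) * (|A| / w ^ s)) := mul_le_mul_of_nonneg_left h4 (by positivity)
        _ ≤ 2 ^ s * ((s.factorial : ℝ) * (|A| / w ^ K)) := by gcongr
        _ ≤ 2 ^ K * ((K.factorial : ℝ) * (|A| / w ^ K)) := by gcongr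
        _ = _ := by ring
    have h3 : (Real.sqrt n ^ s * |rr ρ g|) ^ 2 = (n : ℝ) ^ s * (rr ρ g) ^ 2 := by
      rw [mul_pow, sq_abs, ← pow_mul, mul_comm s 2, pow_mul, Real.sq_sqrt (Nat.cast_nonneg _)]
    have h4 : 0 ≤ Real.sqrt n ^ s * |rr ρ g| := by positivity
    have h5 : (0 : ℝ) ≤ (2 * K + 1) ^ K := by positivity
    nlinarith

theorem hcyc (w A : ℝ) (hw0 : 0 < w) (hw : w < 1) (K n : ℕ) (hn : 2 * K ^ 2 ≤ n) (V : Type)
    [AddCommGroup V] [Module ℂ V] [FiniteDimensional ℂ V]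
    (ρ : Representation ℂ (Perm (Fin n)) V)
    (hA : ∑ g : Perm (Fin n), (rr ρ g) ^ 2 * w ^ g.support.card ≤ A) :
    ∑ j ∈ Finset.Icc 2 K, (xx ρ {j}) ^ 2 / j * w ^ j ≤ 2 * A := by
  classical
  have hfn : ∀ g : Perm (Fin n), 0 ≤ (rr ρ g) ^ 2 * w ^ g.support.card := fun g => by positivity
  have hdis : ((Finset.Icc 2 K : Finset ℕ) : Set ℕ).PairwiseDisjoint
      (fun j => Finset.univ.filter (fun g : Perm (Fin n) => g.cycleType = {j})) := by
    intro i _ j _ hij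
    rw [Function.onFun, Finset.disjoint_left]
    intro g h1 h2
    rw [Finset.mem_filter] at h1 h2
    apply hij
    have := h1.2.symm.trans h2.2
    exact Multiset.singleton_inj.1 this
  have hsum : ∑ j ∈ Finset.Icc 2 K, ∑ g ∈ Finset.univ.filter (fun g : Perm (Fin n) => g.cycleType = {j}),
      (rr ρ g) ^ 2 * w ^ g.support.card ≤ A := by
    rw [← Finset.sum_biUnion hdis]
    exact (Finset.sum_le_univ_sum_of_nonneg hfn).trans hA
  have hterm : ∀ j ∈ Finset.Icc 2 K, (xx ρ {j}) ^ 2 / j * w ^ j ≤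
      2 * ∑ g ∈ Finset.univ.filter (fun g : Perm (Fin n) => g.cycleType = {j}),
        (rr ρ g) ^ 2 * w ^ g.support.card := by
    intro j hj
    rw [Finset.mem_Icc] at hj
    have hjn : j ≤ n := by nlinarith
    have hn0 : 0 < n := by omega
    have h1 : ∀ g ∈ Finset.univ.filter (fun g : Perm (Fin n) => g.cycleType = {j}),
        (rr ρ g) ^ 2 * w ^ g.support.card = (RM ρ {j}) ^ 2 * w ^ j := by
      intro g hg
      rw [Finset.mem_filter] at hg
      rw [rr_eq_RM, hg.2, ← Equiv.Perm.sum_cycleType, hg.2, Multiset.sum_singleton]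
    rw [Finset.sum_congr rfl h1, Finset.sum_const, nsmul_eq_mul]
    -- the number of cycles
    have hcard : ((Finset.univ.filter (fun g : Perm (Fin n) => g.cycleType = {j})).card : ℝ) =
        (n.descFactorial j : ℝ) * (1 / j) := by
      have hL : j - 2 < K := by omega
      have hM : MM (Pi.single (⟨j - 2, hL⟩ : Fin K) 1) = ({j} : Multiset ℕ) := by
        unfold MM
        rw [Finset.sum_eq_single (⟨j - 2, hL⟩ : Fin K)]
        · rw [Pi.single_eq_same, one_nsmul]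
          congr 1
          simp only
          omega
        · intro b _ hb
          rw [Pi.single_eq_of_ne hb, zero_nsmul]
        · intro h
          exact absurd (Finset.mem_univ _) h
      have hS : SS (Pi.single (⟨j - 2, hL⟩ : Fin K) 1) = j := by
        rw [← MM_sum, hM, Multiset.sum_singleton]
      have h2 := card_MM (n := n) (Pi.single (⟨j - 2, hL⟩ : Fin K) 1) (by rw [hS]; exact hjn)
      rw [hM, hS] at h2
      rw [h2, Finset.prod_eq_single (⟨j - 2, hL⟩ : Fin K)]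
      · rw [Pi.single_eq_same, pow_one, Nat.factorial_one, Nat.cast_one, mul_one]
        congr 3
        simp only
        omega
      · intro b _ hb
        rw [Pi.single_eq_of_ne hb]
        simp
      · intro h
        exact absurd (Finset.mem_univ _) h
    rw [hcard]
    have hj0 : (0 : ℝ) < j := by
      have : (2 : ℝ) ≤ j := by exact_mod_cast hj.1
      linarith
    have hxx : (xx ρ {j}) ^ 2 = (n : ℝ) ^ j * (RM ρ {j}) ^ 2 := by
      unfold xx
      rw [Multiset.sum_singleton, mul_pow, ← pow_mul, mul_comm j 2, pow_mul, Real.sq_sqrt (Nat.cast_nonneg _)]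
    have hd : (n : ℝ) ^ j ≤ 2 * (n.descFactorial j : ℝ) := by
      have h3 := desc_ge n j hn0 hjn
      have h4 : (j : ℝ) ^ 2 / n ≤ 1 / 2 := by
        rw [div_le_iff₀ (by exact_mod_cast hn0)]
        have h5 : 2 * j ^ 2 ≤ n := le_trans (Nat.mul_le_mul_left 2 (Nat.pow_le_pow_left hj.2 2)) hn
        have h6 : (2 : ℝ) * (j : ℝ) ^ 2 ≤ n := by exact_mod_cast h5
        linarith
      have h5 : (0 : ℝ) ≤ (n : ℝ) ^ j := by positivity
      nlinarith
    rw [hxx]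
    have h6 : 0 ≤ (RM ρ {j}) ^ 2 * w ^ j / j := by positivity
    calc (n : ℝ) ^ j * (RM ρ {j}) ^ 2 / j * w ^ j = (n : ℝ) ^ j * ((RM ρ {j}) ^ 2 * w ^ j / j) := by ring
      _ ≤ 2 * (n.descFactorial j : ℝ) * ((RM ρ {j}) ^ 2 * w ^ j / j) := mul_le_mul_of_nonneg_right hd h6
      _ = 2 * ((n.descFactorial j : ℝ) * (1 / j) * ((RM ρ {j}) ^ 2 * w ^ j)) := by ring
  calc ∑ j ∈ Finset.Icc 2 K, (xx ρ {j}) ^ 2 / j * w ^ j ≤
      ∑ j ∈ Finset.Icc 2 K, 2 * ∑ g ∈ Finset.univ.filter (fun g : Perm (Fin n) => g.cycleType = {j}),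
        (rr ρ g) ^ 2 * w ^ g.support.card := Finset.sum_le_sum hterm
    _ = 2 * ∑ j ∈ Finset.Icc 2 K, ∑ g ∈ Finset.univ.filter (fun g : Perm (Fin n) => g.cycleType = {j}),
        (rr ρ g) ^ 2 * w ^ g.support.card := by rw [Finset.mul_sum]
    _ ≤ 2 * A := by linarith

private lemma reidx6 (K : ℕ) (hK : 2 ≤ K) (f : ℕ → ℝ) :
    ∑ i : Fin (K - 1), f ((i : ℕ) + 2) = ∑ j ∈ Finset.Icc 2 K, f j := by
  have h1 : Finset.Icc 2 K = Finset.Ico 2 (K + 1) := by
    ext x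
    simp only [Finset.mem_Icc, Finset.mem_Ico]
    omega
  rw [h1, Finset.sum_Ico_eq_sum_range, Fin.sum_univ_eq_sum_range (fun i => f (i + 2))]
  have h2 : K + 1 - 2 = K - 1 := by omega
  rw [h2]
  exact Finset.sum_congr rfl fun i _ => by rw [add_comm]

private lemma geom6 {w : ℝ} (hw0 : 0 < w) (hw : w < 1) (K : ℕ) (hK : 2 ≤ K) :
    ∑ i : Fin (K - 1), w ^ ((i : ℕ) + 2) ≤ 1 / (1 - w) := by
  have h1 : ∑ i : Fin (K - 1), w ^ ((i : ℕ) + 2) = ∑ i ∈ Finset.range (K - 1), w ^ (i + 2) :=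
    Fin.sum_univ_eq_sum_range (fun i => w ^ (i + 2)) (K - 1)
  have h2 : ∑ i ∈ Finset.range (K - 1), w ^ (i + 2) ≤ ∑ i ∈ Finset.range (K - 1), w ^ i :=
    Finset.sum_le_sum fun i _ => pow_le_pow_of_le_one hw0.le hw.le (by omega)
  have h3 : ∑ i ∈ Finset.range (K - 1), w ^ i ≤ 1 / (1 - w) := by
    rw [one_div, ← tsum_geometric_of_lt_one hw0.le hw]
    exact (summable_geometric_of_lt_one hw0.le hw).sum_le_tsum _ (fun i _ => by positivity)
  rw [h1]
  exact h2.trans h3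

theorem main_pos (q w A : ℝ) (hq : 0 < q) (hqw : q < w) (hw : w < 1) (hA : 1 ≤ A) :
    ∃ κ : ℝ, 0 < κ ∧ ∃ N : ℕ, ∀ n ≥ N, ∀ (V W : Type) [AddCommGroup V] [Module ℂ V]
      [FiniteDimensional ℂ V] [AddCommGroup W] [Module ℂ W] [FiniteDimensional ℂ W]
      (ρ : Representation ℂ (Perm (Fin n)) V) [ρ.IsIrreducible]
      (σ : Representation ℂ (Perm (Fin n)) W) [σ.IsIrreducible],
      ∑ g : Perm (Fin n), (rr ρ g) ^ 2 * w ^ g.support.card ≤ A →
      (∀ g : Perm (Fin n), |rr σ g| ≤ q ^ g.support.card) →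
      κ ≤ ∑ g : Perm (Fin n), (rr ρ g) ^ 2 * rr σ g := by
  classical
  have hw0 : 0 < w := hq.trans hqw
  have hq1 : q < 1 := hqw.trans hw
  have hq2 : 0 < 1 - q ^ 2 := by nlinarith
  have h1w : 0 < 1 - w := by linarith
  obtain ⟨c₀, hc₀⟩ : ∃ c : ℝ, c = Real.exp (-(2 * A / (1 - q ^ 2))) := ⟨_, rfl⟩
  have hc₀pos : 0 < c₀ := by rw [hc₀]; exact Real.exp_pos _
  obtain ⟨D, hD⟩ : ∃ D : ℝ, D = Real.exp (2 * A + 1 / (1 - w) * (1 / (1 - w))) := ⟨_, rfl⟩
  have hDpos : 0 < D := by rw [hD]; exact Real.exp_pos _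
  have hqw1 : q / w < 1 := by rw [div_lt_one hw0]; exact hqw
  have hqw0 : 0 < q / w := by positivity
  obtain ⟨K₀, hK₀⟩ := exists_pow_lt_of_lt_one (show 0 < c₀ / 4 / (D + A) by positivity) hqw1
  obtain ⟨K, hKdef⟩ : ∃ K : ℕ, K = K₀ + 2 := ⟨_, rfl⟩
  have hK2 : 2 ≤ K := by omega
  have hKs : (q / w) ^ K * (D + A) ≤ c₀ / 4 := by
    have h1 : (q / w) ^ K ≤ (q / w) ^ K₀ := pow_le_pow_of_le_one hqw0.le hqw1.le (by omega)
    have h2 : (q / w) ^ K ≤ c₀ / 4 / (D + A) := h1.trans hK₀.le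
    rwa [le_div_iff₀ (by positivity)] at h2
  obtain ⟨B, hB⟩ := hsmall w A hw0 hw K
  obtain ⟨C, hC, N, hhead⟩ := head K B
  obtain ⟨N₂, hN₂⟩ := exists_nat_gt ((4 * C / c₀) ^ 2)
  refine ⟨c₀ / 2, by positivity, max (max N (2 * K ^ 2)) (max N₂ 1), ?_⟩
  intro n hn V W _ _ _ _ _ _ ρ _ σ _ hA' hσ
  have hn1 : N ≤ n := ((le_max_left _ _).trans (le_max_left _ _)).trans hn
  have hn2 : 2 * K ^ 2 ≤ n := ((le_max_right _ _).trans (le_max_left _ _)).trans hn
  have hn3 : N₂ ≤ n := ((le_max_left _ _).trans (le_max_right _ _)).trans hn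
  have hn4 : 1 ≤ n := ((le_max_right _ _).trans (le_max_right _ _)).trans hn
  have hKn : K ≤ n := by nlinarith
  have hhd := hhead n hn1 V W ρ σ (hB n V ρ hA')
  have hcyc' := hcyc w A hw0 hw K n hn2 V ρ hA'
  have hCn : C / Real.sqrt n ≤ c₀ / 4 := by
    have hs0 : 0 < Real.sqrt n := Real.sqrt_pos.2 (by exact_mod_cast hn4)
    rw [div_le_iff₀ hs0]
    have h1 : 4 * C / c₀ ≤ Real.sqrt n := by
      apply Real.le_sqrt_of_sq_le
      have : (N₂ : ℝ) ≤ n := by exact_mod_cast hn3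
      linarith
    rw [div_le_iff₀ hc₀pos] at h1
    linarith
  -- the characters of sigma at cycles
  have ht : ∀ i : Fin (K - 1), |RM σ {(i : ℕ) + 2}| ≤ q ^ ((i : ℕ) + 2) := by
    intro i
    have hi := i.isLt
    obtain ⟨g, hg⟩ := exists_cycleType (n := n) (M := {(i : ℕ) + 2})
      (fun a ha => by rw [Multiset.mem_singleton] at ha; omega)
      (by rw [Multiset.sum_singleton]; omega)
    have h1 := hσ g
    rw [rr_eq_RM, hg, ← Equiv.Perm.sum_cycleType, hg, Multiset.sum_singleton] at h1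
    exact h1
  have hqj : ∀ i : Fin (K - 1), q ^ ((i : ℕ) + 2) ≤ q ^ 2 := fun i =>
    pow_le_pow_of_le_one hq.le hq1.le (by omega)
  have htl : ∀ i : Fin (K - 1), |RM σ {(i : ℕ) + 2}| < 1 := fun i =>
    lt_of_le_of_lt ((ht i).trans (hqj i)) (by linarith)
  have hwj0 : ∀ i : Fin (K - 1), 0 < w ^ ((i : ℕ) + 2) := fun i => by positivity
  have hwj1 : ∀ i : Fin (K - 1), w ^ ((i : ℕ) + 2) < 1 := fun i =>
    pow_lt_one₀ hw0.le hw (by omega)
  set y : Fin (K - 1) → ℝ := fun i => (xx ρ {(i : ℕ) + 2}) ^ 2 / (((i : ℕ) + 2 : ℕ) : ℝ) with hy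
  have hy0 : ∀ i, 0 ≤ y i := fun i => by
    rw [hy]
    positivity
  have hyw : ∑ i, y i * w ^ ((i : ℕ) + 2) ≤ 2 * A := by
    have h1 := reidx6 K hK2 (fun j => (xx ρ {j}) ^ 2 / j * w ^ j)
    rw [← h1] at hcyc'
    exact hcyc'
  set S : Fin (K - 1) → ℝ := fun i => Real.exp (y i * (RM σ {(i : ℕ) + 2} / (1 + RM σ {(i : ℕ) + 2}))) /
    Real.sqrt (1 - RM σ {(i : ℕ) + 2} ^ 2) with hSdef
  set T : Fin (K - 1) → ℝ := fun i => Real.exp (y i * (w ^ ((i : ℕ) + 2) / (1 + w ^ ((i : ℕ) + 2)))) /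
    Real.sqrt (1 - (w ^ ((i : ℕ) + 2)) ^ 2) with hTdef
  have hbox := box_trunc (L := K - 1) K (fun i m => aa ((i : ℕ) + 2) m (xx ρ {(i : ℕ) + 2}))
    (fun i m => aa_nonneg _ _ _) (fun i => RM σ {(i : ℕ) + 2}) q w hq hqw hw ht S T
    (fun i => mehler (by omega) _ (htl i))
    (fun i => mehler (by omega) _ (by rw [abs_of_pos (hwj0 i)]; exact hwj1 i))
  -- lower bound of the product
  have hSlow : c₀ ≤ ∏ i, S i := by
    have h1 : ∏ i : Fin (K - 1), Real.exp (-(y i * (|RM σ {(i : ℕ) + 2}| / (1 - |RM σ {(i : ℕ) + 2}|)))) ≤ ∏ i, S i :=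
      Finset.prod_le_prod (fun i _ => (Real.exp_pos _).le) (fun i _ => mehler_lower (by omega) _ (htl i))
    refine le_trans ?_ h1
    rw [← Real.exp_sum, hc₀]
    apply Real.exp_le_exp.2
    rw [Finset.sum_neg_distrib, neg_le_neg_iff]
    have h2 : ∀ i : Fin (K - 1), y i * (|RM σ {(i : ℕ) + 2}| / (1 - |RM σ {(i : ℕ) + 2}|)) ≤
        y i * w ^ ((i : ℕ) + 2) / (1 - q ^ 2) := by
      intro i
      rw [mul_div_assoc]
      refine mul_le_mul_of_nonneg_left ?_ (hy0 i)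
      have h3 : |RM σ {(i : ℕ) + 2}| ≤ w ^ ((i : ℕ) + 2) :=
        (ht i).trans (pow_le_pow_left₀ hq.le hqw.le _)
      have h4 : 1 - q ^ 2 ≤ 1 - |RM σ {(i : ℕ) + 2}| := by
        have := (ht i).trans (hqj i)
        linarith
      exact div_le_div₀ (hwj0 i).le h3 hq2 h4
    calc ∑ i, y i * (|RM σ {(i : ℕ) + 2}| / (1 - |RM σ {(i : ℕ) + 2}|)) ≤
        ∑ i, y i * w ^ ((i : ℕ) + 2) / (1 - q ^ 2) := Finset.sum_le_sum fun i _ => h2 i
      _ = (∑ i, y i * w ^ ((i : ℕ) + 2)) / (1 - q ^ 2) := by rw [Finset.sum_div]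
      _ ≤ 2 * A / (1 - q ^ 2) := by gcongr
  have hTup : ∏ i, T i ≤ D := by
    have h1 : ∏ i, T i ≤ ∏ i : Fin (K - 1), Real.exp (y i * w ^ ((i : ℕ) + 2) +
        (w ^ ((i : ℕ) + 2)) ^ 2 / (1 - (w ^ ((i : ℕ) + 2)) ^ 2)) :=
      Finset.prod_le_prod (fun i _ => by rw [hTdef]; positivity)
        (fun i _ => mehler_upper (by omega) _ (hwj0 i).le (hwj1 i))
    refine h1.trans ?_
    rw [← Real.exp_sum, hD]
    apply Real.exp_le_exp.2
    rw [Finset.sum_add_distrib]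
    have h2 : ∀ i : Fin (K - 1), (w ^ ((i : ℕ) + 2)) ^ 2 / (1 - (w ^ ((i : ℕ) + 2)) ^ 2) ≤
        1 / (1 - w) * w ^ ((i : ℕ) + 2) := by
      intro i
      have a0 := hwj0 i
      have a1 := hwj1 i
      have a2 : w ^ ((i : ℕ) + 2) ≤ w := by
        calc w ^ ((i : ℕ) + 2) ≤ w ^ 1 := pow_le_pow_of_le_one hw0.le hw.le (by omega)
          _ = w := pow_one w
      have a3 : 0 < 1 - (w ^ ((i : ℕ) + 2)) ^ 2 := by nlinarith
      rw [div_le_iff₀ a3]
      have a4 : 1 / (1 - w) * w ^ ((i : ℕ) + 2) * (1 - (w ^ ((i : ℕ) + 2)) ^ 2) =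
        w ^ ((i : ℕ) + 2) * ((1 - (w ^ ((i : ℕ) + 2)) ^ 2) / (1 - w)) := by ring
      rw [a4, sq]
      refine mul_le_mul_of_nonneg_left ?_ a0.le
      rw [le_div_iff₀ h1w]
      nlinarith
    have h3 : ∑ i : Fin (K - 1), (w ^ ((i : ℕ) + 2)) ^ 2 / (1 - (w ^ ((i : ℕ) + 2)) ^ 2) ≤
        1 / (1 - w) * (1 / (1 - w)) := by
      refine (Finset.sum_le_sum fun i _ => h2 i).trans ?_
      rw [← Finset.mul_sum]
      exact mul_le_mul_of_nonneg_left (geom6 hw0 hw K hK2) (by positivity)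
    linarith
  -- the tail
  have htail : |∑ g ∈ Finset.univ.filter (fun g : Perm (Fin n) => ¬ g.support.card ≤ K), (rr ρ g) ^ 2 * rr σ g| ≤
      (q / w) ^ K * A := by
    refine (Finset.abs_sum_le_sum_abs _ _).trans ?_
    have h1 : ∀ g ∈ Finset.univ.filter (fun g : Perm (Fin n) => ¬ g.support.card ≤ K),
        |(rr ρ g) ^ 2 * rr σ g| ≤ (q / w) ^ K * ((rr ρ g) ^ 2 * w ^ g.support.card) := by
      intro g hg
      rw [Finset.mem_filter] at hg
      rw [abs_mul, abs_of_nonneg (sq_nonneg _)]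
      have h2 : |rr σ g| ≤ (q / w) ^ K * w ^ g.support.card := by
        refine (hσ g).trans ?_
        have h3 : q ^ g.support.card = (q / w) ^ g.support.card * w ^ g.support.card := by
          rw [← mul_pow, div_mul_cancel₀ _ hw0.ne']
        rw [h3]
        refine mul_le_mul_of_nonneg_right ?_ (by positivity)
        exact pow_le_pow_of_le_one hqw0.le hqw1.le (by omega)
      calc (rr ρ g) ^ 2 * |rr σ g| ≤ (rr ρ g) ^ 2 * ((q / w) ^ K * w ^ g.support.card) :=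
            mul_le_mul_of_nonneg_left h2 (sq_nonneg _)
        _ = _ := by ring
    refine (Finset.sum_le_sum h1).trans ?_
    rw [← Finset.mul_sum]
    refine mul_le_mul_of_nonneg_left ?_ (by positivity)
    refine le_trans ?_ hA'
    exact Finset.sum_le_univ_sum_of_nonneg (fun g => by positivity)
  rw [← Finset.sum_filter_add_sum_filter_not Finset.univ (fun g : Perm (Fin n) => g.support.card ≤ K)]
  have e1 := (abs_le.1 hhd).1
  have e2 := (abs_le.1 hbox).1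
  have e3 := (abs_le.1 htail).1
  have e4 : (q / w) ^ K * ∏ i, T i ≤ (q / w) ^ K * D := mul_le_mul_of_nonneg_left hTup (by positivity)
  have e5 : (q / w) ^ K * (D + A) = (q / w) ^ K * D + (q / w) ^ K * A := by ring
  have e6 : ∑ m ∈ (Fintype.piFinset (fun _ : Fin (K - 1) => Finset.range (K + 1))).filter
            (fun m => SS m ≤ K),
          ∏ i : Fin (K - 1), aa ((i : ℕ) + 2) (m i) (xx ρ {(i : ℕ) + 2}) * RM σ {(i : ℕ) + 2} ^ m i ≥
      ∏ i, S i - (q / w) ^ K * ∏ i, T i := by linarith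
  linarith

end Pool.Agent.Helper70.TU
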