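import Pool.Agent.Helper70.TU.S1
import Pool.Agent.Helper1.TS.AN

/-!
BLOCK TU-S2 (about 120 lines). The sum of `r(g²) q(g)`, in abstract form.

Proof in words (as `square_sum` in `Helper1/TS/AN.lean`). Let `p = q₀ / √w`, so `0 < p < 1` because `q₀ < w < √w`. `C, ϱ` from
`sq_pairs_weight p`. `|∑_g r(g²) q(g)| ≤ ∑_g |r(g²)| q₀^{s(g)} = ∑_h |r(h)| a_h`, `a_h = ∑_{g² = h} q₀^{s(g)}`. Cauchy-Schwarz: the square is
`≤ (∑_h r(h)² w^{s(h)}) (∑_h w^{-s(h)} a_h²) ≤ A ∑_{a² = b²} w^{-s(a²)} q₀^{s(a)+s(b)}`, and `s(a²) ≤ s(a)`, `s(a²) = s(b²) ≤ s(b)`, so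
`w^{-s(a²)} ≤ (1/√w)^{s(a)+s(b)}`. So the square is `≤ A C n! ϱ^n`.
-/

set_option autoImplicit false

open Equiv Pool.Agent.Helper1.TS

namespace Pool.Agent.Helper70.TU

theorem square_sum_w (q₀ w : ℝ) (hq0 : 0 < q₀) (hqw : q₀ < w) (hw : w < 1) :
    ∃ C ϱ : ℝ, 0 < C ∧ 0 < ϱ ∧ ϱ < 1 ∧ ∀ (n : ℕ) (r q : Perm (Fin n) → ℝ) (A : ℝ), 0 ≤ A →
      ∑ g, (r g) ^ 2 * w ^ g.support.card ≤ A →
      (∀ g, |q g| ≤ q₀ ^ g.support.card) →
      (∑ g, r (g ^ 2) * q g) ^ 2 ≤ A * (C * n.factorial * ϱ ^ n) := by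
  classical
  obtain ⟨u, hu0, hu1, huw⟩ : ∃ u : ℝ, 0 < u ∧ u < 1 ∧ u * u = w :=
    ⟨Real.sqrt w, Real.sqrt_pos.2 (hq0.trans hqw), by
      rw [Real.sqrt_lt' one_pos]; simpa using hw, Real.mul_self_sqrt (hq0.trans hqw).le⟩
  have hw0 : 0 < w := hq0.trans hqw
  have hp0 : 0 < q₀ / u := div_pos hq0 hu0
  have hp1 : q₀ / u < 1 := by
    rw [div_lt_one hu0]
    nlinarith
  obtain ⟨C, ϱ, hC, hϱ0, hϱ1, hS⟩ := sq_pairs_weight (q₀ / u) hp0 hp1
  refine ⟨C, ϱ, hC, hϱ0, hϱ1, fun n r q A hA hr hq => ?_⟩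
  set a : Perm (Fin n) → ℝ := fun h =>
    ∑ g ∈ Finset.univ.filter (fun g : Perm (Fin n) => g ^ 2 = h), q₀ ^ g.support.card
    with ha
  have ha0 : ∀ h, 0 ≤ a h := fun h => Finset.sum_nonneg fun g _ => by positivity
  have h1 : |∑ g, r (g ^ 2) * q g| ≤ ∑ h, |r h| * a h := by
    refine (Finset.abs_sum_le_sum_abs _ _).trans ?_
    have h2 : ∑ g : Perm (Fin n), |r (g ^ 2) * q g| ≤
        ∑ g : Perm (Fin n), |r (g ^ 2)| * q₀ ^ g.support.card := by
      refine Finset.sum_le_sum fun g _ => ?_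
      rw [abs_mul]
      exact mul_le_mul_of_nonneg_left (hq g) (abs_nonneg _)
    refine h2.trans (le_of_eq ?_)
    rw [← Finset.sum_fiberwise Finset.univ (fun g : Perm (Fin n) => g ^ 2)]
    refine Finset.sum_congr rfl fun h _ => ?_
    rw [ha]
    simp only
    rw [Finset.mul_sum]
    refine Finset.sum_congr rfl fun g hg => ?_
    rw [(Finset.mem_filter.1 hg).2]
  have h3 : (∑ h, |r h| * a h) ^ 2 ≤ (∑ h, (r h) ^ 2 * w ^ h.support.card) *
      ∑ h, (1 / w) ^ h.support.card * (a h) ^ 2 := by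
    have h4 := Finset.sum_mul_sq_le_sq_mul_sq Finset.univ
      (fun h : Perm (Fin n) => |r h| * u ^ h.support.card)
      (fun h => (1 / u) ^ h.support.card * a h)
    have h5 : ∀ h : Perm (Fin n), |r h| * u ^ h.support.card *
        ((1 / u) ^ h.support.card * a h) = |r h| * a h := by
      intro h
      have h6 : u ^ h.support.card * (1 / u) ^ h.support.card = 1 := by
        rw [← mul_pow, mul_one_div_cancel hu0.ne', one_pow]
      calc _ = |r h| * (u ^ h.support.card * (1 / u) ^ h.support.card) * a h := by ring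
        _ = _ := by rw [h6, mul_one]
    have h7 : ∀ h : Perm (Fin n), (|r h| * u ^ h.support.card) ^ 2 =
        (r h) ^ 2 * w ^ h.support.card := by
      intro h
      rw [mul_pow, sq_abs, ← huw, mul_pow]
      ring
    have h8 : ∀ h : Perm (Fin n), ((1 / u) ^ h.support.card * a h) ^ 2 =
        (1 / w) ^ h.support.card * (a h) ^ 2 := by
      intro h
      have h9 : (1 / w : ℝ) = (1 / u) * (1 / u) := by
        rw [← huw]; field_simp
      rw [mul_pow, h9, mul_pow]
      ring
    simp only [h5, h7, h8] at h4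
    exact h4
  have h10 : ∑ h, (1 / w) ^ h.support.card * (a h) ^ 2 ≤
      ∑ g : Perm (Fin n), ∑ g' : Perm (Fin n), if g ^ 2 = g' ^ 2 then
        (q₀ / u) ^ (g.support.card + g'.support.card) else 0 := by
    have h11 : ∀ h : Perm (Fin n), (1 / w) ^ h.support.card * (a h) ^ 2 ≤
        ∑ g ∈ Finset.univ.filter (fun g : Perm (Fin n) => g ^ 2 = h),
          ∑ g' : Perm (Fin n), if g ^ 2 = g' ^ 2 then
            (q₀ / u) ^ (g.support.card + g'.support.card) else 0 := by
      intro h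
      have h12 : (a h) ^ 2 = ∑ g ∈ Finset.univ.filter (fun g : Perm (Fin n) => g ^ 2 = h),
          ∑ g' ∈ Finset.univ.filter (fun g : Perm (Fin n) => g ^ 2 = h),
            q₀ ^ g.support.card * q₀ ^ g'.support.card := by
        rw [ha]
        simp only
        rw [sq, Finset.sum_mul_sum]
      rw [h12, Finset.mul_sum]
      refine Finset.sum_le_sum fun g hg => ?_
      rw [Finset.mul_sum, ← Finset.sum_filter]
      have hgh := (Finset.mem_filter.1 hg).2
      have h13 : (Finset.univ.filter fun g' : Perm (Fin n) => g ^ 2 = g' ^ 2) =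
          Finset.univ.filter (fun g' : Perm (Fin n) => g' ^ 2 = h) := by
        ext g'
        simp only [Finset.mem_filter, Finset.mem_univ, true_and]
        rw [hgh]
        exact eq_comm
      rw [h13]
      refine Finset.sum_le_sum fun g' hg' => ?_
      have hgh' := (Finset.mem_filter.1 hg').2
      have h14 : 2 * h.support.card ≤ g.support.card + g'.support.card := by
        have h15 : h.support.card ≤ g.support.card := by
          rw [← hgh]
          exact Finset.card_le_card (Equiv.Perm.support_pow_le g 2)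
        have h16 : h.support.card ≤ g'.support.card := by
          rw [← hgh']
          exact Finset.card_le_card (Equiv.Perm.support_pow_le g' 2)
        omega
      have hu2 : 1 ≤ 1 / u := by
        rw [le_div_iff₀ hu0]; linarith
      have h17 : (1 / w) ^ h.support.card ≤ (1 / u) ^ (g.support.card + g'.support.card) := by
        have h9 : (1 / w : ℝ) = (1 / u) ^ 2 := by
          rw [← huw]; field_simp
        calc (1 / w : ℝ) ^ h.support.card = (1 / u) ^ (2 * h.support.card) := by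
              rw [pow_mul, h9]
          _ ≤ (1 / u) ^ (g.support.card + g'.support.card) := pow_le_pow_right₀ hu2 h14
      calc (1 / w) ^ h.support.card * (q₀ ^ g.support.card * q₀ ^ g'.support.card)
          ≤ (1 / u) ^ (g.support.card + g'.support.card) *
            (q₀ ^ g.support.card * q₀ ^ g'.support.card) :=
            mul_le_mul_of_nonneg_right h17 (by positivity)
        _ = (q₀ / u) ^ (g.support.card + g'.support.card) := by
            rw [← pow_add, ← mul_pow]
            congr 1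
            rw [one_div, inv_mul_eq_div]
    refine (Finset.sum_le_sum fun h _ => h11 h).trans (le_of_eq ?_)
    exact Finset.sum_fiberwise Finset.univ (fun g : Perm (Fin n) => g ^ 2)
      (fun g => ∑ g' : Perm (Fin n), if g ^ 2 = g' ^ 2 then
        (q₀ / u) ^ (g.support.card + g'.support.card) else 0)
  have h17 : (∑ g : Perm (Fin n), ∑ g' : Perm (Fin n), if g ^ 2 = g' ^ 2 then
        (q₀ / u) ^ (g.support.card + g'.support.card) else 0) =
      ∑ p : Perm (Fin n) × Perm (Fin n) with p.1 ^ 2 = p.2 ^ 2,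
        (q₀ / u) ^ (p.1.support.card + p.2.support.card) := by
    rw [Finset.sum_filter, Fintype.sum_prod_type]
  rw [h17] at h10
  have h18 := h10.trans (hS n)
  have h19 : 0 ≤ ∑ h, (1 / w) ^ h.support.card * (a h) ^ 2 :=
    Finset.sum_nonneg fun h _ => by positivity
  calc (∑ g, r (g ^ 2) * q g) ^ 2 = |∑ g, r (g ^ 2) * q g| ^ 2 := (sq_abs _).symm
    _ ≤ (∑ h, |r h| * a h) ^ 2 := pow_le_pow_left₀ (abs_nonneg _) h1 2
    _ ≤ _ := h3
    _ ≤ A * ∑ h, (1 / w) ^ h.support.card * (a h) ^ 2 :=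
        mul_le_mul_of_nonneg_right hr h19
    _ ≤ _ := mul_le_mul_of_nonneg_left h18 hA

end Pool.Agent.Helper70.TU
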