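import Pool.Agent.Helper70.TU.Z1
import Pool.Agent.Helper1.TS.CHI

/-!
BLOCK TU-Z2 (about 150 lines). The choice of the character.

Proof in words: a copy of `exists_chi` (`Helper1/TS/CHI.lean`) with other weights. `U i`, `d i = finrank (U i) ≥ 1`, from `exists_family`;
`r i g = rr (U i).ρ g`, `∑ i, d i (r i g)² = n!/cls g`. `F i = ∑_g (r i g)² w^{s(g)}`, so `∑ i, d i F i = n! ∑_g w^{s(g)}/cls g ≤ n! Z₁` (`weight_cls w`);
`Q i = ∑_g (r i g)² = n!/(d i)²` and `∑ i, d i Q i = n! K`, `K` the number of classes, `K u^n ≤ Z₂` (`card_classes_w u`). With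
`A = 4 (Z₁ + Z₂)`: `∑ i, d i (F i + Q i u^n) ≤ n! (Z₁ + Z₂) < A n! = A ∑ i, d i`, so some `i` has `F i + Q i u^n ≤ A`: `F i ≤ A` and
`n! u^n ≤ A (d i)²`.
-/

set_option autoImplicit false

open Module Equiv CategoryTheory Pool.Agent.Helper1.TS

namespace Pool.Agent.Helper70.TU

theorem exists_chi_w (w u : ℝ) (hw0 : 0 < w) (hw : w < 1) (hu0 : 0 < u) (hu : u < 1) :
    ∃ A : ℝ, 1 ≤ A ∧ ∀ n : ℕ, ∃ U : FDRep ℂ (Perm (Fin n)), Simple U ∧
      ∑ g : Perm (Fin n), (rr U.ρ g) ^ 2 * w ^ g.support.card ≤ A ∧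
      (n.factorial : ℝ) * u ^ n ≤ A * (finrank ℂ U : ℝ) ^ 2 := by
  classical
  obtain ⟨Z₁, hZ₁, hz1⟩ := weight_cls w hw0 hw
  obtain ⟨Z₂, hZ₂, hz2⟩ := card_classes_w u hu0 hu
  refine ⟨4 * (Z₁ + Z₂), by linarith, fun n => ?_⟩
  obtain ⟨N, U, hsimple, hsum, hreg⟩ := exists_family (Perm (Fin n))
  have hcard : Fintype.card (Perm (Fin n)) = n.factorial := by
    rw [Fintype.card_perm, Fintype.card_fin]
  have hfac : (0 : ℝ) < n.factorial := by exact_mod_cast n.factorial_pos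
  have c1 : ∀ i g, (U i).character g = ((Representation.character (U i).ρ g).re : ℂ) := fun i g =>
    char_perm_real (U i).ρ g
  have c2 : ∀ i g, (U i).character g⁻¹ = (U i).character g := fun i g => char_perm_inv (U i).ρ g
  have h3 : ∀ g : Perm (Fin n), ∑ i, (finrank ℂ (U i) : ℝ) * (rr (U i).ρ g) ^ 2 =
      (n.factorial : ℝ) * (1 / cls g) := by
    intro g
    have h := hreg g
    have e : ∀ i, (U i).character g * (U i).character g⁻¹ / (finrank ℂ (U i) : ℂ) =
        (((finrank ℂ (U i) : ℝ) * (rr (U i).ρ g) ^ 2 : ℝ) : ℂ) := by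
      intro i
      rw [c2, c1]
      unfold rr
      by_cases h0 : finrank ℂ (U i) = 0
      · simp [h0]
      · have h0' : (finrank ℂ (U i) : ℂ) ≠ 0 := by exact_mod_cast h0
        push_cast
        field_simp
    rw [Finset.sum_congr rfl fun i _ => e i, hcard] at h
    have h' : ((∑ i, (finrank ℂ (U i) : ℝ) * (rr (U i).ρ g) ^ 2 : ℝ) : ℂ) =
        (((n.factorial : ℝ) * (1 / cls g) : ℝ) : ℂ) := by
      push_cast at h ⊢
      rw [h]
      ring
    exact_mod_cast h'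
  set K : ℝ := (Nat.card (ConjClasses (Perm (Fin n))) : ℝ) with hK
  have hK2 : K * u ^ n ≤ Z₂ := hz2 n
  have hun : (0 : ℝ) < u ^ n := pow_pos hu0 n
  set F : Fin N → ℝ := fun i => ∑ g : Perm (Fin n), (rr (U i).ρ g) ^ 2 * w ^ g.support.card with hF
  set Q : Fin N → ℝ := fun i => ∑ g : Perm (Fin n), (rr (U i).ρ g) ^ 2 with hQ
  have hF0 : ∀ i, 0 ≤ F i := fun i => Finset.sum_nonneg fun g _ => by positivity
  have hQ0 : ∀ i, 0 ≤ Q i := fun i => Finset.sum_nonneg fun g _ => by positivity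
  have hSF : ∑ i, (finrank ℂ (U i) : ℝ) * F i ≤ (n.factorial : ℝ) * Z₁ := by
    calc ∑ i, (finrank ℂ (U i) : ℝ) * F i
        = ∑ g : Perm (Fin n),
            (∑ i, (finrank ℂ (U i) : ℝ) * (rr (U i).ρ g) ^ 2) * w ^ g.support.card := by
          simp only [hF, Finset.mul_sum, Finset.sum_mul]
          rw [Finset.sum_comm]
          refine Finset.sum_congr rfl fun g _ => Finset.sum_congr rfl fun i _ => by ring
      _ = (n.factorial : ℝ) * ∑ g : Perm (Fin n), w ^ g.support.card / (cls g : ℝ) := by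
          rw [Finset.mul_sum]
          refine Finset.sum_congr rfl fun g _ => ?_
          rw [h3]
          ring
      _ ≤ _ := mul_le_mul_of_nonneg_left (hz1 n) hfac.le
  have hSQ : ∑ i, (finrank ℂ (U i) : ℝ) * Q i = (n.factorial : ℝ) * K := by
    calc ∑ i, (finrank ℂ (U i) : ℝ) * Q i
        = ∑ g : Perm (Fin n), ∑ i, (finrank ℂ (U i) : ℝ) * (rr (U i).ρ g) ^ 2 := by
          simp only [hQ, Finset.mul_sum]
          rw [Finset.sum_comm]
      _ = ∑ g : Perm (Fin n), (n.factorial : ℝ) * (1 / cls g) :=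
          Finset.sum_congr rfl fun g _ => h3 g
      _ = _ := by rw [← Finset.mul_sum, sum_inv_cls]
  have hSd : ∑ i, (finrank ℂ (U i) : ℝ) = n.factorial := by
    rw [← hcard, ← hsum]
    push_cast
    rfl
  obtain ⟨i, hi⟩ : ∃ i, (finrank ℂ (U i) : ℝ) * (F i + Q i * u ^ n) <
      (finrank ℂ (U i) : ℝ) * (4 * (Z₁ + Z₂)) := by
    by_contra hc
    push Not at hc
    have h4 : ∑ i, (finrank ℂ (U i) : ℝ) * (4 * (Z₁ + Z₂)) ≤
        ∑ i, (finrank ℂ (U i) : ℝ) * (F i + Q i * u ^ n) :=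
      Finset.sum_le_sum fun i _ => hc i
    have h5 : ∑ i, (finrank ℂ (U i) : ℝ) * (F i + Q i * u ^ n) =
        ∑ i, (finrank ℂ (U i) : ℝ) * F i + (∑ i, (finrank ℂ (U i) : ℝ) * Q i) * u ^ n := by
      rw [Finset.sum_mul, ← Finset.sum_add_distrib]
      exact Finset.sum_congr rfl fun i _ => by ring
    rw [h5, hSQ, ← Finset.sum_mul, hSd] at h4
    have h6 : (n.factorial : ℝ) * K * u ^ n ≤ n.factorial * Z₂ := by
      rw [mul_assoc]
      exact mul_le_mul_of_nonneg_left hK2 hfac.le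
    nlinarith [mul_pos hfac (by linarith : (0 : ℝ) < Z₁ + Z₂)]
  have hd0 : (0 : ℝ) < finrank ℂ (U i) := by
    rcases Nat.eq_zero_or_pos (finrank ℂ (U i)) with h | h
    · rw [h] at hi
      simp at hi
    · exact_mod_cast h
  have hi2 : F i + Q i * u ^ n < 4 * (Z₁ + Z₂) := lt_of_mul_lt_mul_left hi hd0.le
  have hQK : 0 ≤ Q i * u ^ n := mul_nonneg (hQ0 i) hun.le
  refine ⟨U i, hsimple i, ?_, ?_⟩
  · change F i ≤ 4 * (Z₁ + Z₂)
    linarith
  · have hQd : (n.factorial : ℝ) = (finrank ℂ (U i) : ℝ) ^ 2 * Q i := by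
      have := hsimple i
      have hne : (Nat.card (Perm (Fin n)) : ℂ) ≠ 0 := by
        rw [Nat.card_eq_fintype_card, hcard]
        exact_mod_cast n.factorial_ne_zero
      let _ : Invertible (Nat.card (Perm (Fin n)) : ℂ) := invertibleOfNonzero hne
      have h4 := FDRep.char_orthonormal (U i) (U i)
      rw [if_pos ⟨Iso.refl _⟩] at h4
      have h5 : ∑ g, (U i).character g * (U i).character g⁻¹ = (n.factorial : ℂ) := by
        have h6 := congrArg (fun z => (Nat.card (Perm (Fin n)) : ℂ) * z) h4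
        rw [mul_inv_cancel_left₀ hne, mul_one, Nat.card_eq_fintype_card, hcard] at h6
        exact h6
      have h7 : ∀ g, (U i).character g * (U i).character g⁻¹ =
          (((finrank ℂ (U i) : ℝ) ^ 2 * (rr (U i).ρ g) ^ 2 : ℝ) : ℂ) := by
        intro g
        have h0' : (finrank ℂ (U i) : ℂ) ≠ 0 := by exact_mod_cast hd0.ne'
        rw [c2, c1]
        unfold rr
        push_cast
        field_simp
      rw [Finset.sum_congr rfl fun g _ => h7 g] at h5
      have h8 : ((∑ g, (finrank ℂ (U i) : ℝ) ^ 2 * (rr (U i).ρ g) ^ 2 : ℝ) : ℂ) =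
          ((n.factorial : ℝ) : ℂ) := by
        push_cast at h5 ⊢
        exact h5
      have h9 : ∑ g, (finrank ℂ (U i) : ℝ) ^ 2 * (rr (U i).ρ g) ^ 2 = (n.factorial : ℝ) := by
        exact_mod_cast h8
      rw [← h9, hQ, Finset.mul_sum]
    rw [hQd]
    have h10 : Q i * u ^ n ≤ 4 * (Z₁ + Z₂) := by linarith [hF0 i]
    have h13 : 0 ≤ (finrank ℂ (U i) : ℝ) ^ 2 := by positivity
    calc (finrank ℂ (U i) : ℝ) ^ 2 * Q i * u ^ n = (Q i * u ^ n) * (finrank ℂ (U i) : ℝ) ^ 2 := by ring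
      _ ≤ _ := mul_le_mul_of_nonneg_right h10 h13

end Pool.Agent.Helper70.TU
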