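import Pool.Agent.Helper70.TU.P7
import Pool.Agent.Helper70.TU.Z2
import Pool.Agent.Helper70.TU.S2
import Pool.Agent.Helper70.TU.M1
import Pool.Agent.Helper70.TU.D1
import Pool.Agent.Helper1.TS.MAIN
import Pool.Agent.Helper1.TS.DEG2

/-!
TU-FIN (helper70): the final theorem.
-/

set_option autoImplicit false

open Module Equiv CategoryTheory Pool.Agent.Helper1.TS

namespace Pool.Agent.Helper70.TU

/-- Both squares of an irreducible representation with good second moments contain all irreducible representations without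
(sign-)invariants of `Sym(k)`, `k ≤ (1 - ε) n`. -/
theorem main_core (ε : ℝ) (hε : 0 < ε) (hε1 : ε < 1) :
    ∃ w u : ℝ, 0 < w ∧ w < 1 ∧ 0 < u ∧ u < 1 ∧ ∀ A : ℝ, 1 ≤ A →
    ∃ N : ℕ, ∀ n ≥ N, ∀ U : FDRep ℂ (Perm (Fin n)), Simple U →
      ∑ g : Perm (Fin n), (rr U.ρ g) ^ 2 * w ^ g.support.card ≤ A →
      (n.factorial : ℝ) * u ^ n ≤ A * (finrank ℂ U : ℝ) ^ 2 →
      ∀ k : ℕ, (k : ℝ) ≤ (1 - ε) * n → ∀ W : FDRep ℂ (Perm (Fin n)), Simple W → Bal W.ρ k →
        (∑ g : Perm (Fin n), ((U.character g ^ 2 + U.character (g ^ 2)) / 2) *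
          W.character g⁻¹) ≠ 0 ∧
        (∑ g : Perm (Fin n), ((U.character g ^ 2 - U.character (g ^ 2)) / 2) *
          W.character g⁻¹) ≠ 0 := by
  obtain ⟨q, hq0, hq1, N₁, hR⟩ := roichman ε hε hε1
  obtain ⟨w, hqw, hw1⟩ := exists_between hq1
  have hw0 : 0 < w := hq0.trans hqw
  obtain ⟨C, ϱ, hC, hϱ0, hϱ1, hSq⟩ := square_sum_w q w hq0 hqw hw1
  obtain ⟨u, hϱu, hu1⟩ := exists_between hϱ1
  have hu0 : 0 < u := hϱ0.trans hϱu
  refine ⟨w, u, hw0, hw1, hu0, hu1, fun A hA1 => ?_⟩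
  have hA0 : 0 < A := by linarith
  obtain ⟨κ, hκ0, N₂, hM⟩ := main_pos q w A hq0 hqw hw1 hA1
  have hlim : ∃ N₃ : ℕ, ∀ n ≥ N₃, A * (A * C) * (ϱ / u) ^ n < κ ^ 2 := by
    have hlt : ϱ / u < 1 := (div_lt_one hu0).2 hϱu
    have hge : 0 ≤ ϱ / u := (div_pos hϱ0 hu0).le
    have ht := (tendsto_pow_atTop_nhds_zero_of_lt_one hge hlt).const_mul (A * (A * C))
    rw [mul_zero] at ht
    have hκ2 : 0 < κ ^ 2 := by positivity
    obtain ⟨N₃, hN₃⟩ := Filter.eventually_atTop.1 (ht.eventually (gt_mem_nhds hκ2))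
    exact ⟨N₃, fun n hn => hN₃ n hn⟩
  obtain ⟨N₃, hN₃⟩ := hlim
  refine ⟨max N₁ (max N₂ N₃), fun n hn U hU hr hd k hk W hW hB => ?_⟩
  have hn1 : N₁ ≤ n := (le_max_left _ _).trans hn
  have hn2 : N₂ ≤ n := ((le_max_left _ _).trans (le_max_right _ _)).trans hn
  have hn3 : N₃ ≤ n := ((le_max_right _ _).trans (le_max_right _ _)).trans hn
  have hirr := irr_of_simple W hW
  have hirrU := irr_of_simple U hU
  have hd0 : 0 < finrank ℂ U := finrank_pos_of_irr U hU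
  have he0 : 0 < finrank ℂ W := finrank_pos_of_irr W hW
  have hq : ∀ g, |rr W.ρ g| ≤ q ^ g.support.card := fun g => hR n hn1 k hk W W.ρ hB g
  have hchar : ∀ X : FDRep ℂ (Perm (Fin n)), 0 < finrank ℂ X → ∀ g, X.character g =
      (((finrank ℂ X : ℝ) * rr X.ρ g : ℝ) : ℂ) := by
    intro X hX g
    have h1 : X.character g = Representation.character X.ρ g := rfl
    have h2 : (finrank ℂ X : ℝ) ≠ 0 := by exact_mod_cast hX.ne'
    rw [h1, char_perm_real X.ρ g]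
    unfold rr
    rw [mul_div_cancel₀ _ h2]
  have hinv : ∀ g, W.character g⁻¹ = W.character g := fun g => char_perm_inv W.ρ g
  set d : ℝ := (finrank ℂ U : ℝ) with hdd
  set e : ℝ := (finrank ℂ W : ℝ) with hee
  have hd1 : 0 < d := by rw [hdd]; exact_mod_cast hd0
  have he1 : 0 < e := by rw [hee]; exact_mod_cast he0
  set S : ℝ := ∑ g, (rr U.ρ g) ^ 2 * rr W.ρ g with hS
  set B : ℝ := ∑ g, rr U.ρ (g ^ 2) * rr W.ρ g with hBB
  have hS1 : κ ≤ S := hM n hn2 U W U.ρ W.ρ hr hq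
  have hB1 : B ^ 2 ≤ A * (C * n.factorial * ϱ ^ n) :=
    hSq n (fun g => rr U.ρ g) (fun g => rr W.ρ g) A hA0.le hr hq
  have hB2 : B ^ 2 < (κ * d) ^ 2 := by
    refine lt_of_le_of_lt hB1 ?_
    have hun : 0 < u ^ n := by positivity
    have h1 : (n.factorial : ℝ) ≤ A * d ^ 2 / u ^ n := by
      rw [le_div_iff₀ hun]; exact hd
    have h2 : A * (C * n.factorial * ϱ ^ n) ≤ A * (C * (A * d ^ 2 / u ^ n) * ϱ ^ n) := by
      have : 0 ≤ ϱ ^ n := by positivity
      gcongr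
    refine lt_of_le_of_lt h2 ?_
    have h3 : A * (C * (A * d ^ 2 / u ^ n) * ϱ ^ n) = (A * (A * C) * (ϱ / u) ^ n) * d ^ 2 := by
      rw [div_pow]
      have hun' : u ^ n ≠ 0 := hun.ne'
      field_simp
    rw [h3, mul_pow]
    exact mul_lt_mul_of_pos_right (hN₃ n hn3) (by positivity)
  have hB3 := abs_lt.1 (abs_lt_of_sq_lt_sq hB2 (by positivity))
  have hsum1 : ∑ g : Perm (Fin n), ((U.character g ^ 2 + U.character (g ^ 2)) / 2) * W.character g⁻¹ =
      (((d ^ 2 * e * S + d * e * B) / 2 : ℝ) : ℂ) := by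
    rw [hS, hBB, Finset.mul_sum, Finset.mul_sum, ← Finset.sum_add_distrib, Finset.sum_div, Complex.ofReal_sum]
    refine Finset.sum_congr rfl fun g _ => ?_
    rw [hinv, hchar U hd0, hchar U hd0, hchar W he0, ← hdd, ← hee]
    push_cast
    ring
  have hsum2 : ∑ g : Perm (Fin n), ((U.character g ^ 2 - U.character (g ^ 2)) / 2) * W.character g⁻¹ =
      (((d ^ 2 * e * S - d * e * B) / 2 : ℝ) : ℂ) := by
    rw [hS, hBB, Finset.mul_sum, Finset.mul_sum, ← Finset.sum_sub_distrib, Finset.sum_div, Complex.ofReal_sum]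
    refine Finset.sum_congr rfl fun g _ => ?_
    rw [hinv, hchar U hd0, hchar U hd0, hchar W he0, ← hdd, ← hee]
    push_cast
    ring
  have hde : 0 < d * e := mul_pos hd1 he1
  have hdS : κ * d ≤ d * S := by nlinarith
  constructor
  · rw [hsum1, Complex.ofReal_ne_zero]
    have h1 : (d ^ 2 * e * S + d * e * B) / 2 = d * e * (d * S + B) / 2 := by ring
    rw [h1]
    have h2 : 0 < d * S + B := by linarith
    positivity
  · rw [hsum2, Complex.ofReal_ne_zero]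
    have h1 : (d ^ 2 * e * S - d * e * B) / 2 = d * e * (d * S - B) / 2 := by ring
    rw [h1]
    have h2 : 0 < d * S - B := by linarith
    positivity

/-- The form with a fixed family of bounds. -/
theorem main_bal_of (ε : ℝ) (hε : 0 < ε) (hε1 : ε < 1) (A : ℝ → ℝ) (hA : ∀ w, 1 ≤ A w) :
    ∃ N : ℕ, ∀ n ≥ N, ∀ U : FDRep ℂ (Perm (Fin n)), Simple U →
      (∀ w : ℝ, 0 < w → w < 1 →
        ∑ g : Perm (Fin n), (rr U.ρ g) ^ 2 * w ^ g.support.card ≤ A w) →
      (∀ u : ℝ, 0 < u → u < 1 → (n.factorial : ℝ) * u ^ n ≤ A u * (finrank ℂ U : ℝ) ^ 2) →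
      ∀ k : ℕ, (k : ℝ) ≤ (1 - ε) * n → ∀ W : FDRep ℂ (Perm (Fin n)), Simple W → Bal W.ρ k →
        (∑ g : Perm (Fin n), ((U.character g ^ 2 + U.character (g ^ 2)) / 2) *
          W.character g⁻¹) ≠ 0 ∧
        (∑ g : Perm (Fin n), ((U.character g ^ 2 - U.character (g ^ 2)) / 2) *
          W.character g⁻¹) ≠ 0 := by
  obtain ⟨w, u, hw0, hw1, hu0, hu1, h⟩ := main_core ε hε hε1
  obtain ⟨N, hN⟩ := h (max (A w) (A u)) ((hA w).trans (le_max_left _ _))
  refine ⟨N, fun n hn U hU hr hd => hN n hn U hU ((hr w hw0 hw1).trans (le_max_left _ _)) ?_⟩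
  refine (hd u hu0 hu1).trans ?_
  exact mul_le_mul_of_nonneg_right (le_max_right _ _) (by positivity)

/-- For every `ε > 0` and all large `n` there is one irreducible representation such that both squares contain all irreducible
representations without (sign-)invariants of `Sym(k)`, `k ≤ (1 - ε) n`. -/
theorem main_bal (ε : ℝ) (hε : 0 < ε) (hε1 : ε < 1) : ∃ N : ℕ, ∀ n ≥ N,
    ∃ U : FDRep ℂ (Perm (Fin n)), Simple U ∧
      ∀ k : ℕ, (k : ℝ) ≤ (1 - ε) * n → ∀ W : FDRep ℂ (Perm (Fin n)), Simple W → Bal W.ρ k →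
        (∑ g : Perm (Fin n), ((U.character g ^ 2 + U.character (g ^ 2)) / 2) *
          W.character g⁻¹) ≠ 0 ∧
        (∑ g : Perm (Fin n), ((U.character g ^ 2 - U.character (g ^ 2)) / 2) *
          W.character g⁻¹) ≠ 0 := by
  obtain ⟨w, u, hw0, hw1, hu0, hu1, h⟩ := main_core ε hε hε1
  obtain ⟨A, hA1, hChi⟩ := exists_chi_w w u hw0 hw1 hu0 hu1
  obtain ⟨N, hN⟩ := h A hA1
  refine ⟨N, fun n hn => ?_⟩
  obtain ⟨U, hU, hr, hd⟩ := hChi n
  exact ⟨U, hU, hN n hn U hU hr hd⟩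

private theorem card_K1 (n : ℕ) (a : ℝ) (ha : ⌈a⌉₊ ≤ n) :
    (Finset.univ.filter (fun i : Fin n => ((i : ℕ) : ℝ) < a)).card = ⌈a⌉₊ := by
  have h1 : (Finset.univ.filter (fun i : Fin n => ((i : ℕ) : ℝ) < a)).map Fin.valEmbedding =
      Finset.range ⌈a⌉₊ := by
    ext j
    rw [Finset.mem_map, Finset.mem_range]
    constructor
    · rintro ⟨i, hi, rfl⟩
      exact Nat.lt_ceil.2 (Finset.mem_filter.1 hi).2
    · intro hj
      exact ⟨⟨j, hj.trans_le ha⟩, Finset.mem_filter.2 ⟨Finset.mem_univ _, Nat.lt_ceil.1 hj⟩, rfl⟩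
  rw [← Finset.card_map Fin.valEmbedding, h1, Finset.card_range]

theorem final (ε : ℝ) (hε : 0 < ε) (hε1 : ε < 1) : ∃ N : ℕ, ∀ n ≥ N,
    ∃ V : FDRep ℂ (Perm (Fin n)), Simple V ∧
      ∀ W : FDRep ℂ (Perm (Fin n)), Simple W →
        ((∀ w : W, w ≠ 0 →
            (∃ g : Perm (Fin n), (∀ i : Fin n, (1 - ε) * n ≤ (i : ℕ) → g i = i) ∧ W.ρ g w ≠ w) ∧
            (∃ g : Perm (Fin n), (∀ i : Fin n, (1 - ε) * n ≤ (i : ℕ) → g i = i) ∧
              W.ρ g w ≠ ((Perm.sign g : ℤ) : ℂ) • w)) ∨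
          (n.factorial : ℝ) ^ ε ≤ finrank ℂ W) →
        (∑ g : Perm (Fin n), ((V.character g ^ 2 + V.character (g ^ 2)) / 2) *
          W.character g⁻¹) ≠ 0 ∧
        (∑ g : Perm (Fin n), ((V.character g ^ 2 - V.character (g ^ 2)) / 2) *
          W.character g⁻¹) ≠ 0 := by
  classical
  obtain ⟨N₀, hN₀⟩ := real_bound_eps ε hε hε1
  obtain ⟨N₁, hN₁⟩ := main_bal (ε / 2) (by linarith) (by linarith)
  obtain ⟨N₂, hN₂⟩ := exists_nat_gt (2 / ε)
  refine ⟨max N₀ (max N₁ N₂), fun n hn => ?_⟩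
  have hn0 : N₀ ≤ n := (le_max_left _ _).trans hn
  have hn1 : N₁ ≤ n := ((le_max_left _ _).trans (le_max_right _ _)).trans hn
  have hn2 : N₂ ≤ n := ((le_max_right _ _).trans (le_max_right _ _)).trans hn
  have hnr : 2 / ε < n := hN₂.trans_le (by exact_mod_cast hn2)
  have hnpos : (0 : ℝ) < n := (by positivity : (0 : ℝ) < 2 / ε).trans hnr
  have hεn : 2 < ε * n := by
    rw [div_lt_iff₀ hε] at hnr
    linarith
  obtain ⟨U, hU, hmain⟩ := hN₁ n hn1
  refine ⟨U, hU, fun W hW halt => ?_⟩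
  set a : ℝ := (1 - ε) * n with ha
  have ha0 : 0 ≤ a := mul_nonneg (by linarith) hnpos.le
  set K₀ : Finset (Fin n) := Finset.univ.filter (fun i : Fin n => ((i : ℕ) : ℝ) < a) with hK₀
  have han : a ≤ n := by
    rw [ha]; nlinarith
  have hcard : K₀.card = ⌈a⌉₊ := card_K1 n a (Nat.ceil_le.2 han)
  have hk1 : a ≤ K₀.card := by
    rw [hcard]
    exact Nat.le_ceil a
  have hk2 : (K₀.card : ℝ) ≤ (1 - ε / 2) * n := by
    rw [hcard]
    have := (Nat.ceil_lt_add_one ha0).le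
    refine this.trans ?_
    rw [ha]; nlinarith
  have hkn : K₀.card ≤ n := by
    rw [hcard]
    exact Nat.ceil_le.2 han
  refine hmain K₀.card hk2 W hW ?_
  rcases halt with halt | halt
  · have hg : ∀ g : Perm (Fin n), (∀ i : Fin n, a ≤ (i : ℕ) → g i = i) → g.support ⊆ K₀ := by
      intro g hg i hi
      refine Finset.mem_filter.2 ⟨Finset.mem_univ _, ?_⟩
      by_contra hcon
      exact (Perm.mem_support.1 hi) (hg i (not_lt.1 hcon))
    refine bal_conj W.ρ K₀ (fun v hv => ?_) (fun v hv => ?_)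
    · by_contra h0
      obtain ⟨⟨g, hg1, hg2⟩, -⟩ := halt v h0
      exact hg2 (hv g (hg g hg1))
    · by_contra h0
      obtain ⟨-, ⟨g, hg1, hg2⟩⟩ := halt v h0
      exact hg2 (hv g (hg g hg1))
  · have hirr := irr_of_simple W hW
    have hb := hN₀ n hn0 K₀.card hkn hk1
    refine bal_conj W.ρ K₀ (fun v hv => ?_) (fun v hv => ?_)
    · by_contra h0
      have := dim_le_of_fixed W.ρ K₀ v h0 (Or.inl hv)
      exact absurd (halt.trans this) (not_le.2 hb)
    · by_contra h0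
      have := dim_le_of_fixed W.ρ K₀ v h0 (Or.inr hv)
      exact absurd (halt.trans this) (not_le.2 hb)

end Pool.Agent.Helper70.TU
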