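import Pool.Agent.Helper1.TS.Defs

/-!
Project TU (MP_22c541_al): both squares of one irreducible character of `S_n` contain all irreducible characters `[μ]` with
`μ_1, μ'_1 ≤ (1 - ε) n`. Definitions.
-/

set_option autoImplicit false

open Module Equiv Pool.Agent.Helper1.TS

namespace Pool.Agent.Helper70.TU

section Perm

variable {n : ℕ} {V : Type*} [AddCommGroup V] [Module ℂ V]

/-- The vectors fixed by all permutations moving only points of `K`. -/
def inv (ρ : Representation ℂ (Perm (Fin n)) V) (K : Finset (Fin n)) : Submodule ℂ V where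
  carrier := {v | ∀ x : Perm (Fin n), x.support ⊆ K → ρ x v = v}
  add_mem' := by
    intro a b ha hb x hx
    rw [map_add, ha x hx, hb x hx]
  zero_mem' := by
    intro x _
    rw [map_zero]
  smul_mem' := by
    intro c v hv x hx
    rw [map_smul, hv x hx]

theorem mem_inv {ρ : Representation ℂ (Perm (Fin n)) V} {K : Finset (Fin n)} {v : V} :
    v ∈ inv ρ K ↔ ∀ x : Perm (Fin n), x.support ⊆ K → ρ x v = v := Iff.rfl

/-- No nonzero vector is fixed by all permutations of a `k`-element set. -/
def NoInv (ρ : Representation ℂ (Perm (Fin n)) V) (k : ℕ) : Prop :=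
  ∀ K : Finset (Fin n), K.card = k → ∀ v : V,
    (∀ x : Perm (Fin n), x.support ⊆ K → ρ x v = v) → v = 0

/-- The twist by the sign. -/
noncomputable def tw (ρ : Representation ℂ (Perm (Fin n)) V) : Representation ℂ (Perm (Fin n)) V where
  toFun g := ((Perm.sign g : ℤ) : ℂ) • ρ g
  map_one' := by simp
  map_mul' := by
    intro a b
    rw [map_mul, map_mul, smul_mul_smul_comm]
    push_cast
    rfl

theorem tw_apply (ρ : Representation ℂ (Perm (Fin n)) V) (g : Perm (Fin n)) (v : V) :
    tw ρ g v = ((Perm.sign g : ℤ) : ℂ) • ρ g v := rfl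

/-- The normalized character as a function of the cycle type (`0` if there is no such permutation). -/
noncomputable def RM (ρ : Representation ℂ (Perm (Fin n)) V) (M : Multiset ℕ) : ℝ := by
  classical
  exact if h : ∃ g : Perm (Fin n), g.cycleType = M then rr ρ h.choose else 0

/-- The scaled normalized character `n ^ (|M| / 2) * r(M)`. -/
noncomputable def xx (ρ : Representation ℂ (Perm (Fin n)) V) (M : Multiset ℕ) : ℝ :=
  Real.sqrt n ^ M.sum * RM ρ M

end Perm

/-- The Hermite polynomials with parameter `k`: `h_{m+2} = x h_{m+1} - k (m+1) h_m`. -/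
noncomputable def hh (k : ℕ) : ℕ → ℝ → ℝ
  | 0, _ => 1
  | 1, x => x
  | (m + 2), x => x * hh k (m + 1) x - k * (m + 1) * hh k m x

/-- The cycle type with `m i` cycles of length `i + 2`. -/
def MM {L : ℕ} (m : Fin L → ℕ) : Multiset ℕ := ∑ i, m i • ({(i : ℕ) + 2} : Multiset ℕ)

/-- Its sum. -/
def SS {L : ℕ} (m : Fin L → ℕ) : ℕ := ∑ i, m i * ((i : ℕ) + 2)

end Pool.Agent.Helper70.TU
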