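import Pool.Agent.Helper70.TU.H1
import Pool.Agent.Helper70.TU.H2

/-!
BLOCK TU-H3 (about 250 lines). The recurrence for the scaled normalized characters.

Hypothesis `hB`: `√n^{s(g)} |r(g)| ≤ B` for all `g` with `s(g) ≤ K` (so `|r(g)| ≤ B √n^{-s(g)}`).

Proof in words. `C, N` depend only on `K, B` (WLOG `B ≥ 1`, `N ≥ 4 K^2`, `N ≥ 1`). `s = M.sum`, `k + s ≤ K ≤ n`. Choose `b` with cycle type `M`
(`exists_cycleType`) and a cycle `a` with cycle type `{k}`. `rr_mul`: `n! r(a) r(b) = ∑_y r(y a y⁻¹ b)`. Split the `y` according to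
`J(y) = supp(y a y⁻¹) ∩ supp b`, `j = |J|` (`supp_conj`):
 (i) `j = 0`: the permutations are disjoint, `cycleType = k ::ₘ M` (`Equiv.Perm.Disjoint.cycleType_mul`), value `RM (k ::ₘ M)`;
     the number of the other `y` is at most `n! k s/n` (`card_overlap_le` with `j = 1`).
 (ii) `(y a y⁻¹)⁻¹ ∈ b.cycleFactorsFinset`: value `RM (M.erase k)` (`cycleType_mul_of_inv_mem`); the number of such `y`: for every
     `f ∈ b.cycleFactorsFinset` with `|supp f| = k` (there are `M.count k` of them, `Equiv.Perm.cycleType_def`/`count`), the number of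
     `y` with `y a y⁻¹ = f⁻¹` is the order of the centralizer of `a`, `= n!/#{k-cycles} = n! k (n-k)!/n!` (`Equiv.Perm.card_of_cycleType`,
     or orbit-stabilizer; the number of `k`-cycles is `n!/((n-k)! k)`), i.e. `n! * k/(n(n-1)...(n-k+1))`.
 (iii) all other `y` with `j ≥ 1`: `h = y a y⁻¹ b` has `s(h) ≥ k + s + 1 - 2j` (`supp_mul_gt`) and `s(h) ≤ k + s ≤ K`, so
     `√n^{k+s} |r(h)| ≤ B √n^{k+s-s(h)} ≤ B √n^{2j-1} = B n^j/√n`; the number of `y` with overlap `≥ j` is at most `2^k (s/n)^j n!`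
     (`card_overlap_le`, `C(k,j) ≤ 2^k`). So the total of these terms, times `√n^{k+s}/n!`, is at most
     `∑_{j=1}^{k} 2^k s^j n^{-j} B n^j/√n ≤ K 2^K K^K B/√n`.
So `√n^{k+s} r(a) r(b) = (1 + O(1/n)) √n^{k+s} RM(k ::ₘ M) + k (M.count k) (n^k/(n)_k) √n^{s-k} RM(M.erase k) + O(1/√n)`; the first error is
`≤ (k s/n) B`, and `|n^k/(n)_k - 1| ≤ C/n`, `√n^{s-k}|RM (M.erase k)| ≤ B` when `k ∈ M` (if `k ∉ M` then the count is `0`). Note
`√n^{k+s} = √n^k √n^s`, so the left side is `xx {k} * xx M`, `xx (k ::ₘ M) = √n^{k+s} RM(..)`, `xx (M.erase k) = √n^{s-k} RM(..)` if `k ∈ M`.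
-/

set_option autoImplicit false

open Module Equiv Pool.Agent.Helper1.TS

namespace Pool.Agent.Helper70.TU

private theorem count_mul_h47 (M : Multiset ℕ) (k : ℕ) : M.count k * k ≤ M.sum := by
  have h := Multiset.le_count_iff_replicate_le.1 (le_refl (M.count k))
  obtain ⟨t, ht⟩ := Multiset.le_iff_exists_add.1 h
  have h2 : M.sum = (Multiset.replicate (M.count k) k).sum + t.sum := by
    rw [← Multiset.sum_add, ← ht]
  rw [Multiset.sum_replicate, smul_eq_mul] at h2
  omega

/-- The number of `y` with `y a y⁻¹ = f⁻¹`, for cycles `a`, `f` of the same length. -/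
private theorem card_conj_h47 {n k : ℕ} {a f : Perm (Fin n)} (ha : a.cycleType = {k})
    (hf : f.cycleType = {k}) :
    (Finset.univ.filter (fun y : Perm (Fin n) => (y * a * y⁻¹)⁻¹ = f)).card =
      (n - k).factorial * k := by
  have := Fintype.ofFinite (Subgroup.centralizer {a})
  have h1 : IsConj a f⁻¹ := by
    rw [Equiv.Perm.isConj_iff_cycleType_eq, Equiv.Perm.cycleType_inv, ha, hf]
  obtain ⟨z, hz⟩ := isConj_iff.1 h1
  have h2 := Equiv.Perm.nat_card_centralizer (g := a)
  rw [ha] at h2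
  simp only [Fintype.card_fin, Multiset.sum_singleton, Multiset.prod_singleton,
    Multiset.toFinset_singleton, Finset.prod_singleton, Multiset.count_singleton_self,
    Nat.factorial_one, mul_one] at h2
  rw [← h2, Nat.card_eq_fintype_card, ← Finset.card_univ]
  symm
  refine Finset.card_bij (fun (x : Subgroup.centralizer {a}) _ => z * x.1) ?_ ?_ ?_
  · intro x _
    rw [Finset.mem_filter]
    refine ⟨Finset.mem_univ _, ?_⟩
    have h3 := Subgroup.mem_centralizer_singleton_iff.1 x.2
    have h4 : z * x.1 * a * (z * x.1)⁻¹ = f⁻¹ := by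
      rw [← hz]
      have : z * x.1 * a = z * a * x.1 := by rw [mul_assoc, h3, mul_assoc]
      rw [this]
      group
    rw [h4, inv_inv]
  · intro x _ y _ hxy
    exact Subtype.ext (mul_left_cancel hxy)
  · intro y hy
    rw [Finset.mem_filter] at hy
    have h3 : y * a * y⁻¹ = z * a * z⁻¹ := by rw [hz, ← hy.2, inv_inv]
    refine ⟨⟨z⁻¹ * y, ?_⟩, Finset.mem_univ _, ?_⟩
    · rw [Subgroup.mem_centralizer_singleton_iff]
      have h4 : y * a = z * a * z⁻¹ * y := by rw [← h3]; group
      rw [mul_assoc, h4]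
      group
    · group

/-- The number of `y` such that `(y a y⁻¹)⁻¹` is a cycle of `b`. -/
private theorem card_F2_h47 {n k : ℕ} {a b : Perm (Fin n)} {M : Multiset ℕ} (ha : a.cycleType = {k})
    (hb : b.cycleType = M) :
    (Finset.univ.filter (fun y : Perm (Fin n) => (y * a * y⁻¹)⁻¹ ∈ b.cycleFactorsFinset)).card =
      M.count k * ((n - k).factorial * k) := by
  classical
  have hac : a.IsCycle := by
    rw [← Equiv.Perm.card_cycleType_eq_one, ha]
    rfl
  have hask : a.support.card = k := by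
    have := Equiv.Perm.sum_cycleType a
    rw [ha, Multiset.sum_singleton] at this
    exact this.symm
  have h1 : (Finset.univ.filter (fun y : Perm (Fin n) => (y * a * y⁻¹)⁻¹ ∈ b.cycleFactorsFinset)) =
      (b.cycleFactorsFinset.filter (fun f => k = f.support.card)).biUnion
        (fun f => Finset.univ.filter (fun y : Perm (Fin n) => (y * a * y⁻¹)⁻¹ = f)) := by
    ext y
    simp only [Finset.mem_filter, Finset.mem_univ, true_and, Finset.mem_biUnion]
    constructor
    · intro h
      refine ⟨_, ⟨h, ?_⟩, rfl⟩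
      rw [Equiv.Perm.support_inv, supp_conj, Finset.card_map, hask]
    · rintro ⟨f, ⟨hf, _⟩, h⟩
      rw [h]
      exact hf
  rw [h1, Finset.card_biUnion]
  · have h2 : ∀ f ∈ b.cycleFactorsFinset.filter (fun f => k = f.support.card),
        (Finset.univ.filter (fun y : Perm (Fin n) => (y * a * y⁻¹)⁻¹ = f)).card =
          (n - k).factorial * k := by
      intro f hf
      rw [Finset.mem_filter] at hf
      have h3 : f.IsCycle := (Equiv.Perm.mem_cycleFactorsFinset_iff.1 hf.1).1
      refine card_conj_h47 ha ?_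
      rw [h3.cycleType, ← hf.2]
    rw [Finset.sum_congr rfl h2, Finset.sum_const, smul_eq_mul]
    congr 1
    rw [← hb, Equiv.Perm.cycleType_def, Multiset.count_map]
    rfl
  · intro f _ g _ hfg
    rw [Function.onFun, Finset.disjoint_left]
    intro y hy hy2
    rw [Finset.mem_filter] at hy hy2
    exact hfg (hy.2.symm.trans hy2.2)

private theorem ratio_h47 {n k : ℕ} (hk : 2 * k ^ 2 ≤ n) (hn : 0 < n) :
    |(n : ℝ) ^ k * (n - k).factorial / n.factorial - 1| ≤ 2 * k ^ 2 / n := by
  have hkn : k ≤ n := by nlinarith [Nat.zero_le k]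
  have hnR : (0 : ℝ) < n := by exact_mod_cast hn
  have h1 : (n.factorial : ℝ) = (n - k).factorial * (n.descFactorial k : ℝ) := by
    exact_mod_cast (Nat.factorial_mul_descFactorial hkn).symm
  have hD : (0 : ℝ) < (n.descFactorial k : ℝ) := by
    have : 0 < n.descFactorial k := Nat.pos_of_ne_zero (by
      rw [Ne, Nat.descFactorial_eq_zero_iff_lt]
      omega)
    exact_mod_cast this
  have hF : (0 : ℝ) < ((n - k).factorial : ℝ) := by exact_mod_cast Nat.factorial_pos _
  have h2 : (n : ℝ) ^ k * (n - k).factorial / n.factorial - 1 =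
      ((n : ℝ) ^ k - n.descFactorial k) / n.descFactorial k := by
    rw [h1]
    field_simp
  have h3 : (n.descFactorial k : ℝ) ≤ (n : ℝ) ^ k := by exact_mod_cast Nat.descFactorial_le_pow n k
  have h4 : (n : ℝ) ^ k * (1 - (k : ℝ) ^ 2 / n) ≤ (n.descFactorial k : ℝ) := by
    have h5 : ((n - k : ℕ) : ℝ) ^ k ≤ (n.descFactorial k : ℝ) := by
      have h6 : (n - k) ^ k ≤ (n + 1 - k) ^ k := Nat.pow_le_pow_left (by omega) k
      exact_mod_cast h6.trans (Nat.pow_sub_le_descFactorial n k)
    refine le_trans ?_ h5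
    rw [Nat.cast_sub hkn]
    have h7 : (n : ℝ) - k = n * (1 + -(k / n : ℝ)) := by
      field_simp
      ring
    rw [h7, mul_pow]
    refine mul_le_mul_of_nonneg_left ?_ (by positivity)
    have h8 : (-2 : ℝ) ≤ -(k / n : ℝ) := by
      have : (k : ℝ) / n ≤ 1 := by
        rw [div_le_one hnR]
        exact_mod_cast hkn
      linarith
    have h9 := one_add_mul_le_pow h8 k
    refine le_trans (le_of_eq ?_) h9
    ring
  have ht : (k : ℝ) ^ 2 / n ≤ 1 / 2 := by
    rw [div_le_div_iff₀ hnR (by norm_num)]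
    have : (2 : ℝ) * (k : ℝ) ^ 2 ≤ n := by exact_mod_cast hk
    linarith
  have hP : (0 : ℝ) < (n : ℝ) ^ k := by positivity
  have ht0 : (0 : ℝ) ≤ (k : ℝ) ^ 2 / n := by positivity
  rw [h2, abs_of_nonneg (div_nonneg (by linarith) hD.le), div_le_iff₀ hD]
  have h10 : (n : ℝ) ^ k / 2 ≤ (n.descFactorial k : ℝ) := by
    refine le_trans ?_ h4
    nlinarith
  have h11 : (n : ℝ) ^ k - n.descFactorial k ≤ (n : ℝ) ^ k * ((k : ℝ) ^ 2 / n) := by linarith
  refine h11.trans ?_
  have h12 : 2 * (k : ℝ) ^ 2 / n = 2 * ((k : ℝ) ^ 2 / n) := by ring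
  rw [h12]
  nlinarith

section PW

variable {n : ℕ} {V : Type} [AddCommGroup V] [Module ℂ V] [FiniteDimensional ℂ V]

open Classical in
private theorem pointwise_h47 (ρ : Representation ℂ (Perm (Fin n)) V) {K k : ℕ} {B : ℝ}
    (hn : 1 ≤ n) (hB0 : 0 ≤ B)
    (hB : ∀ g : Perm (Fin n), g.support.card ≤ K → Real.sqrt n ^ g.support.card * |rr ρ g| ≤ B)
    {a b : Perm (Fin n)} {M : Multiset ℕ} (ha : a.cycleType = {k}) (hb : b.cycleType = M)
    (hk : 2 ≤ k) (hK : k + M.sum ≤ K) (y : Perm (Fin n)) :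
    Real.sqrt n ^ (k + M.sum) * |rr ρ (y * a * y⁻¹ * b) -
      (if 1 ≤ ((a.support.map y.toEmbedding) ∩ b.support).card then 0 else RM ρ (k ::ₘ M)) -
      (if (y * a * y⁻¹)⁻¹ ∈ b.cycleFactorsFinset then RM ρ (M.erase k) else 0)| ≤
    ∑ i ∈ Finset.range (k + 1), (if i ≤ ((a.support.map y.toEmbedding) ∩ b.support).card then
      B * n ^ i / Real.sqrt n else 0) := by
  have hac : a.IsCycle := by
    rw [← Equiv.Perm.card_cycleType_eq_one, ha]
    rfl
  have hask : a.support.card = k := by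
    have := Equiv.Perm.sum_cycleType a
    rw [ha, Multiset.sum_singleton] at this
    exact this.symm
  have hbs : b.support.card = M.sum := by rw [← hb, Equiv.Perm.sum_cycleType]
  have hsc := supp_conj a y
  have hcc : (y * a * y⁻¹).IsCycle := hac.conj
  have hcs : (y * a * y⁻¹).support.card = k := by rw [hsc, Finset.card_map, hask]
  have hX : (1 : ℝ) ≤ Real.sqrt n := by
    rw [Real.one_le_sqrt]
    exact_mod_cast hn
  have hX0 : (0 : ℝ) < Real.sqrt n := by linarith
  have hXX : Real.sqrt n * Real.sqrt n = n := Real.mul_self_sqrt (Nat.cast_nonneg n)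
  have hpos : ∀ i ∈ Finset.range (k + 1), (0 : ℝ) ≤ (if i ≤ ((a.support.map y.toEmbedding) ∩ b.support).card then
      B * n ^ i / Real.sqrt n else 0) := by
    intro i _
    split_ifs
    · positivity
    · exact le_refl _
  have hsum0 := Finset.sum_nonneg hpos
  by_cases hF2 : (y * a * y⁻¹)⁻¹ ∈ b.cycleFactorsFinset
  · have hJ : 1 ≤ ((a.support.map y.toEmbedding) ∩ b.support).card := by
      have h1 := Equiv.Perm.mem_cycleFactorsFinset_support_le hF2
      rw [Equiv.Perm.support_inv, hsc] at h1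
      rw [Finset.inter_eq_left.2 h1, Finset.card_map, hask]
      omega
    rw [if_pos hF2, if_pos hJ]
    have h2 := cycleType_mul_of_inv_mem _ _ hF2
    rw [hcs, hb] at h2
    rw [rr_eq_RM, h2]
    simpa using hsum0
  · rw [if_neg hF2]
    by_cases hJ : 1 ≤ ((a.support.map y.toEmbedding) ∩ b.support).card
    · rw [if_pos hJ, sub_zero, sub_zero]
      have hne : ((y * a * y⁻¹).support ∩ b.support).Nonempty := by
        rw [hsc]
        exact Finset.card_pos.1 hJ
      have h1 := supp_mul_gt _ _ hcc hne hF2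
      rw [hcs, hbs, hsc] at h1
      have h2 : (y * a * y⁻¹ * b).support.card ≤ k + M.sum := by
        have h3 := Finset.card_le_card (Equiv.Perm.support_mul_le (y * a * y⁻¹) b)
        have h4 := Finset.card_union_le (y * a * y⁻¹).support b.support
        rw [hcs, hbs] at h4
        exact h3.trans h4
      have h5 := hB _ (h2.trans hK)
      set j := ((a.support.map y.toEmbedding) ∩ b.support).card with hj
      have hjk : j ≤ k := by
        have := Finset.card_le_card (Finset.inter_subset_left (s₁ := a.support.map y.toEmbedding) (s₂ := b.support))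
        rw [Finset.card_map, hask] at this
        exact this
      set t := (y * a * y⁻¹ * b).support.card with ht
      have h6 : Real.sqrt n ^ (k + M.sum) * |rr ρ (y * a * y⁻¹ * b)| ≤ B * n ^ j / Real.sqrt n := by
        have h7 : k + M.sum = t + (k + M.sum - t) := by omega
        have h8 : Real.sqrt n ^ (k + M.sum - t) ≤ Real.sqrt n ^ (2 * j - 1) :=
          pow_le_pow_right₀ hX (by omega)
        have h9 : Real.sqrt n ^ (2 * j - 1) = n ^ j / Real.sqrt n := by
          rw [eq_div_iff hX0.ne', ← pow_succ]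
          have : 2 * j - 1 + 1 = 2 * j := by omega
          rw [this, pow_mul, pow_two, hXX]
        rw [h7, pow_add]
        calc Real.sqrt n ^ t * Real.sqrt n ^ (k + M.sum - t) * |rr ρ (y * a * y⁻¹ * b)|
            = (Real.sqrt n ^ t * |rr ρ (y * a * y⁻¹ * b)|) * Real.sqrt n ^ (k + M.sum - t) := by ring
          _ ≤ B * Real.sqrt n ^ (2 * j - 1) :=
              mul_le_mul h5 h8 (by positivity) hB0
          _ = B * n ^ j / Real.sqrt n := by rw [h9, mul_div_assoc]
      refine h6.trans ?_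
      have h10 := Finset.single_le_sum hpos (Finset.mem_range.2 (Nat.lt_succ_of_le hjk))
      rw [if_pos (le_refl _)] at h10
      exact h10
    · rw [if_neg hJ]
      have hdis : (y * a * y⁻¹).Disjoint b := by
        rw [Equiv.Perm.disjoint_iff_disjoint_support, Finset.disjoint_iff_inter_eq_empty, hsc]
        exact Finset.card_eq_zero.1 (by omega)
      have h1 := hdis.cycleType_mul
      rw [Equiv.Perm.cycleType_conj, ha, hb, Multiset.singleton_add] at h1
      rw [rr_eq_RM, h1]
      simpa using hsum0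

private theorem xx_le_h47 (ρ : Representation ℂ (Perm (Fin n)) V) {K : ℕ} {B : ℝ}
    (hB : ∀ g : Perm (Fin n), g.support.card ≤ K → Real.sqrt n ^ g.support.card * |rr ρ g| ≤ B)
    {M : Multiset ℕ} (h2 : ∀ a ∈ M, 2 ≤ a) (hn : M.sum ≤ n) (hK : M.sum ≤ K) : |xx ρ M| ≤ B := by
  obtain ⟨g, hg⟩ := exists_cycleType h2 hn
  have h1 : g.support.card = M.sum := by rw [← hg, Equiv.Perm.sum_cycleType]
  have h3 := hB g (by omega)
  rw [h1, rr_eq_RM, hg] at h3
  rw [xx, abs_mul, abs_of_nonneg (by positivity)]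
  exact h3

open Classical in
private theorem summed_h47 (ρ : Representation ℂ (Perm (Fin n)) V) [ρ.IsIrreducible] {K k : ℕ} {B : ℝ}
    (hn : 1 ≤ n) (hB0 : 0 ≤ B)
    (hB : ∀ g : Perm (Fin n), g.support.card ≤ K → Real.sqrt n ^ g.support.card * |rr ρ g| ≤ B)
    {a b : Perm (Fin n)} {M : Multiset ℕ} (ha : a.cycleType = {k}) (hb : b.cycleType = M)
    (hk : 2 ≤ k) (hK : k + M.sum ≤ K) :
    ∃ δ : ℝ, 0 ≤ δ ∧ δ ≤ k * M.sum / n ∧
    |xx ρ {k} * xx ρ M - (1 - δ) * xx ρ (k ::ₘ M) -
      (M.count k * ((n - k).factorial * k) / n.factorial) * (Real.sqrt n ^ (k + M.sum) * RM ρ (M.erase k))| ≤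
      B * (M.sum + 1) ^ k / Real.sqrt n := by
  have hask : a.support.card = k := by
    have := Equiv.Perm.sum_cycleType a
    rw [ha, Multiset.sum_singleton] at this
    exact this.symm
  have hbs : b.support.card = M.sum := by rw [← hb, Equiv.Perm.sum_cycleType]
  have hF : (0 : ℝ) < (n.factorial : ℝ) := by exact_mod_cast Nat.factorial_pos _
  have hnR : (0 : ℝ) < n := by exact_mod_cast hn
  have hX0 : (0 : ℝ) < Real.sqrt n := Real.sqrt_pos.2 hnR
  set S0 : Finset (Perm (Fin n)) :=
    Finset.univ.filter (fun y : Perm (Fin n) => 1 ≤ ((a.support.map y.toEmbedding) ∩ b.support).card) with hS0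
  refine ⟨(S0.card : ℝ) / n.factorial, by positivity, ?_, ?_⟩
  · rw [div_le_iff₀ hF]
    have h1 := card_overlap_le a.support b.support 1
    rw [hask, hbs, Nat.choose_one_right, pow_one] at h1
    refine h1.trans (le_of_eq ?_)
    ring
  · have h1 := Finset.sum_le_sum (fun y (_ : y ∈ (Finset.univ : Finset (Perm (Fin n)))) =>
      pointwise_h47 ρ hn hB0 hB ha hb hk hK y)
    rw [Finset.sum_comm] at h1
    have h2 : ∑ i ∈ Finset.range (k + 1), ∑ y : Perm (Fin n),
        (if i ≤ ((a.support.map y.toEmbedding) ∩ b.support).card then B * (n : ℝ) ^ i / Real.sqrt n else 0) ≤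
        n.factorial * (B * (M.sum + 1) ^ k / Real.sqrt n) := by
      have h3 : ∀ i ∈ Finset.range (k + 1), ∑ y : Perm (Fin n),
          (if i ≤ ((a.support.map y.toEmbedding) ∩ b.support).card then B * (n : ℝ) ^ i / Real.sqrt n else 0) ≤
          n.factorial * (B / Real.sqrt n) * ((M.sum : ℝ) ^ i * 1 ^ (k - i) * (k.choose i)) := by
        intro i _
        rw [← Finset.sum_filter, Finset.sum_const, nsmul_eq_mul]
        have h4 := card_overlap_le a.support b.support i
        rw [hask, hbs] at h4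
        have h5 : (0 : ℝ) ≤ B * (n : ℝ) ^ i / Real.sqrt n := by positivity
        refine (mul_le_mul_of_nonneg_right h4 h5).trans (le_of_eq ?_)
        rw [div_pow, one_pow]
        field_simp
      refine (Finset.sum_le_sum h3).trans (le_of_eq ?_)
      rw [← Finset.mul_sum, ← add_pow]
      ring
    have h3 := h1.trans h2
    rw [← Finset.mul_sum] at h3
    have h4 := Finset.abs_sum_le_sum_abs (fun y : Perm (Fin n) => rr ρ (y * a * y⁻¹ * b) -
      (if 1 ≤ ((a.support.map y.toEmbedding) ∩ b.support).card then 0 else RM ρ (k ::ₘ M)) -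
      (if (y * a * y⁻¹)⁻¹ ∈ b.cycleFactorsFinset then RM ρ (M.erase k) else 0)) Finset.univ
    have h5 : ∑ y : Perm (Fin n), (rr ρ (y * a * y⁻¹ * b) -
      (if 1 ≤ ((a.support.map y.toEmbedding) ∩ b.support).card then 0 else RM ρ (k ::ₘ M)) -
      (if (y * a * y⁻¹)⁻¹ ∈ b.cycleFactorsFinset then RM ρ (M.erase k) else 0)) =
      n.factorial * (rr ρ a * rr ρ b) - (n.factorial - S0.card) * RM ρ (k ::ₘ M) -
        (M.count k * ((n - k).factorial * k)) * RM ρ (M.erase k) := by
      rw [Finset.sum_sub_distrib, Finset.sum_sub_distrib, ← rr_mul, ← Finset.sum_filter, Finset.sum_const,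
        nsmul_eq_mul, card_F2_h47 ha hb]
      congr 1
      · congr 1
        have h6 : ∀ y : Perm (Fin n), (if 1 ≤ ((a.support.map y.toEmbedding) ∩ b.support).card then (0 : ℝ)
            else RM ρ (k ::ₘ M)) = RM ρ (k ::ₘ M) -
            (if 1 ≤ ((a.support.map y.toEmbedding) ∩ b.support).card then RM ρ (k ::ₘ M) else 0) := by
          intro y
          split_ifs <;> ring
        rw [Finset.sum_congr rfl (fun y _ => h6 y), Finset.sum_sub_distrib, Finset.sum_const, ← Finset.sum_filter,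
          Finset.sum_const, nsmul_eq_mul, nsmul_eq_mul, Finset.card_univ, Fintype.card_perm, Fintype.card_fin]
        ring
      · push_cast
        ring
    rw [h5] at h4
    have h6 := (mul_le_mul_of_nonneg_left h4 (show (0 : ℝ) ≤ Real.sqrt n ^ (k + M.sum) by positivity)).trans h3
    have h7 : xx ρ {k} * xx ρ M - (1 - (S0.card : ℝ) / n.factorial) * xx ρ (k ::ₘ M) -
      (M.count k * ((n - k).factorial * k) / n.factorial) * (Real.sqrt n ^ (k + M.sum) * RM ρ (M.erase k)) =
      Real.sqrt n ^ (k + M.sum) * (n.factorial * (rr ρ a * rr ρ b) - (n.factorial - S0.card) * RM ρ (k ::ₘ M) -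
        (M.count k * ((n - k).factorial * k)) * RM ρ (M.erase k)) / n.factorial := by
      rw [rr_eq_RM ρ a, rr_eq_RM ρ b, ha, hb, xx, xx, xx, Multiset.sum_singleton, Multiset.sum_cons, pow_add]
      field_simp
    rw [h7, abs_div, abs_of_pos hF, div_le_iff₀ hF, abs_mul, abs_of_nonneg (show (0 : ℝ) ≤ Real.sqrt n ^ (k + M.sum) by positivity)]
    refine h6.trans (le_of_eq ?_)
    ring

end PW

theorem recur (K : ℕ) (B : ℝ) :
    ∃ C : ℝ, 0 < C ∧ ∃ N : ℕ, ∀ n ≥ N, ∀ (V : Type) [AddCommGroup V] [Module ℂ V]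
      [FiniteDimensional ℂ V] (ρ : Representation ℂ (Perm (Fin n)) V) [ρ.IsIrreducible],
      (∀ g : Perm (Fin n), g.support.card ≤ K → Real.sqrt n ^ g.support.card * |rr ρ g| ≤ B) →
      ∀ (k : ℕ) (M : Multiset ℕ), 2 ≤ k → (∀ a ∈ M, 2 ≤ a) → k + M.sum ≤ K →
        |xx ρ {k} * xx ρ M - xx ρ (k ::ₘ M) - k * (M.count k) * xx ρ (M.erase k)| ≤
          C / Real.sqrt n := by
  refine ⟨|B| * ((K : ℝ) ^ 2 + 2 * K ^ 3 + (K + 1) ^ K) + 1, by positivity, 4 * K ^ 2 + K + 1, ?_⟩
  intro n hn V _ _ _ ρ _ hB k M hk hM hK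
  have hKn : K ≤ n := by
    have := Nat.zero_le (4 * K ^ 2)
    omega
  have hn1 : 1 ≤ n := by
    have := Nat.zero_le (4 * K ^ 2)
    omega
  have hB0 : 0 ≤ B := by
    have h1 := hB 1 (by simp)
    rw [Equiv.Perm.support_one, Finset.card_empty, pow_zero, one_mul] at h1
    exact (abs_nonneg _).trans h1
  obtain ⟨b, hb⟩ := exists_cycleType (n := n) hM (by omega)
  obtain ⟨a, ha⟩ := exists_cycleType (n := n) (M := {k}) (by simpa using hk)
    (by rw [Multiset.sum_singleton]; omega)
  obtain ⟨δ, hδ0, hδ, h1⟩ := summed_h47 ρ hn1 hB0 hB ha hb hk hK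
  have hnR : (0 : ℝ) < n := by exact_mod_cast hn1
  have hX : (1 : ℝ) ≤ Real.sqrt n := by
    rw [Real.one_le_sqrt]
    exact_mod_cast hn1
  have hX0 : (0 : ℝ) < Real.sqrt n := by linarith
  have hXX : Real.sqrt n * Real.sqrt n = n := Real.mul_self_sqrt (Nat.cast_nonneg n)
  have hdiv : ∀ c : ℝ, 0 ≤ c → c / n ≤ c / Real.sqrt n := by
    intro c hc
    refine div_le_div_of_nonneg_left hc hX0 ?_
    nlinarith
  have hkK : (k : ℝ) ≤ K := by
    have : k ≤ K := by omega
    exact_mod_cast this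
  have hsK : (M.sum : ℝ) ≤ K := by
    have : M.sum ≤ K := by omega
    exact_mod_cast this
  have hk0 : (0 : ℝ) ≤ k := Nat.cast_nonneg k
  have hs0 : (0 : ℝ) ≤ (M.sum : ℝ) := Nat.cast_nonneg _
  have hM2 : ∀ a ∈ (k ::ₘ M), 2 ≤ a := by
    intro c hc
    rcases Multiset.mem_cons.1 hc with rfl | hc
    · exact hk
    · exact hM c hc
  have hx2 : |xx ρ (k ::ₘ M)| ≤ B :=
    xx_le_h47 ρ hB hM2 (by rw [Multiset.sum_cons]; omega) (by rw [Multiset.sum_cons]; omega)
  -- first error
  have e1 : |δ * xx ρ (k ::ₘ M)| ≤ B * K ^ 2 / Real.sqrt n := by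
    rw [abs_mul, abs_of_nonneg hδ0]
    calc δ * |xx ρ (k ::ₘ M)| ≤ (k * M.sum / n) * B := mul_le_mul hδ hx2 (abs_nonneg _) (by positivity)
      _ = (B * (k * M.sum)) / n := by ring
      _ ≤ (B * (K * K)) / n := by
          refine div_le_div_of_nonneg_right ?_ hnR.le
          exact mul_le_mul_of_nonneg_left (mul_le_mul hkK hsK hs0 (by positivity)) hB0
      _ ≤ (B * (K * K)) / Real.sqrt n := hdiv _ (by positivity)
      _ = B * K ^ 2 / Real.sqrt n := by ring
  -- second error
  have e2 : |(M.count k * ((n - k).factorial * k) / n.factorial : ℝ) * (Real.sqrt n ^ (k + M.sum) * RM ρ (M.erase k)) -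
      k * (M.count k) * xx ρ (M.erase k)| ≤ B * (2 * K ^ 3) / Real.sqrt n := by
    by_cases hkM : k ∈ M
    · have h2 : M.sum = k + (M.erase k).sum := by
        rw [← Multiset.sum_cons, Multiset.cons_erase hkM]
      have h3 : (M.count k * ((n - k).factorial * k) / n.factorial : ℝ) * (Real.sqrt n ^ (k + M.sum) * RM ρ (M.erase k)) -
          k * (M.count k) * xx ρ (M.erase k) =
          (M.count k * k * xx ρ (M.erase k)) * ((n : ℝ) ^ k * (n - k).factorial / n.factorial - 1) := by
        have h4 : Real.sqrt n ^ (k + M.sum) = (n : ℝ) ^ k * Real.sqrt n ^ (M.erase k).sum := by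
          have h5 : k + M.sum = 2 * k + (M.erase k).sum := by omega
          rw [h5, pow_add, pow_mul, pow_two, hXX]
        rw [h4, xx]
        ring
      have h5 := ratio_h47 (n := n) (k := k) (by
        have h6 : k ≤ K := by omega
        have h7 : k ^ 2 ≤ K ^ 2 := Nat.pow_le_pow_left h6 2
        omega) (by omega)
      have h6 : |xx ρ (M.erase k)| ≤ B :=
        xx_le_h47 ρ hB (fun c hc => hM c (Multiset.mem_of_mem_erase hc)) (by omega) (by omega)
      have h7 : ((M.count k : ℝ)) * k ≤ K := by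
        have := count_mul_h47 M k
        have h8 : M.count k * k ≤ K := by omega
        exact_mod_cast h8
      rw [h3, abs_mul, abs_mul, abs_of_nonneg (show (0 : ℝ) ≤ (M.count k : ℝ) * k by positivity)]
      calc (M.count k : ℝ) * k * |xx ρ (M.erase k)| * |(n : ℝ) ^ k * (n - k).factorial / n.factorial - 1|
          ≤ (K * B) * (2 * k ^ 2 / n) :=
            mul_le_mul (mul_le_mul h7 h6 (abs_nonneg _) (by positivity)) h5 (abs_nonneg _) (by positivity)
        _ = (K * B * 2 * k ^ 2) / n := by ring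
        _ ≤ (K * B * 2 * K ^ 2) / n := by
            refine div_le_div_of_nonneg_right ?_ hnR.le
            exact mul_le_mul_of_nonneg_left (pow_le_pow_left₀ hk0 hkK 2) (by positivity)
        _ ≤ (K * B * 2 * K ^ 2) / Real.sqrt n := hdiv _ (by positivity)
        _ = B * (2 * K ^ 3) / Real.sqrt n := by ring
    · rw [Multiset.count_eq_zero_of_notMem hkM]
      simp only [Nat.cast_zero, zero_mul, zero_div, mul_zero, sub_zero, abs_zero]
      positivity
  have e3 : B * ((M.sum : ℝ) + 1) ^ k / Real.sqrt n ≤ B * ((K : ℝ) + 1) ^ K / Real.sqrt n := by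
    refine div_le_div_of_nonneg_right ?_ hX0.le
    refine mul_le_mul_of_nonneg_left ?_ hB0
    calc ((M.sum : ℝ) + 1) ^ k ≤ ((K : ℝ) + 1) ^ k := pow_le_pow_left₀ (by positivity) (by linarith) k
      _ ≤ ((K : ℝ) + 1) ^ K := pow_le_pow_right₀ (by linarith) (by omega)
  have h2 : xx ρ {k} * xx ρ M - xx ρ (k ::ₘ M) - k * (M.count k) * xx ρ (M.erase k) =
      (xx ρ {k} * xx ρ M - (1 - δ) * xx ρ (k ::ₘ M) -
      (M.count k * ((n - k).factorial * k) / n.factorial) * (Real.sqrt n ^ (k + M.sum) * RM ρ (M.erase k))) -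
      δ * xx ρ (k ::ₘ M) +
      ((M.count k * ((n - k).factorial * k) / n.factorial : ℝ) * (Real.sqrt n ^ (k + M.sum) * RM ρ (M.erase k)) -
      k * (M.count k) * xx ρ (M.erase k)) := by ring
  rw [h2, abs_of_nonneg hB0]
  have h3 := abs_add_le ((xx ρ {k} * xx ρ M - (1 - δ) * xx ρ (k ::ₘ M) -
      (M.count k * ((n - k).factorial * k) / n.factorial) * (Real.sqrt n ^ (k + M.sum) * RM ρ (M.erase k))) -
      δ * xx ρ (k ::ₘ M))
      ((M.count k * ((n - k).factorial * k) / n.factorial : ℝ) * (Real.sqrt n ^ (k + M.sum) * RM ρ (M.erase k)) -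
      k * (M.count k) * xx ρ (M.erase k))
  have h4 := abs_sub (xx ρ {k} * xx ρ M - (1 - δ) * xx ρ (k ::ₘ M) -
      (M.count k * ((n - k).factorial * k) / n.factorial) * (Real.sqrt n ^ (k + M.sum) * RM ρ (M.erase k)))
      (δ * xx ρ (k ::ₘ M))
  have h5 : (B * ((K : ℝ) ^ 2 + 2 * K ^ 3 + (K + 1) ^ K) + 1) / Real.sqrt n =
      B * K ^ 2 / Real.sqrt n + B * (2 * K ^ 3) / Real.sqrt n + B * ((K : ℝ) + 1) ^ K / Real.sqrt n +
      1 / Real.sqrt n := by ring
  have h6 : 0 ≤ 1 / Real.sqrt n := by positivity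
  rw [h5]
  linarith

end Pool.Agent.Helper70.TU
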