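import Pool.Agent.Helper70.TU.H3

/-!
BLOCK TU-H4 (about 150 lines). The scaled characters are products of Hermite polynomials up to `O(1/√n)`.

Proof in words. Let `x j = xx ρ {j}`, `P(M) = ∏_{j=2}^{K} hh j (M.count j) (x j)` (for `j` not in `M` the factor is `hh j 0 = 1`). Induction on the
number of parts (strong induction on `M.card`, constants depending on `K, B` only; there are finitely many `M` with parts `≥ 2` and sum `≤ K`, or
the constants can be taken as explicit sequences `C_{c+1} = C' (C_c + C_{c-1} + 1)` in the cardinality `c ≤ K`). `M = 0`: `xx ρ 0 = RM ρ 0 = 1`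
(`RM_zero`), `P(0) = 1`. `M = k ::ₘ M'`: `recur` gives `xx(k ::ₘ M') = x_k xx(M') - k (M'.count k) xx(M'.erase k) + O(1/√n)`; by
induction `xx(M') = P(M') + O`, and if `k ∈ M'`, `xx(M'.erase k) = P(M'.erase k) + O`; `|x_k| ≤ B`. And
`x_k P(M') - k c P(M'.erase k) = P(k ::ₘ M')`, `c = M'.count k`: only the factor `j = k` changes, and `hh k (c+1) x = x hh k c x - k c hh k (c-1) x`
for `c ≥ 1`, `hh k 1 x = x hh k 0 x`.
-/

set_option autoImplicit false

open Module Equiv Pool.Agent.Helper1.TS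

namespace Pool.Agent.Helper70.TU

private theorem hh_succH29 (k c : ℕ) (x : ℝ) :
    hh k (c + 1) x = x * hh k c x - k * c * hh k (c - 1) x := by
  cases c with
  | zero => simp [hh]
  | succ m =>
    show x * hh k (m + 1) x - k * (m + 1) * hh k m x = _
    push_cast
    rfl

private theorem prod_consH29 (K : ℕ) (x : ℕ → ℝ) {k : ℕ} (hk : k ∈ Finset.Icc 2 K) (M : Multiset ℕ) :
    ∏ j ∈ Finset.Icc 2 K, hh j ((k ::ₘ M).count j) (x j) =
      x k * (∏ j ∈ Finset.Icc 2 K, hh j (M.count j) (x j)) -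
        k * (M.count k) * ∏ j ∈ Finset.Icc 2 K, hh j ((M.erase k).count j) (x j) := by
  have h1 : ∀ N : Multiset ℕ, ∏ j ∈ Finset.Icc 2 K, hh j (N.count j) (x j) =
      hh k (N.count k) (x k) * ∏ j ∈ (Finset.Icc 2 K).erase k, hh j (N.count j) (x j) := by
    intro N
    exact (Finset.mul_prod_erase _ _ hk).symm
  have h2 : ∏ j ∈ (Finset.Icc 2 K).erase k, hh j ((k ::ₘ M).count j) (x j) =
      ∏ j ∈ (Finset.Icc 2 K).erase k, hh j (M.count j) (x j) := by
    refine Finset.prod_congr rfl fun j hj => ?_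
    rw [Multiset.count_cons_of_ne (Finset.ne_of_mem_erase hj)]
  have h3 : ∏ j ∈ (Finset.Icc 2 K).erase k, hh j ((M.erase k).count j) (x j) =
      ∏ j ∈ (Finset.Icc 2 K).erase k, hh j (M.count j) (x j) := by
    refine Finset.prod_congr rfl fun j hj => ?_
    rw [Multiset.count_erase_of_ne (Finset.ne_of_mem_erase hj)]
  rw [h1 (k ::ₘ M), h1 M, h1 (M.erase k), h2, h3, Multiset.count_cons_self,
    Multiset.count_erase_self, hh_succH29]
  ring

private theorem indH29 (K : ℕ) (B C₀ : ℝ) (hC₀ : 0 < C₀) (c : ℕ) :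
    ∃ C : ℝ, 0 < C ∧ ∀ (n : ℕ) (X : Multiset ℕ → ℝ), X 0 = 1 →
      (∀ k, 2 ≤ k → k ≤ K → |X {k}| ≤ B) →
      (∀ (k : ℕ) (M : Multiset ℕ), 2 ≤ k → (∀ a ∈ M, 2 ≤ a) → k + M.sum ≤ K →
        |X {k} * X M - X (k ::ₘ M) - k * (M.count k) * X (M.erase k)| ≤ C₀ / Real.sqrt n) →
      ∀ M : Multiset ℕ, M.card ≤ c → (∀ a ∈ M, 2 ≤ a) → M.sum ≤ K →
        |X M - ∏ j ∈ Finset.Icc 2 K, hh j (M.count j) (X {j})| ≤ C / Real.sqrt n := by
  induction c with
  | zero =>
    refine ⟨1, one_pos, fun n X h0 _ _ M hM _ _ => ?_⟩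
    have hM0 : M = 0 := Multiset.card_eq_zero.mp (Nat.le_zero.mp hM)
    subst hM0
    have h1 : ∏ j ∈ Finset.Icc 2 K, hh j ((0 : Multiset ℕ).count j) (X {j}) = 1 := by
      refine Finset.prod_eq_one fun j _ => ?_
      rw [Multiset.count_zero]
      rfl
    rw [h0, h1, sub_self, abs_zero]
    positivity
  | succ c ih =>
    obtain ⟨C, hC, h⟩ := ih
    refine ⟨C + |B| * C + K * K * C + C₀, by positivity, fun n X h0 hX hrec M hM h2 hsum => ?_⟩
    have hs : 0 ≤ 1 / Real.sqrt n := by positivity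
    rcases Multiset.empty_or_exists_mem M with hM0 | ⟨k, hk⟩
    · have h1 := h n X h0 hX hrec M (by rw [hM0]; simp) h2 hsum
      refine h1.trans (div_le_div_of_nonneg_right ?_ (Real.sqrt_nonneg _))
      have : 0 ≤ |B| * C + K * K * C + C₀ := by positivity
      linarith
    · obtain ⟨M', rfl⟩ := Multiset.exists_cons_of_mem hk
      rw [Multiset.card_cons] at hM
      rw [Multiset.sum_cons] at hsum
      have hk2 : 2 ≤ k := h2 k (Multiset.mem_cons_self k M')
      have hkK : k ≤ K := by omega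
      have h2' : ∀ a ∈ M', 2 ≤ a := fun a ha => h2 a (Multiset.mem_cons_of_mem ha)
      have e1 := hrec k M' hk2 h2' hsum
      have e2 := h n X h0 hX hrec M' (by omega) h2' (by omega)
      have hsum3 : (M'.erase k).sum ≤ M'.sum := by
        by_cases hk' : k ∈ M'
        · have := Multiset.sum_erase hk'
          omega
        · rw [Multiset.erase_of_notMem hk']
      have e3 := h n X h0 hX hrec (M'.erase k)
        ((Multiset.card_le_card (Multiset.erase_le k M')).trans (by omega))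
        (fun a ha => h2' a (Multiset.mem_of_mem_erase ha)) (by omega)
      have hcnt : M'.count k ≤ K := by
        have a1 : M'.count k ≤ M'.card := Multiset.count_le_card k M'
        have a2 : M'.card • 2 ≤ M'.sum := Multiset.card_nsmul_le_sum h2'
        rw [smul_eq_mul] at a2
        omega
      have hB := hX k hk2 hkK
      rw [prod_consH29 K (fun j => X {j}) (Finset.mem_Icc.mpr ⟨hk2, hkK⟩) M']
      set P := ∏ j ∈ Finset.Icc 2 K, hh j (M'.count j) (X {j}) with hP
      set Q := ∏ j ∈ Finset.Icc 2 K, hh j ((M'.erase k).count j) (X {j}) with hQ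
      have key : X (k ::ₘ M') - (X {k} * P - k * (M'.count k) * Q) =
          X {k} * (X M' - P) - (k : ℝ) * (M'.count k) * (X (M'.erase k) - Q) -
            (X {k} * X M' - X (k ::ₘ M') - k * (M'.count k) * X (M'.erase k)) := by ring
      rw [key]
      have f1 : |X {k} * (X M' - P)| ≤ |B| * (C / Real.sqrt n) := by
        rw [abs_mul]
        exact mul_le_mul (hB.trans (le_abs_self B)) e2 (abs_nonneg _) (abs_nonneg _)
      have f2 : |(k : ℝ) * (M'.count k) * (X (M'.erase k) - Q)| ≤ K * K * (C / Real.sqrt n) := by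
        rw [abs_mul, abs_mul, Nat.abs_cast, Nat.abs_cast]
        refine mul_le_mul ?_ e3 (abs_nonneg _) (by positivity)
        have a1 : (k : ℝ) ≤ K := by exact_mod_cast hkK
        have a2 : (M'.count k : ℝ) ≤ K := by exact_mod_cast hcnt
        exact mul_le_mul a1 a2 (Nat.cast_nonneg _) (Nat.cast_nonneg _)
      have f3 : |X {k} * (X M' - P) - (k : ℝ) * (M'.count k) * (X (M'.erase k) - Q) -
            (X {k} * X M' - X (k ::ₘ M') - k * (M'.count k) * X (M'.erase k))| ≤
          |X {k} * (X M' - P)| + |(k : ℝ) * (M'.count k) * (X (M'.erase k) - Q)| +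
            |X {k} * X M' - X (k ::ₘ M') - k * (M'.count k) * X (M'.erase k)| :=
        (abs_sub _ _).trans (by gcongr; exact abs_sub _ _)
      have f4 : (C + |B| * C + K * K * C + C₀) / Real.sqrt n =
          C / Real.sqrt n + |B| * (C / Real.sqrt n) + K * K * (C / Real.sqrt n) +
            C₀ / Real.sqrt n := by ring
      rw [f4]
      have f5 : 0 ≤ C / Real.sqrt n := by positivity
      linarith

theorem herm (K : ℕ) (B : ℝ) :
    ∃ C : ℝ, 0 < C ∧ ∃ N : ℕ, ∀ n ≥ N, ∀ (V : Type) [AddCommGroup V] [Module ℂ V]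
      [FiniteDimensional ℂ V] (ρ : Representation ℂ (Perm (Fin n)) V) [ρ.IsIrreducible],
      (∀ g : Perm (Fin n), g.support.card ≤ K → Real.sqrt n ^ g.support.card * |rr ρ g| ≤ B) →
      ∀ M : Multiset ℕ, (∀ a ∈ M, 2 ≤ a) → M.sum ≤ K →
        |xx ρ M - ∏ j ∈ Finset.Icc 2 K, hh j (M.count j) (xx ρ {j})| ≤ C / Real.sqrt n := by
  obtain ⟨C₀, hC₀, N₀, hrec⟩ := recur K B
  obtain ⟨C, hC, h⟩ := indH29 K B C₀ hC₀ K
  refine ⟨C, hC, max N₀ K, fun n hn V _ _ _ ρ _ hB M h2 hsum => ?_⟩
  refine h n (xx ρ) ?_ ?_ (fun k M hk hM hs => hrec n ((le_max_left _ _).trans hn) V ρ hB k M hk hM hs)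
    M ?_ h2 hsum
  · unfold xx
    rw [RM_zero]
    simp
  · intro k hk hkK
    obtain ⟨g, hg⟩ := exists_cycleType (n := n) (M := {k}) (by simpa using hk)
      (by rw [Multiset.sum_singleton]; exact hkK.trans ((le_max_right _ _).trans hn))
    have hsup : g.support.card = k := by
      rw [← Perm.sum_cycleType, hg, Multiset.sum_singleton]
    have h1 := hB g (by rw [hsup]; exact hkK)
    unfold xx
    rw [← hg, ← rr_eq_RM, hg, Multiset.sum_singleton, abs_mul, abs_of_nonneg (by positivity)]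
    rwa [hsup] at h1
  · have a2 : M.card • 2 ≤ M.sum := Multiset.card_nsmul_le_sum h2
    rw [smul_eq_mul] at a2
    omega

end Pool.Agent.Helper70.TU
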