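import Pool.Agent.Helper70.TU.Defs

/-!
BLOCK TU-H8 (about 120 lines). Truncated multiple series.

Proof in words. Let `Box M = piFinset (range (M+1))` and, for `m : Fin L → ℕ`, `f m = ∏ i, a i (m i) * t i ^ m i`,
`g m = ∏ i, a i (m i) * (w^{i+2})^{m i}`. By `Finset.prod_univ_sum`, `∑_{m ∈ Box M} f m = ∏_i ∑_{j ≤ M} a i j t_i^j → ∏_i S i` as `M → ∞`, and similarly
`∑_{m ∈ Box M} g m ≤ ∏_i T i`. For `M ≥ K`: the `m` in `Box M` with `SS m ≤ K` are those of `Box K` with `SS m ≤ K` (as `m i ≤ SS m`), and for `SS m > K`: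
`|f m| ≤ ∏ a i (m i) (q^{i+2})^{m i} = (∏ a) q^{SS m} ≤ (q/w)^{SS m} g m ≤ (q/w)^K g m`. So
`|∑_{m ∈ Box K, SS m ≤ K} f m - ∑_{m ∈ Box M} f m| ≤ (q/w)^K ∏ T i`; let `M → ∞`.
-/

set_option autoImplicit false

namespace Pool.Agent.Helper70.TU

theorem box_trunc {L : ℕ} (K : ℕ) (a : Fin L → ℕ → ℝ) (ha : ∀ i m, 0 ≤ a i m) (t : Fin L → ℝ)
    (q w : ℝ) (hq : 0 < q) (hqw : q < w) (hw : w < 1) (ht : ∀ i, |t i| ≤ q ^ ((i : ℕ) + 2))
    (S T : Fin L → ℝ) (hS : ∀ i, HasSum (fun m => a i m * t i ^ m) (S i))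
    (hT : ∀ i, HasSum (fun m => a i m * (w ^ ((i : ℕ) + 2)) ^ m) (T i)) :
    |∑ m ∈ (Fintype.piFinset (fun _ : Fin L => Finset.range (K + 1))).filter (fun m => SS m ≤ K),
        ∏ i, a i (m i) * t i ^ m i - ∏ i, S i| ≤ (q / w) ^ K * ∏ i, T i := by
  classical
  have hw0 : 0 < w := lt_trans hq hqw
  have hr0 : 0 ≤ q / w := (div_pos hq hw0).le
  have hr1 : q / w ≤ 1 := (div_le_one hw0).2 hqw.le
  set F : (Fin L → ℕ) → ℝ := fun m => ∏ i, a i (m i) * t i ^ m i with hF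
  set G : (Fin L → ℕ) → ℝ := fun m => ∏ i, a i (m i) * (w ^ ((i : ℕ) + 2)) ^ m i with hG
  have hG0 : ∀ m, 0 ≤ G m := fun m => Finset.prod_nonneg fun i _ =>
    mul_nonneg (ha i _) (pow_nonneg (pow_nonneg hw0.le _) _)
  have hFG : ∀ m, |F m| ≤ (q / w) ^ SS m * G m := by
    intro m
    have h1 : (q / w) ^ SS m * G m = ∏ i, a i (m i) * (q ^ ((i : ℕ) + 2)) ^ m i := by
      rw [hG]
      simp only [SS]
      rw [← Finset.prod_pow_eq_pow_sum, ← Finset.prod_mul_distrib]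
      refine Finset.prod_congr rfl fun i _ => ?_
      have h2 : q ^ ((i : ℕ) + 2) = (q / w) ^ ((i : ℕ) + 2) * w ^ ((i : ℕ) + 2) := by
        rw [← mul_pow, div_mul_cancel₀ _ hw0.ne']
      rw [h2, mul_pow, mul_comm (m i), pow_mul]
      ring
    rw [h1, hF, Finset.abs_prod]
    refine Finset.prod_le_prod (fun i _ => abs_nonneg _) fun i _ => ?_
    rw [abs_mul, abs_of_nonneg (ha i _), abs_pow]
    exact mul_le_mul_of_nonneg_left (pow_le_pow_left₀ (abs_nonneg _) (ht i) _) (ha i _)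
  set B : ℕ → Finset (Fin L → ℕ) := fun M => Fintype.piFinset (fun _ : Fin L => Finset.range (M + 1))
    with hB
  have hlim : Filter.Tendsto (fun M : ℕ => ∑ m ∈ B M, F m) Filter.atTop (nhds (∏ i, S i)) := by
    have h1 : (fun M : ℕ => ∑ m ∈ B M, F m) =
        fun M : ℕ => ∏ i, ∑ j ∈ Finset.range (M + 1), a i j * t i ^ j := by
      funext M
      rw [Finset.prod_univ_sum]
    rw [h1]
    refine tendsto_finsetProd _ fun i _ => ?_
    exact ((hS i).tendsto_sum_nat).comp (Filter.tendsto_add_atTop_nat 1)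
  have hT0 : ∀ i, 0 ≤ T i := fun i => (hT i).nonneg fun m =>
    mul_nonneg (ha i _) (pow_nonneg (pow_nonneg hw0.le _) _)
  have hGB : ∀ M : ℕ, ∑ m ∈ B M, G m ≤ ∏ i, T i := by
    intro M
    have h1 : ∑ m ∈ B M, G m = ∏ i, ∑ j ∈ Finset.range (M + 1), a i j * (w ^ ((i : ℕ) + 2)) ^ j := by
      rw [Finset.prod_univ_sum]
    rw [h1]
    refine Finset.prod_le_prod (fun i _ => Finset.sum_nonneg fun j _ =>
      mul_nonneg (ha i _) (pow_nonneg (pow_nonneg hw0.le _) _)) fun i _ => ?_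
    exact sum_le_hasSum _ (fun j _ => mul_nonneg (ha i _) (pow_nonneg (pow_nonneg hw0.le _) _)) (hT i)
  have hmain : ∀ M : ℕ, K ≤ M → |∑ m ∈ (B K).filter (fun m => SS m ≤ K), F m - ∑ m ∈ B M, F m| ≤
      (q / w) ^ K * ∏ i, T i := by
    intro M hM
    have h1 : (B K).filter (fun m => SS m ≤ K) = (B M).filter (fun m => SS m ≤ K) := by
      ext m
      simp only [hB, Finset.mem_filter, Fintype.mem_piFinset, Finset.mem_range]
      constructor
      · rintro ⟨h2, h3⟩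
        exact ⟨fun i => lt_of_lt_of_le (h2 i) (by omega), h3⟩
      · rintro ⟨_, h3⟩
        refine ⟨fun i => ?_, h3⟩
        have h4 : m i * ((i : ℕ) + 2) ≤ SS m :=
          Finset.single_le_sum (f := fun i : Fin L => m i * ((i : ℕ) + 2)) (fun _ _ => Nat.zero_le _)
            (Finset.mem_univ i)
        have h5 : m i ≤ m i * ((i : ℕ) + 2) := Nat.le_mul_of_pos_right _ (by omega)
        omega
    rw [h1, ← Finset.sum_filter_add_sum_filter_not (B M) (fun m => SS m ≤ K) F]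
    rw [sub_add_cancel_left, abs_neg]
    calc |∑ m ∈ (B M).filter (fun m => ¬ SS m ≤ K), F m|
        ≤ ∑ m ∈ (B M).filter (fun m => ¬ SS m ≤ K), |F m| := Finset.abs_sum_le_sum_abs _ _
      _ ≤ ∑ m ∈ (B M).filter (fun m => ¬ SS m ≤ K), (q / w) ^ K * G m := by
          refine Finset.sum_le_sum fun m hm => (hFG m).trans ?_
          refine mul_le_mul_of_nonneg_right ?_ (hG0 m)
          exact pow_le_pow_of_le_one hr0 hr1 (not_le.1 (Finset.mem_filter.1 hm).2).le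
      _ ≤ ∑ m ∈ B M, (q / w) ^ K * G m :=
          Finset.sum_le_sum_of_subset_of_nonneg (Finset.filter_subset _ _) fun m _ _ =>
            mul_nonneg (pow_nonneg hr0 _) (hG0 m)
      _ = (q / w) ^ K * ∑ m ∈ B M, G m := by rw [Finset.mul_sum]
      _ ≤ _ := mul_le_mul_of_nonneg_left (hGB M) (pow_nonneg hr0 _)
  have hlim2 : Filter.Tendsto
      (fun M : ℕ => |∑ m ∈ (B K).filter (fun m => SS m ≤ K), F m - ∑ m ∈ B M, F m|)
      Filter.atTop (nhds |∑ m ∈ (B K).filter (fun m => SS m ≤ K), F m - ∏ i, S i|) :=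
    (tendsto_const_nhds.sub hlim).abs
  exact le_of_tendsto hlim2 (Filter.eventually_atTop.2 ⟨K, hmain⟩)

end Pool.Agent.Helper70.TU
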