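import Pool.Agent.Helper70.TU.Defs
import Pool.Agent.Helper1.TS.JB

/-!
BLOCK TU-P1 (about 120 lines). Contents of a representation of `S_m` without invariants of `Sym(k)`.

Proofs in words.
* `je_le_sub`: copy of the first half of `je_bound` (`Helper1/TS/JB.lean`), which uses only the absence of invariants. If
  `c i > k - 1` then, the contents being integers (`OV.int` for `ov ρ`), `c i = z` with a natural `z ≥ k` (or `k = 0`: then `NoInv ρ 0`
  with `K = ∅` gives `v = 0`, contradiction to `h.1`); `OV.run` gives a joint eigenvector whose first contents are `0, 1, ..., z`, i.e.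
  (`je_up`) a nonzero vector fixed by the adjacent transpositions of the last `z + 1` points, hence (`gen`) by all permutations moving
  only the last `z + 1 > k` points, in particular by those of the last `k` points (`last_card`), so it is `0`.
* `je_le_pos`: `jm ρ i` is a sum of `m - 1 - i` operators of norm one (`exists_unitary`, as in `JE.lean`): `|c i| ‖v‖ ≤ (m-1-i) ‖v‖`.
* `je_sum_le`: `c i ≤ min (k - 1) (m - 1 - i)`; the sum over `i` of the minimum is `k(k-1)/2 + (m-k)(k-1) = (k-1)(2m-k)/2`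
  (`k ≥ 1` because of `v ≠ 0`).
-/

set_option autoImplicit false

open Module Equiv Pool.Agent.Helper1.TS

namespace Pool.Agent.Helper70.TU

variable {m : ℕ} {V : Type*} [AddCommGroup V] [Module ℂ V] [FiniteDimensional ℂ V]

open JBaux in
private theorem le_sub26 (ρ : Representation ℂ (Perm (Fin m)) V) {k : ℕ} (hN : NoInv ρ k)
    {c : Fin m → ℝ} {v : V} (h : IsJE ρ c v) (i : Fin m) (n : ℕ) (hc : c i = (n : ℝ))
    (hkn : k ≤ n) : False := by
  have hS : List.ofFn (fun x : Fin m => c x.rev) ∈ JBaux.SS ρ := ⟨c, v, h, rfl⟩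
  have hmem : c i ∈ List.ofFn (fun x : Fin m => c x.rev) := by
    rw [List.mem_ofFn]
    exact ⟨i.rev, by simp⟩
  rw [hc] at hmem
  obtain ⟨l', hlen, c', w, hw, hl⟩ := (ov ρ).run hS hmem
  rw [List.length_ofFn] at hlen
  have hval : ∀ (t : ℕ) (ht : t ≤ n) (y : Fin m), (y : ℕ) + t + 1 = m → c' y = t := by
    intro t ht y hy
    obtain ⟨hm0, h0⟩ := key _ [] ((List.range (n + 1)).map (fun i : ℕ => (i : ℝ)) ++ l') hl t (by
      rw [List.length_append, List.length_map, List.length_range]; omega)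
    rw [List.getElem_append_left (by rw [List.length_map, List.length_range]; omega)] at h0
    simp only [List.length_nil, List.getElem_map, List.getElem_range] at h0 hm0
    rw [← h0]
    congr 1
    rw [Fin.ext_iff, Fin.val_rev]
    simp only
    omega
  have hfix := gen ρ w 1 (m - k) (fun a b hab ha => by
    simp only [MonoidHom.one_apply, Units.val_one, Int.cast_one, one_smul]
    refine je_up ρ hw a b hab ?_
    have hb := b.2
    rw [hval (m - 1 - a) (by omega) a (by omega), hval (m - 1 - b) (by omega) b (by omega)]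
    have : m - 1 - (a : ℕ) = m - 1 - b + 1 := by omega
    rw [this]
    push_cast
    ring)
  refine hw.1 (hN _ (last_card hkn (by omega)) w fun x hx => ?_)
  have := hfix x (fun y hy => by
    have := hx (Perm.mem_support.2 hy)
    simpa using this)
  simpa using this

private theorem sumid26 (k : ℕ) : ∑ j ∈ Finset.range k, (j : ℝ) = (k : ℝ) * (k - 1) / 2 := by
  induction k with
  | zero => simp
  | succ k ih =>
    rw [Finset.sum_range_succ, ih]
    push_cast
    ring

private theorem sum_min26 (m k : ℕ) (hk : k ≤ m) :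
    ∑ i : Fin m, min ((k : ℝ) - 1) ((m : ℝ) - 1 - (i : ℕ)) = ((k : ℝ) - 1) * (2 * m - k) / 2 := by
  rw [Fin.sum_univ_eq_sum_range (fun i : ℕ => min ((k : ℝ) - 1) ((m : ℝ) - 1 - (i : ℝ))) m]
  rw [← Finset.sum_range_reflect]
  have e1 : ∀ j ∈ Finset.range m, min ((k : ℝ) - 1) ((m : ℝ) - 1 - ((m - 1 - j : ℕ) : ℝ)) =
      min ((k : ℝ) - 1) (j : ℝ) := by
    intro j hj
    rw [Finset.mem_range] at hj
    congr 1
    rw [Nat.cast_sub (by omega), Nat.cast_sub (by omega)]
    push_cast
    ring
  rw [Finset.sum_congr rfl e1]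
  obtain ⟨d, rfl⟩ := Nat.exists_eq_add_of_le hk
  clear e1 hk
  induction d with
  | zero =>
    rw [add_zero]
    have e2 : ∀ j ∈ Finset.range k, min ((k : ℝ) - 1) (j : ℝ) = (j : ℝ) := by
      intro j hj
      rw [Finset.mem_range] at hj
      apply min_eq_right
      have : ((j + 1 : ℕ) : ℝ) ≤ k := by exact_mod_cast hj
      push_cast at this
      linarith
    rw [Finset.sum_congr rfl e2, sumid26 k]
    ring
  | succ d ih =>
    rw [← add_assoc, Finset.sum_range_succ, ih]
    rw [min_eq_left]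
    · push_cast
      ring
    · push_cast
      have : (0 : ℝ) ≤ d := Nat.cast_nonneg _
      linarith

theorem je_le_sub (ρ : Representation ℂ (Perm (Fin m)) V) {k : ℕ} (hN : NoInv ρ k)
    {c : Fin m → ℝ} {v : V} (h : IsJE ρ c v) (i : Fin m) : c i ≤ (k : ℝ) - 1 := by
  by_contra hcon
  rw [not_le] at hcon
  have hS : List.ofFn (fun x : Fin m => c x.rev) ∈ JBaux.SS ρ := ⟨c, v, h, rfl⟩
  have hmem : c i ∈ List.ofFn (fun x : Fin m => c x.rev) := by
    rw [List.mem_ofFn]
    exact ⟨i.rev, by simp⟩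
  obtain ⟨z, hz⟩ := (JBaux.ov ρ).int hS hmem
  rcases Nat.eq_zero_or_pos k with rfl | hk
  · refine h.1 (hN ∅ rfl v fun x hx => ?_)
    rw [Finset.subset_empty, Perm.support_eq_empty_iff] at hx
    rw [hx, map_one, Module.End.one_apply]
  · rw [hz] at hcon
    have h1 : (k : ℤ) - 1 < z := by exact_mod_cast hcon
    obtain ⟨n, rfl⟩ := Int.eq_ofNat_of_zero_le (a := z) (by omega)
    refine le_sub26 ρ hN h i n (by rw [hz]; simp) ?_
    have h2 : (k : ℤ) - 1 < (n : ℤ) := h1
    omega

theorem je_le_pos (ρ : Representation ℂ (Perm (Fin m)) V)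
    {c : Fin m → ℝ} {v : V} (h : IsJE ρ c v) (i : Fin m) : c i ≤ (m : ℝ) - 1 - (i : ℕ) := by
  obtain ⟨e, he⟩ := exists_unitary ρ
  have hv := h.2 i
  have h0 : 0 < ‖e v‖ := norm_pos_iff.2 (fun h0 => h.1 (by simpa using h0))
  have hnorm : ∀ g : Perm (Fin m), ‖e (ρ g v)‖ = ‖e v‖ := by
    intro g
    rw [@norm_eq_sqrt_re_inner ℂ, @norm_eq_sqrt_re_inner ℂ _ _ _ _ (e v), he g v v]
  have h1 : ‖e (jm ρ i v)‖ ≤ ((m : ℝ) - 1 - (i : ℕ)) * ‖e v‖ := by
    unfold jm
    rw [LinearMap.sum_apply, map_sum]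
    refine (norm_sum_le _ _).trans ?_
    rw [Finset.sum_congr rfl (fun j _ => hnorm (Equiv.swap i j)), Finset.sum_const, nsmul_eq_mul]
    apply mul_le_mul_of_nonneg_right _ h0.le
    have e1 : Finset.univ.filter (fun j : Fin m => i < j) = Finset.Ioi i := by
      ext j
      simp
    rw [e1, Fin.card_Ioi, Nat.sub_sub, Nat.cast_sub (by omega)]
    push_cast
    linarith
  rw [hv, map_smul, norm_smul, Complex.norm_real] at h1
  have h2 := le_of_mul_le_mul_right h1 h0
  exact (le_abs_self _).trans h2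

theorem je_sum_le (ρ : Representation ℂ (Perm (Fin m)) V) {k : ℕ} (hN : NoInv ρ k) (hk : k ≤ m)
    {c : Fin m → ℝ} {v : V} (h : IsJE ρ c v) :
    ∑ i, c i ≤ ((k : ℝ) - 1) * (2 * m - k) / 2 := by
  rw [← sum_min26 m k hk]
  exact Finset.sum_le_sum fun i _ => le_min (je_le_sub ρ hN h i) (je_le_pos ρ h i)

end Pool.Agent.Helper70.TU
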