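import Pool.Agent.Helper70.TU.P1

/-!
BLOCK TU-P2 (about 150 lines). The character of a transposition.

Proof in words. `Z = ∑ i, jm ρ i` is the sum of all transpositions, so `tr Z = C(m,2) χ(swap a b)` (all transpositions are conjugate,
`Representation.char_conj`; the transpositions are the `swap i j`, `i < j`, and their number is `m(m-1)/2`). Claim: `re tr Z ≤ B dim V` with
`B = (k-1)(2m-k)/2`. Induction on `dim V` (V arbitrary): `V = 0` clear. Otherwise `Z` is self-adjoint for the unitary structure, or simply: `Z`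
commutes with all `ρ g`, take an eigenvalue `z` of `Z` on `V`, `E = ker (Z - z) ≠ 0` is stable under the group and on the subrepresentation
`E` the operator `Z` is the scalar `z`; `je_exists` for `E` gives a joint eigenvector in `E`, so `z = ∑ c i ≤ B` (`je_sum_le`, `NoInv`
holds for subrepresentations), in particular `z` is real. A stable complement `E'` of `E` exists (Maschke, or the orthogonal
complement by `exists_unitary`), `NoInv` holds for `E'`, and `tr Z = z dim E + tr Z|E'` (`LinearMap.trace_eq_sum_trace_restrict` or the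
characters: `χ_V = χ_E + χ_E'`). Finally `2 B / (m(m-1)) = (k-1)(2m-k)/(m(m-1))`, and
`m(m-1) - (k-1)(2m-k) = (m-k)(m-k+1)`, so `2 B/(m(m-1)) = 1 - (m-k)(m-k+1)/(m(m-1)) ≤ 1 - ((m-k)/m)^2` (`m ≥ 2` because `a ≠ b`).
(`Helper1/TS/M1.lean` contains a similar induction with submodules.)
-/

set_option autoImplicit false

open Module Equiv Pool.Agent.Helper1.TS

namespace Pool.Agent.Helper70.TU

section P2aux

variable {m : ℕ} {V : Type*} [AddCommGroup V] [Module ℂ V]

/-- The sum of all `ρ (swap i j)` over all pairs `(i, j)`. -/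
private noncomputable def ww32 (ρ : Representation ℂ (Perm (Fin m)) V) : V →ₗ[ℂ] V :=
  ∑ i, ∑ j, ρ (Equiv.swap i j)

private lemma ww32_apply (ρ : Representation ℂ (Perm (Fin m)) V) (v : V) :
    ww32 ρ v = ∑ i, ∑ j, ρ (Equiv.swap i j) v := by
  unfold ww32
  rw [LinearMap.sum_apply]
  refine Finset.sum_congr rfl fun i _ => ?_
  rw [LinearMap.sum_apply]

private lemma ww32_eq (ρ : Representation ℂ (Perm (Fin m)) V) (v : V) :
    ww32 ρ v = ∑ i, jm ρ i v + ∑ i, jm ρ i v + (m : ℂ) • v := by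
  have h1 : ∀ i : Fin m, ∑ j, ρ (Equiv.swap i j) v =
      jm ρ i v + (∑ j, if j < i then ρ (Equiv.swap i j) v else 0) + v := by
    intro i
    unfold jm
    rw [LinearMap.sum_apply, Finset.sum_filter]
    have h2 : v = ∑ j, if j = i then ρ (Equiv.swap i j) v else 0 := by
      rw [Finset.sum_ite_eq' Finset.univ i (fun j => ρ (Equiv.swap i j) v), if_pos (Finset.mem_univ _),
        Equiv.swap_self]
      change v = ρ 1 v
      rw [map_one]
      rfl
    conv_rhs => rw [h2]
    rw [← Finset.sum_add_distrib, ← Finset.sum_add_distrib]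
    refine Finset.sum_congr rfl fun j _ => ?_
    rw [← h2]
    rcases lt_trichotomy i j with h | h | h
    · rw [if_pos h, if_neg (not_lt.2 h.le), if_neg h.ne', add_zero, add_zero]
    · rw [if_neg (by rw [h]; exact lt_irrefl _), if_neg (by rw [h]; exact lt_irrefl _), if_pos h.symm, zero_add,
        zero_add]
    · rw [if_neg (not_lt.2 h.le), if_pos h, if_neg h.ne, zero_add, add_zero]
  rw [ww32_apply, Finset.sum_congr rfl fun i _ => h1 i, Finset.sum_add_distrib, Finset.sum_add_distrib,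
    Finset.sum_const, Finset.card_univ, Fintype.card_fin, ← Nat.cast_smul_eq_nsmul ℂ]
  congr 2
  rw [Finset.sum_comm]
  refine Finset.sum_congr rfl fun i _ => ?_
  unfold jm
  rw [LinearMap.sum_apply, Finset.sum_filter]
  refine Finset.sum_congr rfl fun j _ => ?_
  rw [Equiv.swap_comm]

private lemma ww32_comm (ρ : Representation ℂ (Perm (Fin m)) V) (g : Perm (Fin m)) (v : V) :
    ww32 ρ (ρ g v) = ρ g (ww32 ρ v) := by
  rw [ww32_apply, ww32_apply, map_sum]
  symm
  refine Fintype.sum_equiv g _ _ fun i => ?_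
  rw [map_sum]
  refine Fintype.sum_equiv g _ _ fun j => ?_
  rw [← Module.End.mul_apply, ← Module.End.mul_apply, ← map_mul, ← map_mul, Equiv.swap_apply_apply]
  congr 2
  group

private lemma ww32_inner [FiniteDimensional ℂ V] (ρ : Representation ℂ (Perm (Fin m)) V)
    {e : V ≃ₗ[ℂ] EuclideanSpace ℂ (Fin (finrank ℂ V))}
    (he : ∀ (g : Perm (Fin m)) (v w : V), inner ℂ (e (ρ g v)) (e (ρ g w)) = inner ℂ (e v) (e w))
    (v w : V) : inner ℂ (e (ww32 ρ v)) (e w) = inner ℂ (e v) (e (ww32 ρ w)) := by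
  rw [ww32_apply, ww32_apply, map_sum, map_sum, sum_inner, inner_sum]
  refine Finset.sum_congr rfl fun i _ => ?_
  rw [map_sum, map_sum, sum_inner, inner_sum]
  refine Finset.sum_congr rfl fun j _ => ?_
  have h1 := he (Equiv.swap i j) (ρ (Equiv.swap i j) v) w
  rw [← Module.End.mul_apply, ← map_mul, Equiv.swap_mul_self, map_one, Module.End.one_apply] at h1
  exact h1.symm

/-- The restriction to a stable subspace. -/
private noncomputable def rs32 (ρ : Representation ℂ (Perm (Fin m)) V) (E : Submodule ℂ V)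
    (hE : ∀ g, ∀ u ∈ E, ρ g u ∈ E) : Representation ℂ (Perm (Fin m)) E where
  toFun g := (ρ g).restrict (hE g)
  map_one' := by
    ext u
    simp
  map_mul' := by
    intro a b
    ext u
    simp [LinearMap.restrict_apply]

private lemma ev32 [FiniteDimensional ℂ V] (ρ : Representation ℂ (Perm (Fin m)) V) {k : ℕ} (hN : NoInv ρ k)
    (hk : k ≤ m) {r : ℝ} {v : V} (hv0 : v ≠ 0) (hv : ww32 ρ v = (r : ℂ) • v) :
    r ≤ ((k : ℝ) - 1) * (2 * m - k) + m := by
  obtain ⟨E, hE⟩ : ∃ E : Submodule ℂ V, ∀ u, u ∈ E ↔ ww32 ρ u = (r : ℂ) • u :=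
    ⟨Module.End.eigenspace (ww32 ρ) (r : ℂ), fun u => Module.End.mem_eigenspace_iff⟩
  have hst : ∀ g, ∀ u ∈ E, ρ g u ∈ E := by
    intro g u hu
    rw [hE] at hu ⊢
    rw [ww32_comm, hu, map_smul]
  have hnt : Nontrivial E := ⟨⟨⟨v, (hE v).2 hv⟩, 0, fun h => hv0 (congrArg Subtype.val h)⟩⟩
  obtain ⟨c, u, hu⟩ := je_exists (rs32 ρ E hst)
  have hN' : NoInv (rs32 ρ E hst) k := by
    intro K hK w hw
    apply Subtype.ext
    exact hN K hK w fun x hx => congrArg Subtype.val (hw x hx)
  have h1 := je_sum_le (rs32 ρ E hst) hN' hk hu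
  have h2 : ((ww32 (rs32 ρ E hst) u : E) : V) = ww32 ρ u := by
    rw [ww32_apply, ww32_apply, Submodule.coe_sum]
    refine Finset.sum_congr rfl fun i _ => ?_
    rw [Submodule.coe_sum]
    rfl
  have h3 : ww32 (rs32 ρ E hst) u = (((2 * ∑ i, c i + m : ℝ)) : ℂ) • u := by
    rw [ww32_eq, Finset.sum_congr rfl fun i _ => hu.2 i, ← Finset.sum_smul, ← add_smul, ← add_smul]
    congr 1
    push_cast
    ring
  have h4 : ((r - (2 * ∑ i, c i + m) : ℝ) : ℂ) • (u : V) = 0 := by
    have h5 := (hE u).1 u.2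
    rw [← h2, h3, Submodule.coe_smul] at h5
    rw [Complex.ofReal_sub, sub_smul, h5, sub_self]
  rcases smul_eq_zero.1 h4 with h5 | h5
  · have h6 : r - (2 * ∑ i, c i + m) = 0 := by exact_mod_cast h5
    linarith
  · exact absurd (Subtype.ext h5) hu.1

end P2aux

theorem char_swap_le {m : ℕ} {V : Type*} [AddCommGroup V] [Module ℂ V] [FiniteDimensional ℂ V]
    (ρ : Representation ℂ (Perm (Fin m)) V) {k : ℕ} (hN : NoInv ρ k) (hk : k ≤ m)
    {a b : Fin m} (hab : a ≠ b) :
    (ρ.character (Equiv.swap a b)).re ≤ (1 - (((m : ℝ) - k) / m) ^ 2) * finrank ℂ V := by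
  classical
  obtain ⟨e, he⟩ := exists_unitary ρ
  have hsym : (e.conj (ww32 ρ)).IsSymmetric := by
    intro x y
    have h1 := ww32_inner ρ he (e.symm x) (e.symm y)
    rw [e.apply_symm_apply, e.apply_symm_apply] at h1
    exact h1
  have hfr : finrank ℂ (EuclideanSpace ℂ (Fin (finrank ℂ V))) = finrank ℂ V := by
    rw [finrank_euclideanSpace, Fintype.card_fin]
  have htr := hsym.re_trace_eq_sum_eigenvalues hfr
  rw [LinearMap.trace_conj'] at htr
  have hev : ∀ i, hsym.eigenvalues hfr i ≤ ((k : ℝ) - 1) * (2 * m - k) + m := by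
    intro i
    have h1 := hsym.hasEigenvalue_eigenvalues hfr i
    obtain ⟨x, hx⟩ := h1.exists_hasEigenvector
    have h2 : e.conj (ww32 ρ) x = ((hsym.eigenvalues hfr i : ℝ) : ℂ) • x := hx.apply_eq_smul
    refine ev32 ρ hN hk (v := e.symm x) (fun h => hx.2 (by simpa using h)) ?_
    apply e.injective
    rw [map_smul, e.apply_symm_apply, ← h2]
    rfl
  have h1 : (LinearMap.trace ℂ V (ww32 ρ)).re ≤ (((k : ℝ) - 1) * (2 * m - k) + m) * finrank ℂ V := by
    have h2 : (LinearMap.trace ℂ V (ww32 ρ)).re = ∑ i, hsym.eigenvalues hfr i := htr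
    rw [h2]
    refine (Finset.sum_le_sum fun i _ => hev i).trans ?_
    rw [Finset.sum_const, Finset.card_univ, Fintype.card_fin, nsmul_eq_mul, mul_comm]
  have hch : ∀ i j : Fin m, LinearMap.trace ℂ V (ρ (Equiv.swap i j)) =
      if i = j then (finrank ℂ V : ℂ) else ρ.character (Equiv.swap a b) := by
    intro i j
    split_ifs with hij
    · rw [hij, Equiv.swap_self]
      change LinearMap.trace ℂ V (ρ 1) = _
      rw [map_one]
      exact LinearMap.trace_one ℂ V
    · obtain ⟨g, hg⟩ := isConj_iff.1 (Equiv.Perm.isConj_swap hab hij)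
      rw [← hg]
      exact ρ.char_conj _ _
  have h2 : LinearMap.trace ℂ V (ww32 ρ) = (m : ℂ) * finrank ℂ V + (m : ℂ) * (m - 1) * ρ.character (Equiv.swap a b) := by
    unfold ww32
    rw [map_sum]
    have h3 : ∀ i : Fin m, LinearMap.trace ℂ V (∑ j, ρ (Equiv.swap i j)) =
        (finrank ℂ V : ℂ) + (m - 1) * ρ.character (Equiv.swap a b) := by
      intro i
      rw [map_sum, Finset.sum_congr rfl fun j _ => hch i j]
      have h4 : ∀ j : Fin m, (if i = j then (finrank ℂ V : ℂ) else ρ.character (Equiv.swap a b)) =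
          (if i = j then ((finrank ℂ V : ℂ) - ρ.character (Equiv.swap a b)) else 0) +
            ρ.character (Equiv.swap a b) := by
        intro j
        split_ifs
        · ring
        · ring
      rw [Finset.sum_congr rfl fun j _ => h4 j, Finset.sum_add_distrib, Finset.sum_ite_eq,
        if_pos (Finset.mem_univ _), Finset.sum_const, Finset.card_univ, Fintype.card_fin, nsmul_eq_mul]
      ring
    rw [Finset.sum_congr rfl fun i _ => h3 i, Finset.sum_const, Finset.card_univ, Fintype.card_fin, nsmul_eq_mul]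
    ring
  obtain ⟨χ, hχ⟩ : ∃ χ : ℝ, χ = (ρ.character (Equiv.swap a b)).re := ⟨_, rfl⟩
  obtain ⟨d, hd⟩ : ∃ d : ℝ, d = finrank ℂ V := ⟨_, rfl⟩
  have h3 : (LinearMap.trace ℂ V (ww32 ρ)).re = m * d + m * (m - 1) * χ := by
    rw [h2, hχ, hd]
    have e1 : ((m : ℂ) * (finrank ℂ V : ℂ) + (m : ℂ) * (m - 1) * ρ.character (Equiv.swap a b)) =
        ((((m : ℝ) * (finrank ℂ V : ℝ) : ℝ)) : ℂ) + (((m : ℝ) * (m - 1) : ℝ) : ℂ) * ρ.character (Equiv.swap a b) := by
      push_cast
      ring
    rw [e1, Complex.add_re, Complex.ofReal_re, Complex.re_ofReal_mul]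
  rw [h3, ← hd] at h1
  rw [← hχ, ← hd]
  have hd0 : 0 ≤ d := by rw [hd]; exact Nat.cast_nonneg _
  have hm2 : 2 ≤ m := by
    have ha := a.2
    have hb := b.2
    have hne : (a : ℕ) ≠ b := fun h => hab (Fin.ext h)
    omega
  have hmr : (2 : ℝ) ≤ m := by exact_mod_cast hm2
  have hkr : (k : ℝ) ≤ m := by exact_mod_cast hk
  have hk0 : (0 : ℝ) ≤ k := Nat.cast_nonneg _
  have hm0 : (0 : ℝ) < m := by linarith
  have hm1 : (0 : ℝ) < m - 1 := by linarith
  have h4 : m * (m - 1) * χ ≤ (((k : ℝ) - 1) * (2 * m - k)) * d := by linarith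
  have h5 : (((k : ℝ) - 1) * (2 * m - k)) ≤ m * (m - 1) * (1 - (((m : ℝ) - k) / m) ^ 2) := by
    have e1 : (m : ℝ) * (m - 1) * (1 - (((m : ℝ) - k) / m) ^ 2) = m * (m - 1) - (m - 1) * (m - k) ^ 2 / m := by
      field_simp
    have e2 : ((m : ℝ) - 1) * (m - k) ^ 2 / m ≤ (m - k) * (m - k + 1) := by
      rw [div_le_iff₀ hm0]
      nlinarith [mul_nonneg (sub_nonneg.2 hkr) (by linarith : (0 : ℝ) ≤ 2 * m - k)]
    rw [e1]
    nlinarith [e2]
  have h6 : m * (m - 1) * χ ≤ m * (m - 1) * ((1 - (((m : ℝ) - k) / m) ^ 2) * d) := by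
    refine h4.trans ?_
    have := mul_le_mul_of_nonneg_right h5 hd0
    linarith
  exact le_of_mul_le_mul_left h6 (mul_pos hm0 hm1)

end Pool.Agent.Helper70.TU
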