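import Pool.Agent.Helper70.TU.P2

/-!
BLOCK TU-P3 (about 180 lines). The share of the invariants of `Sym(A)` decays exponentially.

Proofs in words.
* `finrank_inv_insert`: `U = inv ρ A`, `m = n - |A|`, `e : Fin m ≃ {x // x ∉ A}`. For `y : Perm (Fin m)` let `y'` be the permutation of
  `Fin n` which is `e y e⁻¹` outside `A` and the identity on `A` (`Equiv.Perm.ofSubtype` of `e.permCongr y`, or `Equiv.Perm.extendDomain y e`).
  `y'` commutes with the permutations supported in `A` (disjoint supports), so it maps `U` to `U`; this gives a representation `σ` of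
  `Perm (Fin m)` on `U`. `NoInv σ k`: for `K ⊆ Fin m` with `k` elements and `u ∈ U` fixed by `σ(x)`, `supp x ⊆ K`, the vector `u` is fixed by
  all permutations of `Fin n` with support in the image of `K`, which has `k` elements, so `u = 0`. With `a, b` the points of `Fin m`
  corresponding to `x, y`: `char_swap_le` gives `re tr σ(swap a b) ≤ (1 - ((m-k)/m)²) dim U`. The fixed vectors of the involution
  `τ = σ(swap a b)` have dimension `(dim U + tr τ)/2` (`(1 + τ)/2` is a projection onto them; `LinearMap.IsProj.trace` or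
  `IsIdempotentElem`), and `inv ρ (insert x (insert y A))` is contained in them (contained in `inv ρ A` and fixed by `swap x y`).
  So the dimension is `≤ (1 - ((m-k)/m)²/2) dim U`.
* `finrank_inv_le`: induction on `b`. Write `A = insert x (insert y A')` with `|A'| = 2b - 2`; `m = n - (2b - 2) ≥ n - 2b`,
  `(m - k)/m ≥ (n - 2b - k)/n ≥ 0` (numerator larger, denominator smaller), and `(·)^{b-1}` with the base for `b - 1` is `≤` that for `b`.
-/

set_option autoImplicit false

open Module Equiv Pool.Agent.Helper1.TS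

namespace Pool.Agent.Helper70.TU

variable {n : ℕ} {V : Type*} [AddCommGroup V] [Module ℂ V] [FiniteDimensional ℂ V]

/-- The permutations of the complement of `A`. -/
private noncomputable def ph50 {A : Finset (Fin n)} {m : ℕ} (f : Fin m ≃ {z : Fin n // z ∉ A}) :
    Perm (Fin m) →* Perm (Fin n) :=
  Equiv.Perm.extendDomainHom f

private lemma ph50_image {A : Finset (Fin n)} {m : ℕ} (f : Fin m ≃ {z : Fin n // z ∉ A})
    (y : Perm (Fin m)) (a : Fin m) : ph50 f y (f a) = f (y a) :=
  Equiv.Perm.extendDomain_apply_image y f a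

private lemma ph50_out {A : Finset (Fin n)} {m : ℕ} (f : Fin m ≃ {z : Fin n // z ∉ A})
    (y : Perm (Fin m)) {b : Fin n} (hb : b ∈ A) : ph50 f y b = b :=
  Equiv.Perm.extendDomain_apply_not_subtype y f (by simpa using hb)

private lemma ph50_comm {A : Finset (Fin n)} {m : ℕ} (f : Fin m ≃ {z : Fin n // z ∉ A})
    (y : Perm (Fin m)) {x : Perm (Fin n)} (hx : x.support ⊆ A) :
    x * ph50 f y = ph50 f y * x := by
  have h1 : Perm.Disjoint x (ph50 f y) := by
    intro b
    by_cases hb : b ∈ A
    · exact Or.inr (ph50_out f y hb)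
    · refine Or.inl ?_
      by_contra h
      exact hb (hx (Perm.mem_support.mpr h))
  exact h1.commute

private lemma ph50_mem (ρ : Representation ℂ (Perm (Fin n)) V) {A : Finset (Fin n)} {m : ℕ}
    (f : Fin m ≃ {z : Fin n // z ∉ A}) (y : Perm (Fin m)) {u : V} (hu : u ∈ inv ρ A) :
    ρ (ph50 f y) u ∈ inv ρ A := by
  rw [mem_inv] at hu ⊢
  intro x hx
  rw [← Module.End.mul_apply, ← map_mul, ph50_comm f y hx, map_mul, Module.End.mul_apply, hu x hx]

/-- The representation of the permutations of the complement on the invariants. -/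
private noncomputable def rep50 (ρ : Representation ℂ (Perm (Fin n)) V) {A : Finset (Fin n)} {m : ℕ}
    (f : Fin m ≃ {z : Fin n // z ∉ A}) : Representation ℂ (Perm (Fin m)) (inv ρ A) where
  toFun y := (ρ (ph50 f y)).restrict (fun _ hu => ph50_mem ρ f y hu)
  map_one' := by
    ext u
    simp
  map_mul' := by
    intro a b
    ext u
    simp [LinearMap.restrict_apply]

private lemma rep50_apply (ρ : Representation ℂ (Perm (Fin n)) V) {A : Finset (Fin n)} {m : ℕ}
    (f : Fin m ≃ {z : Fin n // z ∉ A}) (y : Perm (Fin m)) (u : inv ρ A) :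
    ((rep50 ρ f y u : inv ρ A) : V) = ρ (ph50 f y) u := rfl

private lemma rep50_noInv (ρ : Representation ℂ (Perm (Fin n)) V) {k : ℕ} (hN : NoInv ρ k)
    {A : Finset (Fin n)} {m : ℕ} (f : Fin m ≃ {z : Fin n // z ∉ A}) : NoInv (rep50 ρ f) k := by
  classical
  intro K hK u hu
  apply Subtype.ext
  refine hN (K.map f.asEmbedding) (by rw [Finset.card_map, hK]) u ?_
  intro x hx
  have hx1 : ∀ b : Fin n, x b ≠ b → b ∉ A := by
    intro b hb hbA
    obtain ⟨a, -, ha⟩ := Finset.mem_map.mp (hx (Perm.mem_support.mpr hb))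
    have h2 : ((f a : {z : Fin n // z ∉ A}) : Fin n) ∉ A := (f a).2
    have h3 : ((f a : {z : Fin n // z ∉ A}) : Fin n) = b := ha
    exact h2 (h3 ▸ hbA)
  have hx2 : ∀ b : Fin n, b ∉ A ↔ x b ∉ A := by
    intro b
    by_cases hb : x b = b
    · rw [hb]
    · refine ⟨fun _ => hx1 _ ?_, fun _ => hx1 b hb⟩
      intro h
      exact hb (x.injective h)
  have hx3 : ∀ b : Fin n, x b ∉ A ↔ b ∉ A := fun b => (hx2 b).symm
  obtain ⟨y, hy⟩ : ∃ y : Perm (Fin m), ph50 f y = x := by
    refine ⟨(f.trans (x.subtypePerm hx3)).trans f.symm, ?_⟩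
    ext1 b
    by_cases hb : b ∈ A
    · rw [ph50_out f _ hb]
      by_contra h
      exact hx1 b (fun h' => h h'.symm) hb
    · have h1 : b = ((f (f.symm ⟨b, hb⟩) : {z : Fin n // z ∉ A}) : Fin n) := by simp
      rw [h1, ph50_image]
      simp [Perm.subtypePerm_apply]
  have hyK : y.support ⊆ K := by
    intro a ha
    have h1 : x (f a) ≠ f a := by
      rw [← hy, ph50_image]
      intro h
      exact (Perm.mem_support.mp ha) (f.injective (Subtype.ext h))
    obtain ⟨a', ha', h2⟩ := Finset.mem_map.mp (hx (Perm.mem_support.mpr h1))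
    have h3 : ((f a' : {z : Fin n // z ∉ A}) : Fin n) = f a := h2
    rw [← f.injective (Subtype.ext h3)]
    exact ha'
  have h4 := congrArg (Subtype.val) (hu y hyK)
  rw [rep50_apply, hy] at h4
  exact h4

private lemma fixed50 {U : Type*} [AddCommGroup U] [Module ℂ U] [FiniteDimensional ℂ U]
    (T : U →ₗ[ℂ] U) (hT : T * T = 1) :
    ((finrank ℂ (LinearMap.ker (T - 1)) : ℕ) : ℝ) =
      ((finrank ℂ U : ℝ) + (LinearMap.trace ℂ U T).re) / 2 := by
  have hTT : ∀ u, T (T u) = u := by
    intro u
    have := LinearMap.congr_fun hT u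
    exact this
  have hP : LinearMap.IsProj (LinearMap.ker (T - 1)) ((1 / 2 : ℂ) • (1 + T)) := by
    constructor
    · intro u
      rw [LinearMap.mem_ker]
      simp only [LinearMap.smul_apply, LinearMap.add_apply, LinearMap.sub_apply,
        Module.End.one_apply, map_smul, map_add, hTT]
      first
        | (rw [← smul_sub]
           have h0 : T u + u - (u + T u) = 0 := by abel
           rw [h0, smul_zero])
        | (have h0 : T u - u + (u - T u) = 0 := by abel
           rw [h0, smul_zero])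
    · intro u hu
      rw [LinearMap.mem_ker, LinearMap.sub_apply, sub_eq_zero] at hu
      simp only [LinearMap.smul_apply, LinearMap.add_apply, Module.End.one_apply]
      rw [hu, Module.End.one_apply, ← two_smul ℂ u, smul_smul]
      norm_num
  have h1 := hP.trace
  rw [map_smul, map_add, LinearMap.trace_one, smul_eq_mul] at h1
  have h2 := congrArg Complex.re h1
  rw [Complex.natCast_re] at h2
  rw [← h2]
  simp
  ring

theorem finrank_inv_insert (ρ : Representation ℂ (Perm (Fin n)) V) {k : ℕ} (hN : NoInv ρ k)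
    (A : Finset (Fin n)) {x y : Fin n} (hx : x ∉ A) (hy : y ∉ A) (hxy : x ≠ y)
    (hk : A.card + k ≤ n) :
    (finrank ℂ (inv ρ (insert x (insert y A))) : ℝ) ≤
      (1 - ((((n : ℝ) - A.card) - k) / ((n : ℝ) - A.card)) ^ 2 / 2) * finrank ℂ (inv ρ A) := by
  classical
  have hcard : Fintype.card {z : Fin n // z ∉ A} = n - A.card := by
    rw [Fintype.card_subtype_compl]
    simp
  obtain ⟨m, hm⟩ : ∃ m, m = n - A.card := ⟨_, rfl⟩
  have hmR : (m : ℝ) = (n : ℝ) - A.card := by
    rw [hm, Nat.cast_sub (by omega)]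
  let f : Fin m ≃ {z : Fin n // z ∉ A} := (Fintype.equivFinOfCardEq (hcard.trans hm.symm)).symm
  set a : Fin m := f.symm ⟨x, hx⟩ with ha
  set b : Fin m := f.symm ⟨y, hy⟩ with hb
  have hab : a ≠ b := by
    intro h
    have h1 := f.symm.injective h
    exact hxy (congrArg Subtype.val h1)
  have hfa : ((f a : {z : Fin n // z ∉ A}) : Fin n) = x := by rw [ha]; simp
  have hfb : ((f b : {z : Fin n // z ∉ A}) : Fin n) = y := by rw [hb]; simp
  have h1 := char_swap_le (rep50 ρ f) (rep50_noInv ρ hN f) (by omega : k ≤ m) hab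
  have hT : (rep50 ρ f (Equiv.swap a b)) * (rep50 ρ f (Equiv.swap a b)) = 1 := by
    rw [← map_mul, Equiv.swap_mul_self, map_one]
  have h2 := fixed50 (rep50 ρ f (Equiv.swap a b)) hT
  have hph : ph50 f (Equiv.swap a b) = Equiv.swap x y := by
    ext1 z
    by_cases hz : z ∈ A
    · rw [ph50_out f _ hz, Equiv.swap_apply_of_ne_of_ne]
      · rintro rfl
        exact hx hz
      · rintro rfl
        exact hy hz
    · have h3 : z = ((f (f.symm ⟨z, hz⟩) : {z : Fin n // z ∉ A}) : Fin n) := by simp
      rw [h3, ph50_image]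
      generalize f.symm ⟨z, hz⟩ = c
      by_cases hca : c = a
      · rw [hca, Equiv.swap_apply_left, hfa, hfb, Equiv.swap_apply_left]
      by_cases hcb : c = b
      · rw [hcb, Equiv.swap_apply_right, hfa, hfb, Equiv.swap_apply_right]
      rw [Equiv.swap_apply_of_ne_of_ne hca hcb, Equiv.swap_apply_of_ne_of_ne]
      · intro h
        exact hca (f.injective (Subtype.ext (h.trans hfa.symm)))
      · intro h
        exact hcb (f.injective (Subtype.ext (h.trans hfb.symm)))
  have h5 : inv ρ (insert x (insert y A)) ≤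
      (LinearMap.ker (rep50 ρ f (Equiv.swap a b) - 1)).map (inv ρ A).subtype := by
    intro v hv
    rw [mem_inv] at hv
    have hvA : v ∈ inv ρ A := by
      rw [mem_inv]
      intro z hz
      exact hv z (hz.trans (fun c hc => Finset.mem_insert_of_mem (Finset.mem_insert_of_mem hc)))
    rw [Submodule.mem_map]
    refine ⟨⟨v, hvA⟩, ?_, rfl⟩
    rw [LinearMap.mem_ker, LinearMap.sub_apply, sub_eq_zero]
    apply Subtype.ext
    rw [rep50_apply, hph]
    refine hv _ ?_
    intro c hc
    rw [Perm.mem_support] at hc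
    by_contra hcn
    rw [Finset.mem_insert, Finset.mem_insert, not_or, not_or] at hcn
    exact hc (Equiv.swap_apply_of_ne_of_ne hcn.1 hcn.2.1)
  have h6 := Submodule.finrank_mono h5
  rw [Submodule.finrank_map_subtype_eq] at h6
  have h7 : (finrank ℂ (inv ρ (insert x (insert y A))) : ℝ) ≤
      (finrank ℂ (LinearMap.ker (rep50 ρ f (Equiv.swap a b) - 1)) : ℝ) := by exact_mod_cast h6
  refine h7.trans ?_
  rw [h2, ← hmR]
  have h8 : (LinearMap.trace ℂ (inv ρ A) (rep50 ρ f (Equiv.swap a b))).re ≤
      (1 - (((m : ℝ) - k) / m) ^ 2) * finrank ℂ (inv ρ A) := h1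
  linarith

theorem finrank_inv_le (ρ : Representation ℂ (Perm (Fin n)) V) {k : ℕ} (hN : NoInv ρ k)
    (b : ℕ) (A : Finset (Fin n)) (hA : A.card = 2 * b) (hk : 2 * b + k ≤ n) :
    (finrank ℂ (inv ρ A) : ℝ) ≤
      (1 - (((n : ℝ) - 2 * b - k) / n) ^ 2 / 2) ^ b * finrank ℂ V := by
  classical
  induction b generalizing A with
  | zero =>
    rw [pow_zero, one_mul]
    exact_mod_cast Submodule.finrank_le (inv ρ A)
  | succ b ih =>
    obtain ⟨x, hx⟩ : A.Nonempty := by
      rw [← Finset.card_pos]
      omega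
    obtain ⟨y, hy⟩ : (A.erase x).Nonempty := by
      rw [← Finset.card_pos, Finset.card_erase_of_mem hx]
      omega
    have hxy : x ≠ y := (Finset.ne_of_mem_erase hy).symm
    have hA' : A = insert x (insert y ((A.erase x).erase y)) := by
      rw [Finset.insert_erase hy, Finset.insert_erase hx]
    have hcard : ((A.erase x).erase y).card = 2 * b := by
      rw [Finset.card_erase_of_mem hy, Finset.card_erase_of_mem hx]
      omega
    have h1 := finrank_inv_insert ρ hN ((A.erase x).erase y) (x := x) (y := y)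
      (fun h => Finset.notMem_erase x A (Finset.mem_of_mem_erase h)) (Finset.notMem_erase y _) hxy
      (by omega)
    rw [← hA', hcard] at h1
    have h2 := ih ((A.erase x).erase y) hcard (by omega)
    have hkR : 2 * ((b : ℝ) + 1) + k ≤ n := by
      have : 2 * (b + 1) + k ≤ n := hk
      exact_mod_cast this
    have hb0 : (0 : ℝ) ≤ b := Nat.cast_nonneg b
    have hk0 : (0 : ℝ) ≤ k := Nat.cast_nonneg k
    have hn0 : (0 : ℝ) < n := by linarith
    have hnb : (0 : ℝ) < (n : ℝ) - 2 * b := by linarith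
    set s : ℝ := ((n : ℝ) - 2 * ((b + 1 : ℕ) : ℝ) - k) / n with hs
    have hs0 : 0 ≤ s := by
      rw [hs]
      push_cast
      apply div_nonneg _ hn0.le
      linarith
    have hs1 : s ≤ 1 := by
      rw [hs, div_le_one hn0]
      push_cast
      linarith
    have hsa : s ≤ ((n : ℝ) - 2 * b - k) / n := by
      rw [hs]
      push_cast
      apply div_le_div_of_nonneg_right _ hn0.le
      linarith
    have ha1 : ((n : ℝ) - 2 * b - k) / n ≤ 1 := by
      rw [div_le_one hn0]
      linarith
    have hsc : s ≤ ((n : ℝ) - 2 * b - k) / ((n : ℝ) - 2 * b) := by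
      refine hsa.trans ?_
      apply div_le_div_of_nonneg_left _ hnb
      · linarith
      · linarith
    have h3 : 1 - (((n : ℝ) - 2 * b - k) / ((n : ℝ) - 2 * b)) ^ 2 / 2 ≤ 1 - s ^ 2 / 2 := by
      have := pow_le_pow_left₀ hs0 hsc 2
      linarith
    have h4 : 1 - (((n : ℝ) - 2 * b - k) / n) ^ 2 / 2 ≤ 1 - s ^ 2 / 2 := by
      have := pow_le_pow_left₀ hs0 hsa 2
      linarith
    have h5 : 0 ≤ 1 - (((n : ℝ) - 2 * b - k) / n) ^ 2 / 2 := by
      have := pow_le_one₀ (hs0.trans hsa) ha1 (n := 2)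
      linarith
    have h6 : 0 ≤ 1 - s ^ 2 / 2 := by
      have := pow_le_one₀ hs0 hs1 (n := 2)
      linarith
    have h7 : (((2 * b : ℕ) : ℝ)) = 2 * (b : ℝ) := by push_cast; ring
    rw [h7] at h1
    calc (finrank ℂ (inv ρ A) : ℝ)
        ≤ (1 - (((n : ℝ) - 2 * b - k) / ((n : ℝ) - 2 * b)) ^ 2 / 2) *
            finrank ℂ (inv ρ ((A.erase x).erase y)) := h1
      _ ≤ (1 - s ^ 2 / 2) * finrank ℂ (inv ρ ((A.erase x).erase y)) :=
          mul_le_mul_of_nonneg_right h3 (Nat.cast_nonneg _)
      _ ≤ (1 - s ^ 2 / 2) * ((1 - (((n : ℝ) - 2 * b - k) / n) ^ 2 / 2) ^ b * finrank ℂ V) :=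
          mul_le_mul_of_nonneg_left h2 h6
      _ ≤ (1 - s ^ 2 / 2) * ((1 - s ^ 2 / 2) ^ b * finrank ℂ V) := by
          refine mul_le_mul_of_nonneg_left ?_ h6
          exact mul_le_mul_of_nonneg_right (pow_le_pow_left₀ h5 h4 b) (Nat.cast_nonneg _)
      _ = (1 - s ^ 2 / 2) ^ (b + 1) * finrank ℂ V := by ring

end Pool.Agent.Helper70.TU
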