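import Pool.Agent.Helper70.TU.P3
import Pool.Agent.Helper1.TS.DEG

/-!
BLOCK TU-P4 (about 150 lines). Twist by the sign; lower bound for dimensions; the thin part.

`thin ρ T k'` is the sum over the `k'`-element subsets `K` of `T` of the invariants and of the sign-invariants of `Sym(K)`.

Proofs in words.
* `bal_iff`: unfold (`tw ρ x v = v` iff `ρ x v = sgn x v`, as `sgn x = ± 1`).
* `finrank_thin_le`: for `K ⊆ T`, `|K| = k' ≥ 2b`, take `A ⊆ K` with `|A| = 2b`: `inv ρ K ≤ inv ρ A`, `finrank_inv_le` for `ρ` and for `tw ρ`;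
  the dimension of a sum of submodules is at most the sum of the dimensions, and there are `C(|T|,k')` sets `K`.
* `dim_lower`: `V ≠ 0`. If `Bal ρ (2b)` then `deg_bound` gives `m! ≤ (4b)^m dim V`, and `h2` gives `D ≤ dim V` (if `(4b)^m = 0`, i.e. `b = 0`
  and `m > 0`, then `m! ≤ 0`, impossible; for `(4 b)^m > 0` divide). Otherwise there are `K` with `|K| = 2b` and `v ≠ 0` in `inv ρ K` or in
  `inv (tw ρ) K`, so `1 ≤ (1 - ((m-2b-k)/m)²/2)^b dim V` by `finrank_inv_le`; with `h1` and `D ≥ 0`: `D ≤ dim V`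
  (`D * X ≤ 1 ≤ X * dim V` with `X ≥ 0`, and `X > 0` because `X dim V ≥ 1`).
* `dim_lower_sub`: transport to `Fin T.card` exactly as in `deg_bound_sub` (`Helper1/TS/DEG.lean`): the subrepresentation `W` of
  `Sym(T)`, read as a representation of `Perm (Fin T.card)` through `T.equivFin`, is `Bal` for `k'` by `hW'`.
-/

set_option autoImplicit false

open Module Equiv Pool.Agent.Helper1.TS

namespace Pool.Agent.Helper70.TU

variable {n : ℕ} {V : Type*} [AddCommGroup V] [Module ℂ V]

/-- The thin part of the restriction to `Sym(T)`. -/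
noncomputable def thin (ρ : Representation ℂ (Perm (Fin n)) V) (T : Finset (Fin n)) (k' : ℕ) :
    Submodule ℂ V :=
  ⨆ K ∈ T.powersetCard k', (inv ρ K ⊔ inv (tw ρ) K)

private lemma tw_fix_iff23 (ρ : Representation ℂ (Perm (Fin n)) V) (x : Perm (Fin n)) (v : V) :
    tw ρ x v = v ↔ ρ x v = ((Perm.sign x : ℤ) : ℂ) • v := by
  rw [tw_apply]
  rcases Int.units_eq_one_or (Perm.sign x) with h | h
  · rw [h]; simp
  · rw [h]
    simp only [Units.val_neg, Units.val_one, Int.cast_neg, Int.cast_one, neg_smul, one_smul]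
    constructor
    · intro h1
      rw [← h1, neg_neg]
      exact (by rw [h1])
    · intro h1
      rw [h1, neg_neg]

private lemma mem_inv_tw23 {ρ : Representation ℂ (Perm (Fin n)) V} {K : Finset (Fin n)} {v : V} :
    v ∈ inv (tw ρ) K ↔
      ∀ x : Perm (Fin n), x.support ⊆ K → ρ x v = ((Perm.sign x : ℤ) : ℂ) • v := by
  rw [mem_inv]
  exact forall_congr' (fun x => imp_congr_right (fun _ => tw_fix_iff23 ρ x v))

private lemma inv_anti23 (ρ : Representation ℂ (Perm (Fin n)) V) {A K : Finset (Fin n)}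
    (h : A ⊆ K) : inv ρ K ≤ inv ρ A := by
  intro v hv
  rw [mem_inv] at hv ⊢
  exact fun x hx => hv x (hx.trans h)

private lemma finrank_biSup_le23 [FiniteDimensional ℂ V] {ι : Type*} [DecidableEq ι]
    (s : Finset ι) (U : ι → Submodule ℂ V) (c : ℝ)
    (h : ∀ i ∈ s, (finrank ℂ (U i) : ℝ) ≤ c) :
    (finrank ℂ (⨆ i ∈ s, U i : Submodule ℂ V) : ℝ) ≤ s.card * c := by
  induction s using Finset.induction_on with
  | empty => simp
  | insert a s ha ih =>
    rw [Finset.iSup_insert, Finset.card_insert_of_notMem ha]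
    have h1 := ih (fun i hi => h i (Finset.mem_insert_of_mem hi))
    have h2 := h a (Finset.mem_insert_self a s)
    have h3 : (finrank ℂ (U a ⊔ ⨆ i ∈ s, U i : Submodule ℂ V) : ℝ) ≤
        finrank ℂ (U a) + finrank ℂ (⨆ i ∈ s, U i : Submodule ℂ V) := by
      exact_mod_cast Submodule.finrank_add_le_finrank_add_finrank (U a) (⨆ i ∈ s, U i)
    push_cast
    linarith

theorem bal_iff (ρ : Representation ℂ (Perm (Fin n)) V) (k : ℕ) :
    Bal ρ k ↔ NoInv ρ k ∧ NoInv (tw ρ) k := by
  constructor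
  · intro hB
    refine ⟨fun K hK v hv => (hB K hK v).1 hv, fun K hK v hv => (hB K hK v).2 ?_⟩
    intro x hx
    exact (tw_fix_iff23 ρ x v).1 (hv x hx)
  · rintro ⟨h1, h2⟩ K hK v
    refine ⟨fun hv => h1 K hK v hv, fun hv => h2 K hK v ?_⟩
    intro x hx
    exact (tw_fix_iff23 ρ x v).2 (hv x hx)

theorem finrank_thin_le [FiniteDimensional ℂ V] (ρ : Representation ℂ (Perm (Fin n)) V) {k k' b : ℕ}
    (hB : Bal ρ k) (hk : 2 * b + k ≤ n) (hb : 2 * b ≤ k') (T : Finset (Fin n)) :
    (finrank ℂ (thin ρ T k') : ℝ) ≤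
      2 * (T.card.choose k') * (1 - (((n : ℝ) - 2 * b - k) / n) ^ 2 / 2) ^ b * finrank ℂ V := by
  classical
  obtain ⟨hN1, hN2⟩ := (bal_iff ρ k).1 hB
  set q : ℝ := (1 - (((n : ℝ) - 2 * b - k) / n) ^ 2 / 2) ^ b * finrank ℂ V with hq
  have h1 : ∀ K ∈ T.powersetCard k',
      (finrank ℂ (inv ρ K ⊔ inv (tw ρ) K : Submodule ℂ V) : ℝ) ≤ 2 * q := by
    intro K hK
    rw [Finset.mem_powersetCard] at hK
    obtain ⟨A, hAK, hA⟩ := Finset.exists_subset_card_eq (hb.trans hK.2.ge)
    have h2 := finrank_inv_le ρ hN1 b A hA hk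
    have h3 := finrank_inv_le (tw ρ) hN2 b A hA hk
    have h4 : (finrank ℂ (inv ρ K) : ℝ) ≤ finrank ℂ (inv ρ A) := by
      exact_mod_cast Submodule.finrank_mono (inv_anti23 ρ hAK)
    have h5 : (finrank ℂ (inv (tw ρ) K) : ℝ) ≤ finrank ℂ (inv (tw ρ) A) := by
      exact_mod_cast Submodule.finrank_mono (inv_anti23 (tw ρ) hAK)
    have h6 : (finrank ℂ (inv ρ K ⊔ inv (tw ρ) K : Submodule ℂ V) : ℝ) ≤
        finrank ℂ (inv ρ K) + finrank ℂ (inv (tw ρ) K) := by
      exact_mod_cast Submodule.finrank_add_le_finrank_add_finrank (inv ρ K) (inv (tw ρ) K)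
    linarith
  have h2 := finrank_biSup_le23 (T.powersetCard k')
    (fun K => inv ρ K ⊔ inv (tw ρ) K) (2 * q) h1
  rw [Finset.card_powersetCard] at h2
  refine h2.trans (le_of_eq ?_)
  rw [hq]
  ring

theorem dim_lower {m : ℕ} [FiniteDimensional ℂ V] [Nontrivial V]
    (ρ : Representation ℂ (Perm (Fin m)) V) {k b : ℕ} (hB : Bal ρ k) (hk : 2 * b + k ≤ m)
    (D : ℝ) (hD : 0 ≤ D) (h1 : D * (1 - (((m : ℝ) - 2 * b - k) / m) ^ 2 / 2) ^ b ≤ 1)
    (h2 : D * (4 * b : ℝ) ^ m ≤ m.factorial) : D ≤ finrank ℂ V := by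
  classical
  set X : ℝ := (1 - (((m : ℝ) - 2 * b - k) / m) ^ 2 / 2) ^ b with hX
  by_cases hb : Bal ρ (2 * b)
  · have h3 := deg_bound ρ hb
    have h4 : (2 * ((2 * b : ℕ) : ℝ)) ^ m = (4 * b : ℝ) ^ m := by
      push_cast
      ring
    rw [h4] at h3
    have hf : (0 : ℝ) < m.factorial := by exact_mod_cast m.factorial_pos
    have h5 : (0 : ℝ) ≤ (4 * b : ℝ) ^ m := by positivity
    have h6 : (0 : ℝ) < (4 * b : ℝ) ^ m := by
      rcases h5.lt_or_eq with h | h
      · exact h
      · rw [← h, zero_mul] at h3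
        linarith
    have h7 : (4 * b : ℝ) ^ m * D ≤ (4 * b : ℝ) ^ m * finrank ℂ V := by
      rw [mul_comm]
      exact h2.trans h3
    exact le_of_mul_le_mul_left h7 h6
  · have h8 : 1 ≤ X * finrank ℂ V := by
      obtain ⟨hN1, hN2⟩ := (bal_iff ρ k).1 hB
      rw [bal_iff, not_and_or] at hb
      have key : ∀ τ : Representation ℂ (Perm (Fin m)) V, NoInv τ k → ¬ NoInv τ (2 * b) →
          1 ≤ X * finrank ℂ V := by
        intro τ hτ hn
        unfold NoInv at hn
        push Not at hn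
        obtain ⟨K, hK, v, hv, hv0⟩ := hn
        have h9 := finrank_inv_le τ hτ b K hK hk
        have hmem : v ∈ inv τ K := hv
        have : Nontrivial (inv τ K) :=
          ⟨⟨⟨v, hmem⟩, 0, fun h => hv0 (congrArg Subtype.val h)⟩⟩
        have h10 : 0 < finrank ℂ (inv τ K) := finrank_pos
        have h11 : (1 : ℝ) ≤ finrank ℂ (inv τ K) := by exact_mod_cast h10
        exact h11.trans h9
      rcases hb with h | h
      · exact key ρ hN1 h
      · exact key (tw ρ) hN2 h
    have h12 : (0 : ℝ) ≤ finrank ℂ V := Nat.cast_nonneg _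
    have h13 : 0 < X := by
      by_contra h
      push Not at h
      have := mul_nonpos_of_nonpos_of_nonneg h h12
      linarith
    have h14 : X * D ≤ X * finrank ℂ V := by
      rw [mul_comm]
      exact h1.trans h8
    exact le_of_mul_le_mul_left h14 h13

theorem dim_lower_sub [FiniteDimensional ℂ V] (ρ : Representation ℂ (Perm (Fin n)) V)
    (T : Finset (Fin n)) (W : Submodule ℂ V) (hW : W ≠ ⊥)
    (hst : ∀ x : Perm {x // x ∈ T}, ∀ w ∈ W, resT ρ T x w ∈ W) {k' b' : ℕ}
    (hW' : ∀ K ⊆ T, K.card = k' → ∀ w ∈ W, (w ∈ inv ρ K ∨ w ∈ inv (tw ρ) K) → w = 0)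
    (hk : 2 * b' + k' ≤ T.card)
    (D : ℝ) (hD : 0 ≤ D) (h1 : D * (1 - (((T.card : ℝ) - 2 * b' - k') / T.card) ^ 2 / 2) ^ b' ≤ 1)
    (h2 : D * (4 * b' : ℝ) ^ T.card ≤ T.card.factorial) : D ≤ finrank ℂ W := by
  classical
  let e : Fin T.card ≃ {x // x ∈ T} := T.equivFin.symm
  let S : Subrepresentation (resT ρ T) := ⟨W, fun x w hw => hst x w hw⟩
  let σ : Representation ℂ (Perm (Fin T.card)) W :=
    S.toRepresentation.comp e.permCongrHom.toMonoidHom
  have hσ : ∀ (x : Perm (Fin T.card)) (w : W),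
      ((σ x w : W) : V) = ρ (Perm.ofSubtype (e.permCongr x)) (w : V) := fun x w => rfl
  have : Nontrivial W := Submodule.nontrivial_iff_ne_bot.2 hW
  refine dim_lower σ (k := k') (b := b') ?_ hk D hD h1 h2
  intro K hK w
  set K' : Finset (Fin n) := K.map (e.toEmbedding.trans (Function.Embedding.subtype _)) with hK'
  have hK'card : K'.card = k' := by rw [hK', Finset.card_map, hK]
  have hback : ∀ y : Perm (Fin n), y.support ⊆ K' → ∃ x : Perm (Fin T.card),
      x.support ⊆ K ∧ Perm.ofSubtype (e.permCongr x) = y := by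
    intro y hy
    have hyT : ∀ a, y a ≠ a → a ∈ T := by
      intro a ha
      have h1 := hy (Perm.mem_support.2 ha)
      rw [hK', Finset.mem_map] at h1
      obtain ⟨b, _, rfl⟩ := h1
      exact (e b).2
    have hT : ∀ a, y a ∈ T ↔ a ∈ T := by
      intro a
      by_cases ha : y a = a
      · rw [ha]
      · refine ⟨fun _ => hyT a ha, fun _ => hyT (y a) ?_⟩
        intro h
        exact ha (y.injective h)
    refine ⟨e.symm.permCongr (y.subtypePerm hT), ?_, ?_⟩
    · intro b hb
      rw [Perm.mem_support] at hb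
      have h1 : y (e b) ≠ (e b : Fin n) := by
        intro h
        apply hb
        have h4 : y.subtypePerm hT (e b) = e b := Subtype.ext h
        change e.symm (y.subtypePerm hT (e b)) = b
        rw [h4, Equiv.symm_apply_apply]
      have h2 := hy (Perm.mem_support.2 h1)
      rw [hK', Finset.mem_map] at h2
      obtain ⟨b', hb', hbb⟩ := h2
      have h3 : e b' = e b := Subtype.ext hbb
      rw [← e.injective h3]
      exact hb'
    · have h1 : e.permCongr (e.symm.permCongr (y.subtypePerm hT)) = y.subtypePerm hT := by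
        ext a
        simp [Equiv.permCongr_apply]
      rw [h1]
      exact Perm.ofSubtype_subtypePerm hT hyT
  have hK'T : K' ⊆ T := by
    intro a ha
    rw [hK', Finset.mem_map] at ha
    obtain ⟨b, _, rfl⟩ := ha
    exact (e b).2
  constructor
  · intro h
    apply Subtype.ext
    refine hW' K' hK'T hK'card (w : V) w.2 (Or.inl ?_)
    rw [mem_inv]
    intro y hy
    obtain ⟨x, hx, hxy⟩ := hback y hy
    have h1 := congrArg Subtype.val (h x hx)
    rw [hσ, hxy] at h1
    exact h1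
  · intro h
    apply Subtype.ext
    refine hW' K' hK'T hK'card (w : V) w.2 (Or.inr ?_)
    rw [mem_inv_tw23]
    intro y hy
    obtain ⟨x, hx, hxy⟩ := hback y hy
    have h1 := congrArg Subtype.val (h x hx)
    rw [hσ, hxy] at h1
    have h2 : Perm.sign y = Perm.sign x := by
      rw [← hxy, Perm.sign_ofSubtype, Perm.sign_permCongr]
    rw [h2]
    exact h1

end Pool.Agent.Helper70.TU
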