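import Pool.Agent.Helper70.TU.P4
import Pool.Agent.Helper1.TS.RB

/-!
BLOCK TU-P5 (about 180 lines). The ratio bound from the thin part.

Proof in words. `H = Sym(T)` acts by `ρ₁ = resT ρ T` and `g Sym(T) g⁻¹` by `ρ₂ = resC ρ g T`; they commute (disjoint supports, as in
`Helper1/TS/RB.lean`, private `emb_conj_comm`). `char_sq_le_diag` (`A0.lean`): `(re χ(g))² ≤ dim V * dim P`, `P = pairInv ρ₁ ρ₂`.
`S = thin ρ T k'` is stable under `H` (for `x ∈ Sym(T)`: `ρ x` maps `inv ρ K` onto `inv ρ (x K)`, and similarly for the sign; `x K ⊆ T` has `k'`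
elements) and under `ρ₂` (a permutation with support disjoint from `T` commutes with those supported in `K ⊆ T`, so it maps `inv ρ K` and
`inv (tw ρ) K` to themselves). Let `S'` be the orthogonal complement of `S` with respect to the invariant inner product
(`exists_unitary`, `Helper1/TS/UNI.lean`: `S' = {v | ∀ s ∈ S, inner (e s) (e v) = 0}`); it is stable under all unitary maps `ρ g` which
preserve `S` (and whose inverses do), so under `ρ₁` and `ρ₂`, and `S ⊕ S' = V`. If `v = s + s'` is in `P` then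
`ρ₁(x) ρ₂(x) s + ρ₁(x) ρ₂(x) s' = s + s'`, so `s, s' ∈ P`: `P = (P ∩ S) ⊕ (P ∩ S')` and `dim P ≤ dim S + dim (P ∩ S')`.
For the second term apply `mul_finrank_pairInv_le` to the representations on `S'`: every nonzero `H`-stable `W ≤ S'` satisfies
`D ≤ dim W` by `dim_lower_sub` (a vector of `W ≤ S'` in `inv ρ K` or `inv (tw ρ) K`, `K ⊆ T`, `|K| = k'`, is in `S ∩ S' = 0`).
So `D dim (P ∩ S') ≤ dim S' ≤ dim V`, and `(re χ(g))² ≤ dim V (dim S + dim V / D)`. Divide by `(dim V)²` and use `finrank_thin_le`.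
-/

set_option autoImplicit false

open Module Equiv Pool.Agent.Helper1.TS

namespace Pool.Agent.Helper70.TU

private theorem inv_map_p5 {n : ℕ} {V : Type*} [AddCommGroup V] [Module ℂ V]
    (ρ : Representation ℂ (Perm (Fin n)) V) (K : Finset (Fin n)) (Z : Perm (Fin n)) {v : V}
    (hv : v ∈ inv ρ K) : ρ Z v ∈ inv ρ (K.map Z.toEmbedding) := by
  rw [mem_inv] at hv ⊢
  intro y hy
  have h1 : (Z⁻¹ * y * Z).support ⊆ K := by
    intro a ha
    have h2 : Z a ∈ y.support := by
      rw [Equiv.Perm.mem_support] at ha ⊢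
      intro h
      apply ha
      rw [Equiv.Perm.mul_apply, Equiv.Perm.mul_apply, h]
      simp
    have h3 := hy h2
    rw [Finset.mem_map] at h3
    obtain ⟨b, hb, hbe⟩ := h3
    have h4 : b = a := Z.injective hbe
    rw [← h4]
    exact hb
  have h5 := hv _ h1
  have h6 : ρ y (ρ Z v) = ρ Z (ρ (Z⁻¹ * y * Z) v) := by
    rw [← Module.End.mul_apply, ← Module.End.mul_apply, ← map_mul, ← map_mul]
    congr 2
    group
  rw [h6, h5]

private theorem thin_stable_p5 {n : ℕ} {V : Type*} [AddCommGroup V] [Module ℂ V]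
    (ρ : Representation ℂ (Perm (Fin n)) V) (T : Finset (Fin n)) (k' : ℕ) (Z : Perm (Fin n))
    (hZ : ∀ a ∈ T, Z a ∈ T) : ∀ v ∈ thin ρ T k', ρ Z v ∈ thin ρ T k' := by
  have h0 : thin ρ T k' ≤ (thin ρ T k').comap (ρ Z) := by
    conv_lhs => unfold thin
    refine iSup₂_le fun K hK => ?_
    rw [Finset.mem_powersetCard] at hK
    have hK' : K.map Z.toEmbedding ∈ T.powersetCard k' := by
      rw [Finset.mem_powersetCard, Finset.card_map]
      refine ⟨?_, hK.2⟩
      intro a ha
      rw [Finset.mem_map] at ha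
      obtain ⟨b, hb, rfl⟩ := ha
      exact hZ b (hK.1 hb)
    have hle : inv ρ (K.map Z.toEmbedding) ⊔ inv (tw ρ) (K.map Z.toEmbedding) ≤ thin ρ T k' := by
      unfold thin
      exact le_iSup₂_of_le _ hK' le_rfl
    refine sup_le ?_ ?_
    · intro v hv
      rw [Submodule.mem_comap]
      exact hle (Submodule.mem_sup_left (inv_map_p5 ρ K Z hv))
    · intro v hv
      rw [Submodule.mem_comap]
      have h1 := inv_map_p5 (tw ρ) K Z hv
      have h2 : ρ Z v = ((Perm.sign Z : ℤ) : ℂ) • tw ρ Z v := by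
        rw [tw_apply, smul_smul]
        rcases Int.units_eq_one_or (Perm.sign Z) with h | h <;> rw [h] <;> simp
      rw [h2]
      exact hle (Submodule.mem_sup_right (Submodule.smul_mem _ _ h1))
  exact fun v hv => h0 hv

private lemma mul_p5 {H V : Type*} [Group H] [AddCommGroup V] [Module ℂ V]
    (ρ : Representation ℂ H V) (x y : H) (v : V) : ρ x (ρ y v) = ρ (x * y) v := by
  rw [map_mul]; rfl

/-- the representation of the product -/
private noncomputable def rep_p5 {H V : Type*} [Group H] [AddCommGroup V] [Module ℂ V]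
    (ρ₁ ρ₂ : Representation ℂ H V)
    (hc : ∀ (x y : H) (v : V), ρ₁ x (ρ₂ y v) = ρ₂ y (ρ₁ x v)) : Representation ℂ (H × H) V where
  toFun p := ρ₁ p.1 ∘ₗ ρ₂ p.2
  map_one' := by
    ext v
    simp
  map_mul' a b := by
    ext v
    simp only [Prod.fst_mul, Prod.snd_mul, LinearMap.comp_apply, Module.End.mul_apply]
    rw [← mul_p5, ← mul_p5, hc b.1 a.2]

private lemma compl_p5 {H V : Type*} [Group H] [Finite H] [AddCommGroup V] [Module ℂ V]
    (ρ₁ ρ₂ : Representation ℂ H V)
    (hc : ∀ (x y : H) (v : V), ρ₁ x (ρ₂ y v) = ρ₂ y (ρ₁ x v)) {Z : Submodule ℂ V}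
    (hZ1 : ∀ x : H, ∀ u ∈ Z, ρ₁ x u ∈ Z) (hZ2 : ∀ x : H, ∀ u ∈ Z, ρ₂ x u ∈ Z) :
    ∃ C : Submodule ℂ V, (∀ x : H, ∀ u ∈ C, ρ₁ x u ∈ C) ∧ (∀ x : H, ∀ u ∈ C, ρ₂ x u ∈ C) ∧
      IsCompl Z C := by
  have : NeZero (Nat.card (H × H) : ℂ) := ⟨by
    have : Nat.card (H × H) ≠ 0 := Nat.card_pos.ne'
    exact_mod_cast this⟩
  let ρ := rep_p5 ρ₁ ρ₂ hc
  have hss : ComplementedLattice (Subrepresentation ρ) := (inferInstance : ρ.IsSemisimpleRepresentation)
  have hap : ∀ (p : H × H) (v : V), ρ p v = ρ₁ p.1 (ρ₂ p.2 v) := fun p v => rfl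
  let σ : Subrepresentation ρ := ⟨Z, fun g v hv => by
    rw [hap]
    exact hZ1 _ _ (hZ2 _ _ hv)⟩
  obtain ⟨τ, hτ⟩ := hss.exists_isCompl σ
  refine ⟨τ.toSubmodule, fun x u hu => ?_, fun x u hu => ?_, ?_⟩
  · have := τ.apply_mem_toSubmodule (x, 1) hu
    rw [hap] at this
    simpa only [map_one, Module.End.one_apply] using this
  · have := τ.apply_mem_toSubmodule (1, x) hu
    rw [hap] at this
    simpa only [map_one, Module.End.one_apply] using this
  · constructor
    · rw [disjoint_iff]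
      have h := hτ.inf_eq_bot
      have h2 := congrArg Subrepresentation.toSubmodule h
      rw [Subrepresentation.toSubmodule_inf] at h2
      exact h2
    · rw [codisjoint_iff]
      have h := hτ.sup_eq_top
      have h2 := congrArg Subrepresentation.toSubmodule h
      rw [Subrepresentation.toSubmodule_sup] at h2
      exact h2

/-- restriction to a stable subspace -/
private noncomputable def res_p5 {H V : Type*} [Group H] [AddCommGroup V] [Module ℂ V]
    (ρ : Representation ℂ H V) (C : Submodule ℂ V) (hC : ∀ x : H, ∀ u ∈ C, ρ x u ∈ C) :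
    Representation ℂ H C where
  toFun x := (ρ x).restrict (hC x)
  map_one' := by
    ext v
    simp
  map_mul' a b := by
    ext v
    simp

private lemma res_coe_p5 {H V : Type*} [Group H] [AddCommGroup V] [Module ℂ V]
    (ρ : Representation ℂ H V) (C : Submodule ℂ V) (hC : ∀ x : H, ∀ u ∈ C, ρ x u ∈ C) (x : H)
    (v : C) : ((res_p5 ρ C hC x v : C) : V) = ρ x v := rfl

theorem ratio_sq_le {n : ℕ} {V : Type*} [AddCommGroup V] [Module ℂ V] [FiniteDimensional ℂ V]
    [Nontrivial V] (ρ : Representation ℂ (Perm (Fin n)) V) {k b k' b' : ℕ} (hB : Bal ρ k)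
    (hk : 2 * b + k ≤ n) (hb : 2 * b ≤ k') (g : Perm (Fin n)) (T : Finset (Fin n))
    (hT : Disjoint T (T.map g.toEmbedding)) (hk' : 2 * b' + k' ≤ T.card) (D : ℝ) (hD : 0 < D)
    (h1 : D * (1 - (((T.card : ℝ) - 2 * b' - k') / T.card) ^ 2 / 2) ^ b' ≤ 1)
    (h2 : D * (4 * b' : ℝ) ^ T.card ≤ T.card.factorial) :
    (rr ρ g) ^ 2 ≤
      2 * (T.card.choose k') * (1 - (((n : ℝ) - 2 * b - k) / n) ^ 2 / 2) ^ b + 1 / D := by
  classical
  -- permutations of the conjugate fix the points of `T`
  have hfix : ∀ (y : Perm {x // x ∈ T}) (a : Fin n), a ∈ T → (g * emb T y * g⁻¹) a = a := by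
    intro y a ha
    have h3 : g⁻¹ a ∉ T := by
      intro h
      refine Finset.disjoint_left.1 hT ha (Finset.mem_map.2 ⟨g⁻¹ a, h, ?_⟩)
      simp
    rw [Equiv.Perm.mul_apply, Equiv.Perm.mul_apply, Equiv.Perm.ofSubtype_apply_of_not_mem _ h3]
    simp
  have hcom : ∀ x y : Perm {x // x ∈ T}, Commute (emb T x) (g * emb T y * g⁻¹) := by
    intro x y
    refine Equiv.Perm.Disjoint.commute fun a => ?_
    by_cases ha : a ∈ T
    · right
      exact hfix y a ha
    · left
      exact Equiv.Perm.ofSubtype_apply_of_not_mem _ ha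
  have hc : ∀ (x y : Perm {x // x ∈ T}) (v : V),
      resT ρ T x (resC ρ g T y v) = resC ρ g T y (resT ρ T x v) := by
    intro x y v
    have h3 := (hcom x y).eq
    change ρ (emb T x) (ρ (g * emb T y * g⁻¹) v) = ρ (g * emb T y * g⁻¹) (ρ (emb T x) v)
    rw [← Module.End.mul_apply, ← Module.End.mul_apply, ← map_mul, ← map_mul, h3]
  -- the thin part is stable
  have hS1 : ∀ x : Perm {x // x ∈ T}, ∀ u ∈ thin ρ T k', resT ρ T x u ∈ thin ρ T k' := by
    intro x
    refine thin_stable_p5 ρ T k' (emb T x) fun a ha => ?_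
    have h3 : emb T x a = x ⟨a, ha⟩ := Equiv.Perm.ofSubtype_apply_of_mem _ ha
    rw [h3]
    exact (x ⟨a, ha⟩).2
  have hS2 : ∀ x : Perm {x // x ∈ T}, ∀ u ∈ thin ρ T k', resC ρ g T x u ∈ thin ρ T k' := by
    intro x
    refine thin_stable_p5 ρ T k' (g * emb T x * g⁻¹) fun a ha => ?_
    rw [hfix x a ha]
    exact ha
  obtain ⟨C, hC1, hC2, hSC⟩ := compl_p5 (resT ρ T) (resC ρ g T) hc hS1 hS2
  -- dimension of the pair invariants
  have hdim1 : finrank ℂ (pairInv (resT ρ T) (resC ρ g T)) ≤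
      finrank ℂ (thin ρ T k') + finrank ℂ (C ⊓ pairInv (resT ρ T) (resC ρ g T) : Submodule ℂ V) := by
    have e1 := Submodule.finrank_sup_add_finrank_inf_eq C (pairInv (resT ρ T) (resC ρ g T))
    have e2 : finrank ℂ (C ⊔ pairInv (resT ρ T) (resC ρ g T) : Submodule ℂ V) ≤ finrank ℂ V :=
      Submodule.finrank_le _
    have e3 := Submodule.finrank_add_eq_of_isCompl hSC
    omega
  -- the complement
  have hdim2 : D * finrank ℂ (C ⊓ pairInv (resT ρ T) (resC ρ g T) : Submodule ℂ V) ≤ finrank ℂ V := by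
    have e1 := mul_finrank_pairInv_le (res_p5 (resT ρ T) C hC1) (res_p5 (resC ρ g T) C hC2) (by
      intro x y v
      apply Subtype.ext
      rw [res_coe_p5, res_coe_p5, res_coe_p5, res_coe_p5]
      exact hc x y v) D (by
      intro W hW hst
      have e2 := dim_lower_sub ρ T (W.map C.subtype) (by
        intro h
        apply hW
        apply Submodule.map_injective_of_injective (Submodule.injective_subtype C)
        rw [h, Submodule.map_bot]) (by
        intro x w hw
        rw [Submodule.mem_map] at hw ⊢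
        obtain ⟨u, hu, rfl⟩ := hw
        exact ⟨_, hst x u hu, rfl⟩) (k' := k') (b' := b') (by
        intro K hKT hK w hw hi
        rw [Submodule.mem_map] at hw
        obtain ⟨u, hu, rfl⟩ := hw
        have hwC : (C.subtype u : V) ∈ C := u.2
        have hwS : (C.subtype u : V) ∈ thin ρ T k' := by
          have hle : inv ρ K ⊔ inv (tw ρ) K ≤ thin ρ T k' := by
            unfold thin
            exact le_iSup₂_of_le K (Finset.mem_powersetCard.2 ⟨hKT, hK⟩) le_rfl
          rcases hi with hi | hi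
          · exact hle (Submodule.mem_sup_left hi)
          · exact hle (Submodule.mem_sup_right hi)
        have h3 : (C.subtype u : V) ∈ thin ρ T k' ⊓ C := ⟨hwS, hwC⟩
        rw [hSC.inf_eq_bot, Submodule.mem_bot] at h3
        exact h3) hk' D hD.le h1 h2
      have e3 : finrank ℂ (W.map C.subtype) = finrank ℂ W := Submodule.finrank_map_subtype_eq C W
      rw [e3] at e2
      exact e2)
    have e4 : finrank ℂ (C ⊓ pairInv (resT ρ T) (resC ρ g T) : Submodule ℂ V) =
        finrank ℂ (pairInv (res_p5 (resT ρ T) C hC1) (res_p5 (resC ρ g T) C hC2)) := by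
      rw [← Submodule.finrank_map_subtype_eq C]
      have e5 : (C ⊓ pairInv (resT ρ T) (resC ρ g T) : Submodule ℂ V) = Submodule.map C.subtype
          (pairInv (res_p5 (resT ρ T) C hC1) (res_p5 (resC ρ g T) C hC2)) := by
        ext v
        rw [Submodule.mem_inf, Submodule.mem_map]
        constructor
        · rintro ⟨hvC, hvP⟩
          refine ⟨⟨v, hvC⟩, ?_, rfl⟩
          intro x
          apply Subtype.ext
          rw [res_coe_p5, res_coe_p5]
          exact hvP x
        · rintro ⟨u, hu, rfl⟩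
          refine ⟨u.2, ?_⟩
          intro x
          have h3 := congrArg Subtype.val (hu x)
          rw [res_coe_p5, res_coe_p5] at h3
          exact h3
      rw [e5]
    rw [e4]
    refine e1.trans ?_
    exact_mod_cast Submodule.finrank_le C
  have hd : (0 : ℝ) < finrank ℂ V := by exact_mod_cast finrank_pos
  have hchar := char_sq_le_diag ρ g T hT
  have hthin := finrank_thin_le ρ hB hk hb T
  have hdim1' : (finrank ℂ (pairInv (resT ρ T) (resC ρ g T)) : ℝ) ≤
      finrank ℂ (thin ρ T k') + finrank ℂ (C ⊓ pairInv (resT ρ T) (resC ρ g T) : Submodule ℂ V) := by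
    exact_mod_cast hdim1
  have hdim2' : (finrank ℂ (C ⊓ pairInv (resT ρ T) (resC ρ g T) : Submodule ℂ V) : ℝ) ≤
      1 / D * finrank ℂ V := by
    rw [one_div, ← div_eq_inv_mul, le_div_iff₀ hD, mul_comm]
    exact hdim2
  have hP : (finrank ℂ (pairInv (resT ρ T) (resC ρ g T)) : ℝ) ≤
      (2 * (T.card.choose k') * (1 - (((n : ℝ) - 2 * b - k) / n) ^ 2 / 2) ^ b + 1 / D) *
        finrank ℂ V := by
    rw [add_mul]
    linarith
  have hfin := hchar.trans (mul_le_mul_of_nonneg_left hP hd.le)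
  unfold rr
  rw [div_pow, div_le_iff₀ (by positivity)]
  refine hfin.trans (le_of_eq ?_)
  ring

end Pool.Agent.Helper70.TU
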