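import Pool.Agent.Helper70.TU.P5
import Pool.Agent.Helper1.TS.TEX

/-!
BLOCK TU-P6 (about 200 lines). Permutations of large support: numerical consequences of `ratio_sq_le`.

Proof in words. `T` from `exists_disjoint_image g`, `t = |T|`, `t ≥ s/3 ≥ c n/3`, `t ≤ n`. WLOG `c ≤ 1`. Choose `ε' ∈ (0, 1/8)` depending on
`ε, c` (below), `β = min ε c / 16`. Put `k' = ⌊(1-ε') t⌋`, `b = ⌊β n⌋`, `b' = ⌊ε' t/8⌋`.
* `2b + k ≤ 2 β n + (1-ε) n ≤ n` and `(n - 2b - k)/n ≥ ε - 2β ≥ ε/2`, so the base is `≤ 1 - ε²/8`; `(1 - ε²/8)^b ≤ exp(-ε² b/8) ≤ 2 exp(-ε² β n/8)`.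
* `2b ≤ 2 β n ≤ c n/8 ≤ k'` for large `n` (`k' ≥ (1-ε')t - 1 ≥ t/2 ≥ c n/6`).
* `t - k' ≥ ε' t`, `2 b' ≤ ε' t/4`, so `2b' + k' ≤ t` and `(t - 2b' - k')/t ≥ ε'/2`: base `≤ 1 - ε'²/8`.
* `D = exp(η' t)` with `η' = min (ε'^3/128) (log 2)` and `t` large: `(1-ε'²/8)^{b'} ≤ exp(-ε'² b'/8) ≤ exp(- ε'^3 t/128)` (`b' ≥ ε' t/16` for large
  `t`), and `t!/(4b')^t ≥ (t/3)^t / (ε' t/2)^t ≥ 2^t` (`t! ≥ (t/3)^t`, `2/(3 ε') ≥ 2`).
* `C(t,k') = C(t, t-k')`, `j = t - k' ∈ [ε' t, ε' t + 1]`, `C(t,j) ≤ t^j/j! ≤ (3t/j)^j ≤ (3/ε')^{ε' t + 1} ≤ (3/ε') exp(ε' log(3/ε') n)`; choose `ε'` with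
  `ε' log(3/ε') ≤ ε² β/16`.
So `rr² ≤ 4 (3/ε') exp(-ε² β n/16) + exp(-η' c n/3)`, which is `≤ exp(-2 η n)` for a small `η > 0` and all large `n`.
-/

set_option autoImplicit false

open Module Equiv Pool.Agent.Helper1.TS

namespace Pool.Agent.Helper70.TU

/-- the base of the power -/
private lemma base_p6 (x e : ℝ) (b : ℕ) (he : 0 ≤ e) (hx : e ≤ x) (hx1 : x ≤ 1) :
    (1 - x ^ 2 / 2) ^ b ≤ Real.exp (-(e ^ 2 / 2 * b)) := by
  have h0 : 0 ≤ 1 - x ^ 2 / 2 := by nlinarith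
  have h1 : 1 - x ^ 2 / 2 ≤ Real.exp (-(e ^ 2 / 2)) := by
    have h2 := Real.add_one_le_exp (-(e ^ 2 / 2))
    have h3 : e ^ 2 ≤ x ^ 2 := pow_le_pow_left₀ he hx 2
    linarith
  calc (1 - x ^ 2 / 2) ^ b ≤ (Real.exp (-(e ^ 2 / 2))) ^ b := pow_le_pow_left₀ h0 h1 b
    _ = Real.exp (-(e ^ 2 / 2 * b)) := by
      rw [← Real.exp_nat_mul]
      congr 1
      ring

/-- `t ^ t ≤ e ^ t t!` -/
private lemma fact_p6 (t : ℕ) : ((t : ℝ)) ^ t ≤ Real.exp t * t.factorial := by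
  have h := Real.pow_div_factorial_le_exp (t : ℝ) (Nat.cast_nonneg t) t
  have h2 : (0 : ℝ) < t.factorial := by exact_mod_cast t.factorial_pos
  rwa [div_le_iff₀ h2] at h

private lemma choose_p6 (t j : ℕ) (a : ℝ) (ha : 0 < a) (ha1 : a ≤ 1) (h1 : a * t ≤ j) (h2 : (j : ℝ) ≤ a * t + 1) :
    ((t.choose j : ℕ) : ℝ) ≤ Real.exp (1 - Real.log a) * Real.exp (a * (1 - Real.log a) * t) := by
  have hj : (0 : ℝ) < j.factorial := by exact_mod_cast j.factorial_pos
  have e1 : ((t.choose j : ℕ) : ℝ) ≤ (t : ℝ) ^ j / j.factorial := Nat.choose_le_pow_div j t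
  have e2 : (t : ℝ) ≤ j / a := by
    rw [le_div_iff₀ ha]
    linarith
  have e3 : (t : ℝ) ^ j ≤ (j / a) ^ j := pow_le_pow_left₀ (Nat.cast_nonneg t) e2 j
  have e4 : (t : ℝ) ^ j / j.factorial ≤ (1 / a) ^ j * Real.exp j := by
    rw [div_le_iff₀ hj]
    calc (t : ℝ) ^ j ≤ (j / a) ^ j := e3
      _ = (1 / a) ^ j * (j : ℝ) ^ j := by
        rw [← mul_pow]
        congr 1
        ring
      _ ≤ (1 / a) ^ j * (Real.exp j * j.factorial) := by
        refine mul_le_mul_of_nonneg_left (fact_p6 j) (by positivity)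
      _ = (1 / a) ^ j * Real.exp j * j.factorial := by ring
  have e5 : (1 / a) ^ j * Real.exp j = Real.exp ((1 - Real.log a) * j) := by
    have : (1 / a : ℝ) = Real.exp (-Real.log a) := by
      rw [Real.exp_neg, Real.exp_log ha, one_div]
    rw [this, ← Real.exp_nat_mul, ← Real.exp_add]
    congr 1
    ring
  have hL : 0 ≤ 1 - Real.log a := by
    have := Real.log_nonpos ha.le ha1
    linarith
  calc ((t.choose j : ℕ) : ℝ) ≤ Real.exp ((1 - Real.log a) * j) := by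
        rw [← e5]
        exact e1.trans e4
    _ ≤ Real.exp ((1 - Real.log a) * (a * t + 1)) :=
        Real.exp_le_exp.2 (mul_le_mul_of_nonneg_left h2 hL)
    _ = Real.exp (1 - Real.log a) * Real.exp (a * (1 - Real.log a) * t) := by
        rw [← Real.exp_add]
        congr 1
        ring

/-- the choice of the small parameter -/
private lemma param_p6 (d : ℝ) (hd : 0 < d) : ∃ a : ℝ, 0 < a ∧ a ≤ 1 / 8 ∧ a * (1 - Real.log a) ≤ d := by
  set u := min (1 / 3 : ℝ) (d / 3) with hu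
  have hu0 : 0 < u := lt_min (by norm_num) (by linarith)
  have hu1 : u ≤ 1 / 3 := min_le_left _ _
  have hu2 : u ≤ d / 3 := min_le_right _ _
  refine ⟨u ^ 2, by positivity, by nlinarith, ?_⟩
  have h1 : Real.log (u ^ 2) = 2 * Real.log u := by
    rw [Real.log_pow]
    norm_num
  have h2 : -Real.log u ≤ 1 / u - 1 := by
    rw [← Real.log_inv]
    have := Real.log_le_sub_one_of_pos (inv_pos.2 hu0)
    rw [one_div]
    exact this
  have h3 : u ^ 2 * (-Real.log u) ≤ u := by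
    calc u ^ 2 * (-Real.log u) ≤ u ^ 2 * (1 / u - 1) := mul_le_mul_of_nonneg_left h2 (by positivity)
      _ = u - u ^ 2 := by field_simp
      _ ≤ u := by nlinarith
  rw [h1]
  nlinarith

theorem large_support (ε c : ℝ) (hε : 0 < ε) (hε1 : ε < 1) (hc : 0 < c) :
    ∃ η : ℝ, 0 < η ∧ ∃ N : ℕ, ∀ n ≥ N, ∀ k : ℕ, (k : ℝ) ≤ (1 - ε) * n →
      ∀ (V : Type) [AddCommGroup V] [Module ℂ V] [FiniteDimensional ℂ V] [Nontrivial V]
        (ρ : Representation ℂ (Perm (Fin n)) V), Bal ρ k →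
        ∀ g : Perm (Fin n), c * n ≤ g.support.card → |rr ρ g| ≤ Real.exp (-(η * n)) := by
  -- parameters
  set c₁ : ℝ := min c 1 with hc₁
  have hc0 : 0 < c₁ := lt_min hc one_pos
  have hc1 : c₁ ≤ 1 := min_le_right _ _
  have hcc : c₁ ≤ c := min_le_left _ _
  set β : ℝ := min ε c₁ / 16 with hβ
  have hβ0 : 0 < β := by
    have := lt_min hε hc0
    positivity
  have hβε : 16 * β ≤ ε := by
    have := min_le_left ε c₁
    rw [hβ]
    linarith
  have hβc : 16 * β ≤ c₁ := by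
    have := min_le_right ε c₁
    rw [hβ]
    linarith
  have hd : 0 < ε ^ 2 * β / 16 := by positivity
  obtain ⟨a, ha0, ha8, had⟩ := param_p6 (ε ^ 2 * β / 16) hd
  set L : ℝ := 1 - Real.log a with hL
  set η' : ℝ := min (a ^ 3 / 128) (Real.log 2) with hη'
  have hη0 : 0 < η' := lt_min (by positivity) (Real.log_pos (by norm_num))
  have hη1 : η' ≤ a ^ 3 / 128 := min_le_left _ _
  have hη2 : η' ≤ Real.log 2 := min_le_right _ _
  set κ : ℝ := min (ε ^ 2 * β / 16) (η' * c₁ / 3) with hκ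
  have hκ0 : 0 < κ := lt_min hd (by positivity)
  have hκ1 : κ ≤ ε ^ 2 * β / 16 := min_le_left _ _
  have hκ2 : κ ≤ η' * c₁ / 3 := min_le_right _ _
  set A : ℝ := 4 * Real.exp L + 1 with hA
  have hA0 : 0 < A := by positivity
  refine ⟨κ / 4, by positivity, ⌈6 / c₁ + 48 / (a * c₁) + 2 * A / κ⌉₊ + 1, ?_⟩
  intro n hn k hk V _ _ _ _ ρ hB g hg
  have hnR : 6 / c₁ + 48 / (a * c₁) + 2 * A / κ ≤ (n : ℝ) := by
    have h1 := Nat.le_ceil (6 / c₁ + 48 / (a * c₁) + 2 * A / κ)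
    have h2 : ((⌈6 / c₁ + 48 / (a * c₁) + 2 * A / κ⌉₊ + 1 : ℕ) : ℝ) ≤ (n : ℝ) := by exact_mod_cast hn
    push_cast at h2
    linarith
  have hp1 : 0 < 6 / c₁ := by positivity
  have hp2 : 0 < 48 / (a * c₁) := by positivity
  have hp3 : 0 < 2 * A / κ := by positivity
  have hn1 : 6 ≤ c₁ * n := by
    have : 6 / c₁ ≤ (n : ℝ) := by linarith
    rw [div_le_iff₀ hc0] at this
    linarith
  have hn2 : 48 ≤ a * c₁ * n := by
    have : 48 / (a * c₁) ≤ (n : ℝ) := by linarith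
    rw [div_le_iff₀ (by positivity)] at this
    linarith
  have hn3 : A ≤ κ * n / 2 := by
    have : 2 * A / κ ≤ (n : ℝ) := by linarith
    rw [div_le_iff₀ hκ0] at this
    linarith
  have hn0 : (0 : ℝ) < n := by linarith
  -- the set `T`
  obtain ⟨T, hT, hTc⟩ := exists_disjoint_image g
  set t : ℕ := T.card with ht
  have htn : (t : ℝ) ≤ n := by
    have : t ≤ n := by
      rw [ht]
      exact (Finset.card_le_univ T).trans (by simp)
    exact_mod_cast this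
  have htc : c₁ * n ≤ 3 * t := by
    have h1 : (g.support.card : ℝ) ≤ 3 * t := by exact_mod_cast hTc
    have h2 : c₁ * n ≤ c * n := mul_le_mul_of_nonneg_right hcc hn0.le
    linarith
  have ht0 : (0 : ℝ) < t := by linarith
  have hat : 16 ≤ a * t := by
    have := mul_le_mul_of_nonneg_left htc ha0.le
    linarith
  have hat8 : a * t ≤ 1 / 8 * t := mul_le_mul_of_nonneg_right ha8 ht0.le
  have hεn : 0 ≤ ε * n := by positivity
  -- the integers
  set b : ℕ := ⌊β * n⌋₊ with hb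
  set k' : ℕ := ⌊(1 - a) * t⌋₊ with hk'
  set b' : ℕ := ⌊a * t / 8⌋₊ with hb'
  have hb1 : (b : ℝ) ≤ β * n := Nat.floor_le (by positivity)
  have hb2 : β * n < b + 1 := Nat.lt_floor_add_one _
  have hk1 : (k' : ℝ) ≤ (1 - a) * t := Nat.floor_le (mul_nonneg (by linarith) ht0.le)
  have hk2 : (1 - a) * t < k' + 1 := Nat.lt_floor_add_one _
  have hb'1 : (b' : ℝ) ≤ a * t / 8 := Nat.floor_le (by positivity)
  have hb'2 : a * t / 8 < b' + 1 := Nat.lt_floor_add_one _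
  have hbn : (0 : ℝ) ≤ b := Nat.cast_nonneg _
  have hkn : (0 : ℝ) ≤ k := Nat.cast_nonneg _
  have hb'n : (0 : ℝ) ≤ b' := Nat.cast_nonneg _
  have hk'n : (0 : ℝ) ≤ k' := Nat.cast_nonneg _
  have hβn : 16 * (β * n) ≤ ε * n := by
    have := mul_le_mul_of_nonneg_right hβε hn0.le
    linarith
  have hβn' : 16 * (β * n) ≤ c₁ * n := by
    have := mul_le_mul_of_nonneg_right hβc hn0.le
    linarith
  have H1 : 2 * b + k ≤ n := by
    have : (2 * b + k : ℝ) ≤ n := by linarith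
    exact_mod_cast this
  have H2 : 2 * b ≤ k' := by
    have : (2 * b : ℝ) ≤ k' := by linarith
    exact_mod_cast this
  have H3 : 2 * b' + k' ≤ t := by
    have : (2 * b' + k' : ℝ) ≤ t := by linarith
    exact_mod_cast this
  -- the two bases
  have x1 : ε / 2 ≤ ((n : ℝ) - 2 * b - k) / n := by
    rw [le_div_iff₀ hn0]
    linarith
  have x2 : ((n : ℝ) - 2 * b - k) / n ≤ 1 := by
    rw [div_le_one hn0]
    linarith
  have y1 : a / 2 ≤ ((t : ℝ) - 2 * b' - k') / t := by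
    rw [le_div_iff₀ ht0]
    linarith
  have y2 : ((t : ℝ) - 2 * b' - k') / t ≤ 1 := by
    rw [div_le_one ht0]
    linarith
  have B1 := base_p6 _ (ε / 2) b (by positivity) x1 x2
  have B2 := base_p6 _ (a / 2) b' (by positivity) y1 y2
  -- the number `D`
  have hD : 0 < Real.exp (η' * t) := Real.exp_pos _
  have D1 : Real.exp (η' * t) * (1 - (((t : ℝ) - 2 * b' - k') / t) ^ 2 / 2) ^ b' ≤ 1 := by
    calc Real.exp (η' * t) * (1 - (((t : ℝ) - 2 * b' - k') / t) ^ 2 / 2) ^ b'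
        ≤ Real.exp (η' * t) * Real.exp (-((a / 2) ^ 2 / 2 * b')) := mul_le_mul_of_nonneg_left B2 hD.le
      _ = Real.exp (η' * t + -((a / 2) ^ 2 / 2 * b')) := by rw [Real.exp_add]
      _ ≤ Real.exp 0 := by
        refine Real.exp_le_exp.2 ?_
        have h1 : a * t / 16 ≤ b' := by linarith
        have h2 : (a / 2) ^ 2 / 2 * (a * t / 16) ≤ (a / 2) ^ 2 / 2 * b' :=
          mul_le_mul_of_nonneg_left h1 (by positivity)
        have h3 : η' * t ≤ a ^ 3 / 128 * t := mul_le_mul_of_nonneg_right hη1 ht0.le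
        have h4 : (a / 2) ^ 2 / 2 * (a * t / 16) = a ^ 3 / 128 * t := by ring
        linarith
      _ = 1 := Real.exp_zero
  have D2 : Real.exp (η' * t) * (4 * b' : ℝ) ^ t ≤ t.factorial := by
    have h1 : Real.exp (η' * t) ≤ 2 ^ t := by
      calc Real.exp (η' * t) ≤ Real.exp (t * Real.log 2) := by
            refine Real.exp_le_exp.2 ?_
            have := mul_le_mul_of_nonneg_right hη2 ht0.le
            linarith
        _ = 2 ^ t := by
            rw [Real.exp_nat_mul, Real.exp_log (by norm_num)]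
    have h2 : (4 * b' : ℝ) ≤ t / 6 := by linarith
    have h3 : (4 * b' : ℝ) ^ t ≤ (t / 6 : ℝ) ^ t := pow_le_pow_left₀ (by positivity) h2 t
    have h4 : Real.exp t ≤ 3 ^ t := by
      have h5 : Real.exp 1 ≤ 3 := by
        have := Real.exp_one_lt_d9
        linarith
      calc Real.exp t = Real.exp 1 ^ t := by rw [← Real.exp_nat_mul, mul_one]
        _ ≤ 3 ^ t := pow_le_pow_left₀ (Real.exp_pos _).le h5 t
    have hf : (0 : ℝ) ≤ t.factorial := Nat.cast_nonneg _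
    calc Real.exp (η' * t) * (4 * b' : ℝ) ^ t ≤ 2 ^ t * (t / 6 : ℝ) ^ t :=
          mul_le_mul h1 h3 (by positivity) (by positivity)
      _ = (t : ℝ) ^ t / 3 ^ t := by
          rw [← mul_pow, ← div_pow]
          congr 1
          ring
      _ ≤ (Real.exp t * t.factorial) / 3 ^ t := by
          exact div_le_div_of_nonneg_right (fact_p6 t) (by positivity)
      _ ≤ (3 ^ t * t.factorial) / 3 ^ t := by
          exact div_le_div_of_nonneg_right (mul_le_mul_of_nonneg_right h4 hf) (by positivity)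
      _ = t.factorial := by field_simp
  have main := ratio_sq_le ρ hB H1 H2 g T hT H3 (Real.exp (η' * t)) hD D1 D2
  -- the binomial coefficient
  have hkt : k' ≤ t := by omega
  have C1 : ((t.choose k' : ℕ) : ℝ) ≤ Real.exp L * Real.exp (a * L * t) := by
    rw [← Nat.choose_symm hkt]
    refine choose_p6 t (t - k') a ha0 (by linarith) ?_ ?_
    · rw [Nat.cast_sub hkt]
      linarith
    · rw [Nat.cast_sub hkt]
      linarith
  have C2 : Real.exp (a * L * t) ≤ Real.exp (ε ^ 2 * β / 16 * n) := by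
    refine Real.exp_le_exp.2 ?_
    have h1 : a * L * t ≤ ε ^ 2 * β / 16 * t := mul_le_mul_of_nonneg_right had ht0.le
    have h2 : ε ^ 2 * β / 16 * t ≤ ε ^ 2 * β / 16 * n := mul_le_mul_of_nonneg_left htn hd.le
    linarith
  have C3 : (1 - (((n : ℝ) - 2 * b - k) / n) ^ 2 / 2) ^ b ≤ 2 * Real.exp (-(ε ^ 2 * β / 8 * n)) := by
    refine B1.trans ?_
    have h1 : Real.exp (-((ε / 2) ^ 2 / 2 * b)) ≤ Real.exp (ε ^ 2 / 8 + -(ε ^ 2 * β / 8 * n)) := by
      refine Real.exp_le_exp.2 ?_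
      have h2 : ε ^ 2 / 8 * (β * n - 1) ≤ ε ^ 2 / 8 * b := mul_le_mul_of_nonneg_left (by linarith) (by positivity)
      have h3 : (ε / 2) ^ 2 / 2 * b = ε ^ 2 / 8 * b := by ring
      rw [h3]
      linarith
    refine h1.trans ?_
    rw [Real.exp_add]
    refine mul_le_mul_of_nonneg_right ?_ (Real.exp_pos _).le
    have h4 : ε ^ 2 / 8 ≤ 1 / 2 := by
      have : ε ^ 2 ≤ 1 := pow_le_one₀ hε.le hε1.le
      linarith
    have h5 : Real.exp (1 / 2) ≤ 2 := by
      have h6 : Real.exp (1 / 2) ^ 2 ≤ 2 ^ 2 := by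
        rw [← Real.exp_nat_mul]
        have := Real.exp_one_lt_d9
        norm_num
        linarith
      exact le_of_sq_le_sq h6 (by norm_num)
    exact (Real.exp_le_exp.2 h4).trans h5
  have hbase0 : 0 ≤ (1 - (((n : ℝ) - 2 * b - k) / n) ^ 2 / 2) ^ b := by
    refine pow_nonneg ?_ _
    have h1 : 0 ≤ ((n : ℝ) - 2 * b - k) / n := le_trans (by positivity) x1
    have h2 : (((n : ℝ) - 2 * b - k) / n) ^ 2 ≤ 1 := pow_le_one₀ h1 x2
    linarith
  have C4 : 2 * ((t.choose k' : ℕ) : ℝ) * (1 - (((n : ℝ) - 2 * b - k) / n) ^ 2 / 2) ^ b ≤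
      4 * Real.exp L * Real.exp (-(κ * n)) := by
    have h1 : ((t.choose k' : ℕ) : ℝ) ≤ Real.exp L * Real.exp (ε ^ 2 * β / 16 * n) :=
      C1.trans (mul_le_mul_of_nonneg_left C2 (Real.exp_pos _).le)
    calc 2 * ((t.choose k' : ℕ) : ℝ) * (1 - (((n : ℝ) - 2 * b - k) / n) ^ 2 / 2) ^ b
        ≤ 2 * (Real.exp L * Real.exp (ε ^ 2 * β / 16 * n)) * (2 * Real.exp (-(ε ^ 2 * β / 8 * n))) := by
          refine mul_le_mul (mul_le_mul_of_nonneg_left h1 (by norm_num)) C3 hbase0 (by positivity)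
      _ = 4 * Real.exp L * (Real.exp (ε ^ 2 * β / 16 * n) * Real.exp (-(ε ^ 2 * β / 8 * n))) := by ring
      _ = 4 * Real.exp L * Real.exp (-(ε ^ 2 * β / 16 * n)) := by
          rw [← Real.exp_add]
          congr 2
          ring
      _ ≤ 4 * Real.exp L * Real.exp (-(κ * n)) := by
          refine mul_le_mul_of_nonneg_left (Real.exp_le_exp.2 ?_) (by positivity)
          have := mul_le_mul_of_nonneg_right hκ1 hn0.le
          linarith
  have C5 : 1 / Real.exp (η' * t) ≤ Real.exp (-(κ * n)) := by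
    rw [one_div, ← Real.exp_neg]
    refine Real.exp_le_exp.2 ?_
    have h1 : κ * n ≤ η' * c₁ / 3 * n := mul_le_mul_of_nonneg_right hκ2 hn0.le
    have h2 : η' * (c₁ * n) ≤ η' * (3 * t) := mul_le_mul_of_nonneg_left htc hη0.le
    linarith
  have C6 : (rr ρ g) ^ 2 ≤ A * Real.exp (-(κ * n)) := by
    rw [hA, add_mul, one_mul]
    linarith
  have C7 : A ≤ Real.exp (κ * n / 2) := by
    have := Real.add_one_le_exp (κ * n / 2)
    linarith
  have C8 : (rr ρ g) ^ 2 ≤ Real.exp (-(κ / 4 * n)) ^ 2 := by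
    calc (rr ρ g) ^ 2 ≤ A * Real.exp (-(κ * n)) := C6
      _ ≤ Real.exp (κ * n / 2) * Real.exp (-(κ * n)) := mul_le_mul_of_nonneg_right C7 (Real.exp_pos _).le
      _ = Real.exp (-(κ / 4 * n)) ^ 2 := by
        rw [← Real.exp_add, ← Real.exp_nat_mul]
        congr 1
        push_cast
        ring
  exact abs_le_of_sq_le_sq C8 (Real.exp_pos _).le

end Pool.Agent.Helper70.TU
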