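import Pool.Agent.Helper70.TU.P6
import Pool.Agent.Helper1.TS.BD

/-!
BLOCK TU-P7 (about 200 lines). Roichman's bound: `|r(g)| ≤ q^(|supp g|)`.

Proof in words (compare `Helper1/TS/BD.lean`, which does this with explicit constants). Put `c = 1/8100`, `η` and `N₀` from
`large_support ε c`. Let `s = |supp g|`; `g = 1` is clear (`|rr ρ 1| ≤ 1`), so `s ≥ 1`.
* case `s ≥ c n`: `|rr ρ g| ≤ exp(-η n) ≤ exp(-η s)`.
* case `s < c n`: let `j` be minimal with `W = j s ≥ 2 c n`; then `j ≥ 1`, `W < 2cn + s < 3 c n`. `u = ⌊3W/4⌋`. By `walk_perm`: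
  `|rr g|^j (n!)^j ≤ ∑_y |rr (prodY g y)| ≤ #{y | |unionY| ≤ u} * 1 + (n!)^j * exp(-η n)`: if `|unionY| > u`, so `4 |unionY| > 3W`
  (`|unionY| ≥ u + 1 > 3W/4`), the product `h` has support `≥ 2|unionY| - W > W/2 ≥ c n` (`support_prod`) and `large_support` applies.
  `#{..}/(n!)^j ≤ C(n,u) (u/n)^W ≤ (3n/u)^u (u/n)^W = 3^u (u/n)^{W-u}` (`card_small_union`; `u ≥ 1` for large `n`; if `u = 0` the number
  is `0` or treat separately), `u ≤ 3(W-u)`, so it is `≤ (27 u/n)^{W-u}`, `27 u/n ≤ 27 * 3/4 * 3 c ≤ 1/100`, `W - u ≥ W/4`: `≤ 10^{-W/2} ≤ exp(-W)`.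
  And `exp(-η n) ≤ exp(-η W)` (`W < 3cn ≤ n`). So `|rr g|^j ≤ 2 exp(-η₁ W)`, `η₁ = min η 1`. As `W ≥ 2 c n`, `2 ≤ exp(η₁ W/2)` for `n` large, so
  `|rr g|^j ≤ exp(-η₁ j s/2)` and `|rr g| ≤ exp(-η₁ s/2)`. Put `q = exp(-η₁/2)`.
-/

set_option autoImplicit false

open Module Equiv Pool.Agent.Helper1.TS

namespace Pool.Agent.Helper70.TU

private lemma bd_pow_le_h99 (m : ℕ) : (m : ℝ) ^ m ≤ 3 ^ m * (m.factorial : ℝ) := by
  have h1 := Real.pow_div_factorial_le_exp (m : ℝ) (Nat.cast_nonneg m) m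
  have hf : (0 : ℝ) < (m.factorial : ℝ) := by exact_mod_cast m.factorial_pos
  rw [div_le_iff₀ hf] at h1
  refine h1.trans (mul_le_mul_of_nonneg_right ?_ hf.le)
  have h2 : Real.exp (m : ℝ) = Real.exp 1 ^ m := by
    rw [← Real.exp_nat_mul, mul_one]
  rw [h2]
  refine pow_le_pow_left₀ (Real.exp_pos 1).le ?_ m
  have := Real.exp_one_lt_d9
  linarith

private lemma bd_nontrivial_h99 {G V : Type*} [Group G] [AddCommGroup V] [Module ℂ V]
    (ρ : Representation ℂ G V) [ρ.IsIrreducible] : Nontrivial V :=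
  (IsSimpleModule.nontrivial (MonoidAlgebra ℂ G) ρ.asModule : Nontrivial ρ.asModule)

private lemma bd_rr_le_one_h99 {G V : Type*} [Group G] [Finite G] [AddCommGroup V] [Module ℂ V]
    [FiniteDimensional ℂ V] (ρ : Representation ℂ G V) (g : G) : |rr ρ g| ≤ 1 := by
  unfold rr
  rw [abs_div]
  have h1 : |(ρ.character g).re| ≤ finrank ℂ V :=
    (Complex.abs_re_le_norm _).trans (norm_char_le ρ g)
  have h2 : |((finrank ℂ V : ℕ) : ℝ)| = finrank ℂ V := abs_of_nonneg (Nat.cast_nonneg _)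
  rw [h2]
  exact div_le_one_of_le₀ h1 (Nat.cast_nonneg _)

private lemma bd_choose_h99 {n u W : ℕ} (hn : 0 < n) (hW : 8100 * W < 3 * n)
    (hu : 4 * u ≤ 3 * W) :
    (n.choose u : ℝ) * ((u : ℝ) / n) ^ W ≤ Real.exp (-(W : ℝ)) := by
  have hn' : (0 : ℝ) < n := by exact_mod_cast hn
  have hf : (0 : ℝ) < (u.factorial : ℝ) := by exact_mod_cast u.factorial_pos
  have huW : u ≤ W := by omega
  have h1 : (n.choose u : ℝ) ≤ (n : ℝ) ^ u / (u.factorial : ℝ) := by
    exact_mod_cast Nat.choose_le_pow_div (α := ℝ) u n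
  have h2 : ((u : ℝ) / n) ^ W = ((u : ℝ) / n) ^ u * ((u : ℝ) / n) ^ (W - u) := by
    rw [← pow_add]
    congr 1
    omega
  have h3 : (4 * (u : ℝ)) ≤ 3 * W := by exact_mod_cast hu
  have h4 : (8100 : ℝ) * W < 3 * n := by exact_mod_cast hW
  have h27 : (27 * (u : ℝ) / n) ≤ Real.exp (-4) := by
    have he : (1 : ℝ) / 100 ≤ Real.exp (-4) := by
      rw [Real.exp_neg, one_div]
      refine inv_anti₀ (Real.exp_pos 4) ?_
      have h5 : Real.exp 4 = Real.exp 1 ^ 4 := by
        rw [← Real.exp_nat_mul]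
        norm_num
      rw [h5]
      have h6 : Real.exp 1 ≤ 3 := by
        have := Real.exp_one_lt_d9
        linarith
      calc Real.exp 1 ^ 4 ≤ 3 ^ 4 := pow_le_pow_left₀ (Real.exp_pos 1).le h6 4
        _ ≤ 100 := by norm_num
    refine le_trans ?_ he
    rw [div_le_iff₀ hn']
    linarith
  calc (n.choose u : ℝ) * ((u : ℝ) / n) ^ W
      ≤ ((n : ℝ) ^ u / (u.factorial : ℝ)) * ((u : ℝ) / n) ^ W :=
        mul_le_mul_of_nonneg_right h1 (by positivity)
    _ = ((u : ℝ) ^ u / (u.factorial : ℝ)) * ((u : ℝ) / n) ^ (W - u) := by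
        rw [h2, div_pow (u : ℝ) (n : ℝ) u]
        field_simp
    _ ≤ (3 : ℝ) ^ u * ((u : ℝ) / n) ^ (W - u) := by
        refine mul_le_mul_of_nonneg_right ?_ (by positivity)
        rw [div_le_iff₀ hf]
        exact bd_pow_le_h99 u
    _ ≤ (3 : ℝ) ^ (3 * (W - u)) * ((u : ℝ) / n) ^ (W - u) := by
        refine mul_le_mul_of_nonneg_right ?_ (by positivity)
        exact pow_le_pow_right₀ (by norm_num) (by omega)
    _ = (27 * (u : ℝ) / n) ^ (W - u) := by
        rw [pow_mul, ← mul_pow]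
        congr 1
        ring
    _ ≤ Real.exp (-4) ^ (W - u) := pow_le_pow_left₀ (by positivity) h27 _
    _ = Real.exp (((W - u : ℕ) : ℝ) * (-4)) := by rw [← Real.exp_nat_mul]
    _ ≤ Real.exp (-(W : ℝ)) := by
        refine Real.exp_le_exp.2 ?_
        rw [Nat.cast_sub huW]
        linarith

theorem roichman (ε : ℝ) (hε : 0 < ε) (hε1 : ε < 1) :
    ∃ q : ℝ, 0 < q ∧ q < 1 ∧ ∃ N : ℕ, ∀ n ≥ N, ∀ k : ℕ, (k : ℝ) ≤ (1 - ε) * n →
      ∀ (V : Type) [AddCommGroup V] [Module ℂ V] [FiniteDimensional ℂ V]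
        (ρ : Representation ℂ (Perm (Fin n)) V) [ρ.IsIrreducible], Bal ρ k →
        ∀ g : Perm (Fin n), |rr ρ g| ≤ q ^ g.support.card := by
  classical
  obtain ⟨η, hη, N₀, hls⟩ := large_support ε (1 / 8100) hε hε1 (by norm_num)
  set η₁ : ℝ := min η 1 with hη₁
  have hη₁0 : 0 < η₁ := lt_min hη one_pos
  have hη₁η : η₁ ≤ η := min_le_left _ _
  have hη₁1 : η₁ ≤ 1 := min_le_right _ _
  refine ⟨Real.exp (-(η₁ / 2)), Real.exp_pos _, Real.exp_lt_one_iff.2 (by linarith),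
    max N₀ ⌈8100 / η₁⌉₊, ?_⟩
  intro n hnN k hk V _ _ _ ρ _ hB g
  have hnN₀ : N₀ ≤ n := (le_max_left _ _).trans hnN
  have hnη : 8100 / η₁ ≤ (n : ℝ) := by
    refine (Nat.le_ceil _).trans ?_
    exact_mod_cast (le_max_right _ _).trans hnN
  have hnη' : 8100 ≤ n * η₁ := by rwa [div_le_iff₀ hη₁0] at hnη
  have hV : Nontrivial V := bd_nontrivial_h99 ρ
  have hqpow : ∀ m : ℕ, Real.exp (-(η₁ / 2)) ^ m = Real.exp (-(η₁ / 2 * m)) := by
    intro m
    rw [← Real.exp_nat_mul]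
    congr 1
    ring
  have hsn : (g.support.card : ℝ) ≤ n := by
    have h := Finset.card_le_univ g.support
    rw [Fintype.card_fin] at h
    exact_mod_cast h
  have hs0' : (0 : ℝ) ≤ g.support.card := Nat.cast_nonneg _
  rcases Nat.eq_zero_or_pos g.support.card with hs0 | hs0
  · rw [hs0, pow_zero]
    exact bd_rr_le_one_h99 ρ g
  by_cases hs : (1 / 8100 : ℝ) * n ≤ g.support.card
  · refine (hls n hnN₀ k hk V ρ hB g hs).trans ?_
    rw [hqpow]
    refine Real.exp_le_exp.2 ?_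
    nlinarith
  push Not at hs
  have hsN : 8100 * g.support.card < n := by
    have h : (8100 : ℝ) * g.support.card < n := by linarith
    exact_mod_cast h
  set s := g.support.card with hsdef
  have hn : 0 < n := by omega
  have hn' : (0 : ℝ) < n := by exact_mod_cast hn
  -- the number of factors
  obtain ⟨j, hj1, hj2, hj3⟩ : ∃ j : ℕ, 0 < j ∧ 2 * n ≤ 8100 * (s * j) ∧
      8100 * (s * j) < 3 * n := by
    have hex : ∃ j : ℕ, 2 * n ≤ 8100 * (s * j) := by
      refine ⟨2 * n, ?_⟩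
      have : 2 * n ≤ s * (2 * n) := Nat.le_mul_of_pos_left _ hs0
      omega
    have h0 : 0 < Nat.find hex := by
      rcases Nat.eq_zero_or_pos (Nat.find hex) with h0 | h0
      · have := Nat.find_spec hex
        rw [h0] at this
        omega
      · exact h0
    refine ⟨Nat.find hex, h0, Nat.find_spec hex, ?_⟩
    have h1 := Nat.find_min hex (Nat.sub_lt h0 Nat.one_pos)
    obtain ⟨i, hi⟩ : ∃ i, Nat.find hex = i + 1 := ⟨Nat.find hex - 1, by omega⟩
    rw [hi, Nat.add_sub_cancel] at h1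
    rw [hi]
    have h2 : s * (i + 1) = s * i + s := by ring
    rw [h2]
    omega
  set W := s * j with hW
  have hWpos : 0 < W := Nat.mul_pos hs0 hj1
  have hWn : (W : ℝ) ≤ n := by
    have h : W ≤ n := by omega
    exact_mod_cast h
  have hW2 : 2 * (n : ℝ) ≤ 8100 * W := by exact_mod_cast hj2
  set u := 3 * W / 4 with hu
  have hu4 : 4 * u ≤ 3 * W := by omega
  have hun : u ≤ n := by omega
  have hfac : (0 : ℝ) < (n.factorial : ℝ) ^ j := by
    have : (0 : ℝ) < (n.factorial : ℝ) := by exact_mod_cast n.factorial_pos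
    positivity
  have hwalk := walk_perm ρ g j
  set Sm := Finset.univ.filter (fun y : Fin j → Perm (Fin n) => (unionY g.support y).card ≤ u)
    with hSm
  have hsmall : ∑ y ∈ Sm, |rr ρ (prodY g y)| ≤
      Real.exp (-(W : ℝ)) * (n.factorial : ℝ) ^ j := by
    have h1 : ∑ y ∈ Sm, |rr ρ (prodY g y)| ≤ (Sm.card : ℝ) := by
      refine (Finset.sum_le_card_nsmul _ _ 1 fun y _ => bd_rr_le_one_h99 ρ _).trans ?_
      simp
    refine h1.trans ((card_small_union g.support j u hun).trans ?_)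
    exact mul_le_mul_of_nonneg_right (bd_choose_h99 hn hj3 hu4) hfac.le
  have hlarge : ∑ y ∈ Finset.univ.filter (fun y : Fin j → Perm (Fin n) =>
      ¬ (unionY g.support y).card ≤ u), |rr ρ (prodY g y)| ≤
        Real.exp (-(η * n)) * (n.factorial : ℝ) ^ j := by
    refine (Finset.sum_le_card_nsmul _ _ (Real.exp (-(η * n))) fun y hy => ?_).trans ?_
    · rw [Finset.mem_filter] at hy
      have h1 := support_prod g y
      have h2 : W < 2 * (prodY g y).support.card := by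
        have h3 : j * g.support.card = W := by rw [hW, hsdef, mul_comm]
        rw [h3] at h1
        omega
      have h4 : (1 / 8100 : ℝ) * n ≤ (prodY g y).support.card := by
        have h5 : n ≤ 8100 * (prodY g y).support.card := by omega
        have h6 : (n : ℝ) ≤ 8100 * (prodY g y).support.card := by exact_mod_cast h5
        linarith
      exact hls n hnN₀ k hk V ρ hB _ h4
    · rw [nsmul_eq_mul, mul_comm]
      refine mul_le_mul_of_nonneg_left ?_ (Real.exp_pos _).le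
      have h1 : (Finset.univ.filter (fun y : Fin j → Perm (Fin n) =>
          ¬ (unionY g.support y).card ≤ u)).card ≤ n.factorial ^ j := by
        refine (Finset.card_le_univ _).trans ?_
        rw [Fintype.card_fun, Fintype.card_perm, Fintype.card_fin, Fintype.card_fin]
      exact_mod_cast h1
  have hsum : Real.exp (-(W : ℝ)) + Real.exp (-(η * n)) ≤ (Real.exp (-(η₁ / 2)) ^ s) ^ j := by
    have hW0 : (0 : ℝ) ≤ W := Nat.cast_nonneg _
    have h1 : Real.exp (-(W : ℝ)) ≤ Real.exp (-(η₁ * W)) := Real.exp_le_exp.2 (by nlinarith)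
    have h2 : Real.exp (-(η * n)) ≤ Real.exp (-(η₁ * W)) := Real.exp_le_exp.2 (by nlinarith)
    have h3 : (2 : ℝ) ≤ Real.exp (η₁ / 2 * W) := by
      have h4 := Real.add_one_le_exp (η₁ / 2 * W)
      have h5 : 1 ≤ η₁ / 2 * W := by nlinarith
      linarith
    have h6 : (Real.exp (-(η₁ / 2)) ^ s) ^ j = Real.exp (-(η₁ / 2 * W)) := by
      rw [← pow_mul, ← hW, hqpow]
    have h7 : Real.exp (-(η₁ / 2 * W)) = Real.exp (-(η₁ * W)) * Real.exp (η₁ / 2 * W) := by
      rw [← Real.exp_add]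
      congr 1
      ring
    rw [h6, h7]
    have h8 := Real.exp_pos (-(η₁ * W))
    nlinarith
  have hmain : |rr ρ g| ^ j * (n.factorial : ℝ) ^ j ≤
      (Real.exp (-(η₁ / 2)) ^ s) ^ j * (n.factorial : ℝ) ^ j := by
    calc |rr ρ g| ^ j * (n.factorial : ℝ) ^ j = |(rr ρ g) ^ j * (n.factorial : ℝ) ^ j| := by
          rw [abs_mul, abs_pow, abs_of_pos hfac]
      _ = |∑ y : Fin j → Perm (Fin n), rr ρ (prodY g y)| := by rw [hwalk]
      _ ≤ ∑ y : Fin j → Perm (Fin n), |rr ρ (prodY g y)| := Finset.abs_sum_le_sum_abs _ _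
      _ = ∑ y ∈ Sm, |rr ρ (prodY g y)| + ∑ y ∈ Finset.univ.filter
            (fun y : Fin j → Perm (Fin n) => ¬ (unionY g.support y).card ≤ u),
              |rr ρ (prodY g y)| := (Finset.sum_filter_add_sum_filter_not _ _ _).symm
      _ ≤ Real.exp (-(W : ℝ)) * (n.factorial : ℝ) ^ j +
            Real.exp (-(η * n)) * (n.factorial : ℝ) ^ j := add_le_add hsmall hlarge
      _ = (Real.exp (-(W : ℝ)) + Real.exp (-(η * n))) * (n.factorial : ℝ) ^ j := by ring
      _ ≤ (Real.exp (-(η₁ / 2)) ^ s) ^ j * (n.factorial : ℝ) ^ j :=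
          mul_le_mul_of_nonneg_right hsum hfac.le
  have h1 : |rr ρ g| ^ j ≤ (Real.exp (-(η₁ / 2)) ^ s) ^ j := le_of_mul_le_mul_right hmain hfac
  exact (pow_le_pow_iff_left₀ (abs_nonneg _)
    (pow_nonneg (Real.exp_pos _).le _) hj1.ne').1 h1

end Pool.Agent.Helper70.TU
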