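import Pool.Agent.Helper70.TU.Z1
import Pool.Agent.Helper1.TS.SQ

/-!
BLOCK TU-S1. Pairs with equal squares, weighted.

Proof in words. Group the pairs by `U = supp a ∪ supp b`, `|U| = m`: then `s(a) + s(b) ≥ m`, and the pairs with given `U` inject into the pairs of permutations of `U` with equal squares, at most `K(m) m!` of them (`card_sq_pairs`), `K(m)` the number of conjugacy classes of `S_m`.
With `u = √p` and `K(m) ≤ Z u^{-m}` (`card_classes_w`) the sum is at most `∑_m C(n,m) m! Z u^m = Z n! u^n ∑_j u^{-j} / j! ≤ Z e^{1/u} n! u^n`.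
-/

set_option autoImplicit false

open Equiv Pool.Agent.Helper1.TS

namespace Pool.Agent.Helper70.TU

private theorem pairs_in33 (n : ℕ) (U : Finset (Fin n)) :
    (Finset.univ.filter (fun p : Perm (Fin n) × Perm (Fin n) => p.1 ^ 2 = p.2 ^ 2 ∧
      p.1.support ∪ p.2.support = U)).card ≤ Nat.card (ConjClasses (Perm (Fin U.card))) * U.card.factorial := by
  classical
  let φ : Perm (Fin U.card) →* Perm (Fin n) :=
    (Perm.ofSubtype : Perm {x // x ∈ U} →* Perm (Fin n)).comp
      (U.equivFin.symm.permCongrHom.toMonoidHom)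
  have hφinj : Function.Injective φ :=
    (Perm.ofSubtype_injective).comp (U.equivFin.symm.permCongrHom.injective)
  have hφsur : ∀ a : Perm (Fin n), a.support ⊆ U → ∃ a', φ a' = a := by
    intro a ha
    have h1 : ∀ x, a x ∈ U ↔ x ∈ U := by
      intro x
      by_cases hx : a x = x
      · rw [hx]
      · have h2 : x ∈ U := ha (Perm.mem_support.mpr hx)
        have h3 : a x ∈ U := ha (Perm.apply_mem_support.mpr (Perm.mem_support.mpr hx))
        exact ⟨fun _ => h2, fun _ => h3⟩
    have h2 : ∀ x, a x ≠ x → x ∈ U := fun x hx => ha (Perm.mem_support.mpr hx)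
    refine ⟨U.equivFin.symm.permCongrHom.symm (a.subtypePerm h1), ?_⟩
    change Perm.ofSubtype (U.equivFin.symm.permCongrHom
      (U.equivFin.symm.permCongrHom.symm (a.subtypePerm h1))) = a
    rw [MulEquiv.apply_symm_apply]
    exact Perm.ofSubtype_subtypePerm h1 h2
  have hsub : (Finset.univ.filter (fun p : Perm (Fin n) × Perm (Fin n) => p.1 ^ 2 = p.2 ^ 2 ∧
      p.1.support ∪ p.2.support = U)) ⊆
      (Finset.univ.filter (fun p : Perm (Fin U.card) × Perm (Fin U.card) =>
        p.1 ^ 2 = p.2 ^ 2)).image (fun p => (φ p.1, φ p.2)) := by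
    intro p hp
    obtain ⟨hp1, hp2⟩ := (Finset.mem_filter.mp hp).2
    obtain ⟨a, ha⟩ := hφsur p.1 (by rw [← hp2]; exact Finset.subset_union_left)
    obtain ⟨b, hb⟩ := hφsur p.2 (by rw [← hp2]; exact Finset.subset_union_right)
    refine Finset.mem_image.mpr ⟨(a, b), Finset.mem_filter.mpr ⟨Finset.mem_univ _, ?_⟩,
      Prod.ext ha hb⟩
    apply hφinj
    change φ (a ^ 2) = φ (b ^ 2)
    rw [map_pow, map_pow, ha, hb, hp1]
  calc _ ≤ _ := Finset.card_le_card hsub
    _ ≤ _ := Finset.card_image_le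
    _ ≤ _ := card_sq_pairs (Perm (Fin U.card))
    _ = Nat.card (ConjClasses (Perm (Fin U.card))) * U.card.factorial := by
      rw [Fintype.card_perm, Fintype.card_fin]

theorem sq_pairs_weight (p : ℝ) (hp0 : 0 < p) (hp : p < 1) :
    ∃ C ϱ : ℝ, 0 < C ∧ 0 < ϱ ∧ ϱ < 1 ∧ ∀ n : ℕ,
      ∑ x ∈ Finset.univ.filter (fun x : Perm (Fin n) × Perm (Fin n) => x.1 ^ 2 = x.2 ^ 2),
        p ^ (x.1.support.card + x.2.support.card) ≤ C * n.factorial * ϱ ^ n := by
  classical
  obtain ⟨u, hu0, hu1, hup⟩ : ∃ u : ℝ, 0 < u ∧ u < 1 ∧ u * u = p :=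
    ⟨Real.sqrt p, Real.sqrt_pos.2 hp0, by rw [Real.sqrt_lt' one_pos]; simpa using hp, Real.mul_self_sqrt hp0.le⟩
  obtain ⟨Z, hZ1, hZ⟩ := card_classes_w u hu0 hu1
  have hZ0 : 0 < Z := lt_of_lt_of_le one_pos hZ1
  refine ⟨Z * Real.exp (1 / u), u, by positivity, hu0, hu1, fun n => ?_⟩
  have h1 : ∑ x ∈ Finset.univ.filter (fun x : Perm (Fin n) × Perm (Fin n) => x.1 ^ 2 = x.2 ^ 2),
      p ^ (x.1.support.card + x.2.support.card) ≤
      ∑ U : Finset (Fin n), Z * (u ^ U.card * U.card.factorial) := by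
    rw [← Finset.sum_fiberwise_of_maps_to (t := (Finset.univ : Finset (Finset (Fin n))))
      (g := fun p : Perm (Fin n) × Perm (Fin n) => p.1.support ∪ p.2.support)
      (fun _ _ => Finset.mem_univ _)]
    refine Finset.sum_le_sum fun U _ => ?_
    have h2 : ∀ x ∈ (Finset.univ.filter (fun x : Perm (Fin n) × Perm (Fin n) =>
        x.1 ^ 2 = x.2 ^ 2)).filter (fun x => x.1.support ∪ x.2.support = U),
        p ^ (x.1.support.card + x.2.support.card) ≤ p ^ U.card := by
      intro x hx
      refine pow_le_pow_of_le_one hp0.le hp.le ?_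
      rw [← (Finset.mem_filter.mp hx).2]
      exact Finset.card_union_le _ _
    refine (Finset.sum_le_card_nsmul _ _ _ h2).trans ?_
    rw [nsmul_eq_mul]
    have h3 : (((Finset.univ.filter (fun x : Perm (Fin n) × Perm (Fin n) =>
        x.1 ^ 2 = x.2 ^ 2)).filter (fun x => x.1.support ∪ x.2.support = U)).card : ℝ) ≤
        (Nat.card (ConjClasses (Perm (Fin U.card))) : ℝ) * U.card.factorial := by
      have h4 := pairs_in33 n U
      rw [Finset.filter_filter]
      exact_mod_cast h4
    calc _ ≤ ((Nat.card (ConjClasses (Perm (Fin U.card))) : ℝ) * U.card.factorial) * p ^ U.card :=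
          mul_le_mul_of_nonneg_right h3 (by positivity)
      _ = ((Nat.card (ConjClasses (Perm (Fin U.card))) : ℝ) * u ^ U.card) * (u ^ U.card * U.card.factorial) := by
          rw [← hup, mul_pow]; ring
      _ ≤ Z * (u ^ U.card * U.card.factorial) := mul_le_mul_of_nonneg_right (hZ U.card) (by positivity)
  refine h1.trans ?_
  have h5 : ∑ U : Finset (Fin n), Z * (u ^ U.card * U.card.factorial) =
      ∑ m ∈ Finset.range (n + 1), (n.choose m : ℝ) * (Z * (u ^ m * m.factorial)) := by
    rw [← Finset.powerset_univ, Finset.sum_powerset_apply_card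
      (fun m => Z * (u ^ m * (m.factorial : ℝ))), Finset.card_univ, Fintype.card_fin]
    simp only [nsmul_eq_mul]
  rw [h5, ← Finset.sum_range_reflect]
  have h6 : ∀ m ∈ Finset.range (n + 1), (n.choose (n + 1 - 1 - m) : ℝ) *
      (Z * (u ^ (n + 1 - 1 - m) * (n + 1 - 1 - m).factorial)) =
      Z * n.factorial * u ^ n * ((1 / u) ^ m / m.factorial) := by
    intro m hm
    have hm' : m ≤ n := Nat.lt_succ_iff.mp (Finset.mem_range.mp hm)
    have h7 : n + 1 - 1 - m = n - m := by omega
    rw [h7, Nat.choose_symm hm']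
    have h8 : (n.choose m : ℝ) * m.factorial * (n - m).factorial = n.factorial := by
      exact_mod_cast Nat.choose_mul_factorial_mul_factorial hm'
    have h9 : u ^ (n - m) = u ^ n * (1 / u) ^ m := by
      have h10 : u ^ n = u ^ (n - m) * u ^ m := by
        rw [← pow_add]; congr 1; omega
      rw [h10, mul_assoc, ← mul_pow, mul_one_div_cancel hu0.ne', one_pow, mul_one]
    have h10 : (m.factorial : ℝ) ≠ 0 := by exact_mod_cast Nat.factorial_ne_zero m
    rw [← h8, h9]
    field_simp
  rw [Finset.sum_congr rfl h6, ← Finset.mul_sum]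
  have h11 := Real.sum_le_exp_of_nonneg (x := 1 / u) (by positivity) (n + 1)
  calc _ ≤ Z * (n.factorial : ℝ) * u ^ n * Real.exp (1 / u) :=
        mul_le_mul_of_nonneg_left h11 (by positivity)
    _ = _ := by ring

end Pool.Agent.Helper70.TU
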