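import Pool.Agent.Helper70.TU.Defs
import Pool.Agent.Helper1.TS.CLS

/-!
BLOCK TU-Z1 (about 150 lines). The weighted number of conjugacy classes is bounded.

Proof in words. Grouping by classes (`sum_inv_cls` style, `Finset.sum_fiberwise`), the sum is `∑ over classes c of w^(s(c))`; classes are
determined by the cycle type (`Equiv.Perm.isConj_iff_cycleType_eq`), a multiset `M` with parts in `[2, n]` and `s = M.sum`
(`Equiv.Perm.sum_cycleType`), hence by the function `j ↦ M.count j`, `j ∈ {2..n}`, with values `≤ n`. So the sum is at most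
`∑_{f : {2..n} → {0..n}} ∏_j (w^j)^{f j} = ∏_{j=2}^n ∑_{a=0}^n (w^j)^a ≤ ∏_{j=2}^n 1/(1-w^j)` (`Finset.prod_univ_sum` / `Finset.prod_sum`).
`1/(1-x) ≤ exp(x/(1-x)) ≤ exp(x/(1-w))` for `0 ≤ x ≤ w`, so the product is `≤ exp((∑_j w^j)/(1-w)) ≤ exp(1/(1-w)^2) =: Z`.
`card_classes_w`: `1/cls g ≤ w^{-n} w^{s(g)}/cls g` since `s(g) ≤ n`, and `sum_inv_cls`.
-/

set_option autoImplicit false

open Equiv Pool.Agent.Helper1.TS

namespace Pool.Agent.Helper70.TU

private theorem geo38 {y : ℝ} (h0 : 0 ≤ y) (h1 : y < 1) (n : ℕ) :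
    ∑ a ∈ Finset.range n, y ^ a ≤ 1 / (1 - y) := by
  rw [le_div_iff₀ (by linarith), geom_sum_mul_neg]
  have := pow_nonneg h0 n
  linarith

private theorem fac38 {w y : ℝ} (hw : w < 1) (h0 : 0 ≤ y) (h1 : y ≤ w) (n : ℕ) :
    ∑ a ∈ Finset.range n, y ^ a ≤ Real.exp (y * (1 / (1 - w))) := by
  have h2 : 0 < 1 - y := by linarith
  have h3 : 0 < 1 - w := by linarith
  calc ∑ a ∈ Finset.range n, y ^ a ≤ 1 / (1 - y) := geo38 h0 (by linarith) n
    _ = y * (1 / (1 - y)) + 1 := by
        field_simp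
        ring
    _ ≤ Real.exp (y * (1 / (1 - y))) := Real.add_one_le_exp _
    _ ≤ Real.exp (y * (1 / (1 - w))) := by
        refine Real.exp_le_exp.2 (mul_le_mul_of_nonneg_left ?_ h0)
        exact one_div_le_one_div_of_le h3 (by linarith)

private theorem part38 {n : ℕ} (g : Perm (Fin n)) {a : ℕ} (h : a ∈ g.cycleType) : 2 ≤ a ∧ a ≤ n := by
  refine ⟨Equiv.Perm.two_le_of_mem_cycleType h, ?_⟩
  have h1 := Multiset.le_sum_of_mem h
  have h2 := Equiv.Perm.sum_cycleType_le g
  rw [Fintype.card_fin] at h2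
  exact h1.trans h2

private theorem count38 {n : ℕ} (g : Perm (Fin n)) (a : ℕ) (ha : 1 ≤ a) : g.cycleType.count a ≤ n := by
  have h2 := Equiv.Perm.sum_cycleType_le g
  rw [Fintype.card_fin] at h2
  refine le_trans ?_ h2
  have h3 : Multiset.replicate (g.cycleType.count a) a ≤ g.cycleType :=
    Multiset.le_count_iff_replicate_le.1 le_rfl
  have h4 : (Multiset.replicate (g.cycleType.count a) a).sum ≤ g.cycleType.sum := by
    obtain ⟨r, hr⟩ := Multiset.le_iff_exists_add.1 h3
    conv_rhs => rw [hr]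
    rw [Multiset.sum_add]
    exact Nat.le_add_right _ _
  rw [Multiset.sum_replicate, smul_eq_mul] at h4
  calc g.cycleType.count a = g.cycleType.count a * 1 := (mul_one _).symm
    _ ≤ g.cycleType.count a * a := Nat.mul_le_mul_left _ ha
    _ ≤ _ := h4

private theorem sum38 {n : ℕ} (g : Perm (Fin n)) :
    g.cycleType.sum = ∑ i : Fin n, ((i : ℕ) + 2) * g.cycleType.count ((i : ℕ) + 2) := by
  classical
  have h1 : g.cycleType.toFinset ⊆ (Finset.univ : Finset (Fin n)).image (fun i : Fin n => (i : ℕ) + 2) := by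
    intro a ha
    obtain ⟨h2, h3⟩ := part38 g (Multiset.mem_toFinset.1 ha)
    refine Finset.mem_image.2 ⟨⟨a - 2, by omega⟩, Finset.mem_univ _, ?_⟩
    simp only
    omega
  rw [Finset.sum_multiset_count_of_subset _ _ h1, Finset.sum_image]
  · refine Finset.sum_congr rfl fun i _ => ?_
    rw [smul_eq_mul, mul_comm]
  · intro i _ j _ hij
    have : (i : ℕ) = j := by
      simp only at hij
      omega
    exact Fin.ext this

private theorem inj38 {n : ℕ} (g h : Perm (Fin n))
    (e : ∀ i : Fin n, g.cycleType.count ((i : ℕ) + 2) = h.cycleType.count ((i : ℕ) + 2)) :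
    g.cycleType = h.cycleType := by
  classical
  refine Multiset.ext.2 fun a => ?_
  by_cases ha : 2 ≤ a ∧ a ≤ n
  · have h1 := e ⟨a - 2, by omega⟩
    have h2 : a - 2 + 2 = a := by omega
    simp only [h2] at h1
    exact h1
  · rw [Multiset.count_eq_zero.2 fun h1 => ha (part38 g h1),
      Multiset.count_eq_zero.2 fun h1 => ha (part38 h h1)]

private theorem key38 {w : ℝ} (hw0 : 0 < w) (hw : w < 1) (n : ℕ) :
    ∑ g : Perm (Fin n), w ^ g.support.card / (cls g : ℝ) ≤ Real.exp (1 / (1 - w) * (1 / (1 - w))) := by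
  classical
  have hw1 : 0 < 1 - w := by linarith
  set T : Finset (Multiset ℕ) := (Finset.univ : Finset (Perm (Fin n))).image fun g => g.cycleType with hT
  have h1 : ∑ g : Perm (Fin n), w ^ g.support.card / (cls g : ℝ) = ∑ M ∈ T, w ^ M.sum := by
    rw [← Finset.sum_fiberwise_of_maps_to (t := T) (g := fun g : Perm (Fin n) => g.cycleType)
      (fun x _ => Finset.mem_image_of_mem _ (Finset.mem_univ x))]
    refine Finset.sum_congr rfl fun M hM => ?_
    obtain ⟨g, _, hg⟩ := Finset.mem_image.1 hM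
    have h2 : ∀ x ∈ Finset.univ.filter (fun x : Perm (Fin n) => x.cycleType = M),
        w ^ x.support.card / (cls x : ℝ) = w ^ M.sum / (cls g : ℝ) := by
      intro x hx
      have h3 : x.cycleType = M := (Finset.mem_filter.1 hx).2
      have h4 : cls x = cls g := by
        unfold cls
        congr 1
        ext y
        simp only [Finset.mem_filter, Finset.mem_univ, true_and, Equiv.Perm.isConj_iff_cycleType_eq]
        rw [h3, ← hg]
      rw [h4, ← Equiv.Perm.sum_cycleType, h3]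
    rw [Finset.sum_congr rfl h2, Finset.sum_const, nsmul_eq_mul]
    have h5 : (Finset.univ.filter (fun x : Perm (Fin n) => x.cycleType = M)).card = cls g := by
      unfold cls
      congr 1
      ext y
      simp only [Finset.mem_filter, Finset.mem_univ, true_and, Equiv.Perm.isConj_iff_cycleType_eq]
      rw [← hg]
      exact eq_comm
    have h6 : (0 : ℝ) < cls g := by
      have : 0 < cls g := by
        rw [← h5]
        exact Finset.card_pos.2 ⟨g, Finset.mem_filter.2 ⟨Finset.mem_univ _, hg⟩⟩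
      exact_mod_cast this
    rw [h5]
    field_simp
  have h2 : ∑ M ∈ T, w ^ M.sum ≤ ∏ i : Fin n, ∑ a ∈ Finset.range (n + 1), (w ^ ((i : ℕ) + 2)) ^ a := by
    rw [Finset.prod_univ_sum]
    have h3 : ∑ M ∈ T, w ^ M.sum = ∑ M ∈ T, ∏ i : Fin n, (w ^ ((i : ℕ) + 2)) ^ (M.count ((i : ℕ) + 2)) := by
      refine Finset.sum_congr rfl fun M hM => ?_
      obtain ⟨g, _, hg⟩ := Finset.mem_image.1 hM
      subst hg
      rw [sum38 g, ← Finset.prod_pow_eq_pow_sum]
      exact Finset.prod_congr rfl fun i _ => by rw [pow_mul]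
    have h4 : Set.InjOn (fun (M : Multiset ℕ) (i : Fin n) => M.count ((i : ℕ) + 2)) (T : Set (Multiset ℕ)) := by
      intro M hM M' hM' e
      obtain ⟨g, _, hg⟩ := Finset.mem_image.1 (Finset.mem_coe.1 hM)
      obtain ⟨g', _, hg'⟩ := Finset.mem_image.1 (Finset.mem_coe.1 hM')
      subst hg
      subst hg'
      exact inj38 g g' fun i => congrFun e i
    rw [h3, ← Finset.sum_image (f := fun f : Fin n → ℕ => ∏ i : Fin n, (w ^ ((i : ℕ) + 2)) ^ (f i)) h4]
    refine Finset.sum_le_sum_of_subset_of_nonneg ?_ fun f _ _ => Finset.prod_nonneg fun i _ => by positivity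
    intro f hf
    obtain ⟨M, hM, hMf⟩ := Finset.mem_image.1 hf
    obtain ⟨g, _, hg⟩ := Finset.mem_image.1 hM
    rw [Fintype.mem_piFinset]
    intro i
    rw [← hMf, ← hg, Finset.mem_range]
    have := count38 g ((i : ℕ) + 2) (by omega)
    simp only
    omega
  have h3 : ∏ i : Fin n, ∑ a ∈ Finset.range (n + 1), (w ^ ((i : ℕ) + 2)) ^ a ≤
      ∏ i : Fin n, Real.exp (w ^ ((i : ℕ) + 2) * (1 / (1 - w))) := by
    refine Finset.prod_le_prod (fun i _ => Finset.sum_nonneg fun a _ => by positivity) fun i _ => ?_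
    refine fac38 hw (by positivity) ?_ _
    calc w ^ ((i : ℕ) + 2) ≤ w ^ 1 := pow_le_pow_of_le_one hw0.le hw.le (by omega)
      _ = w := pow_one w
  have h4 : ∏ i : Fin n, Real.exp (w ^ ((i : ℕ) + 2) * (1 / (1 - w))) ≤
      Real.exp (1 / (1 - w) * (1 / (1 - w))) := by
    rw [← Real.exp_sum, ← Finset.sum_mul]
    refine Real.exp_le_exp.2 (mul_le_mul_of_nonneg_right ?_ (by positivity))
    calc ∑ i : Fin n, w ^ ((i : ℕ) + 2) ≤ ∑ i : Fin n, w ^ (i : ℕ) :=
          Finset.sum_le_sum fun i _ => pow_le_pow_of_le_one hw0.le hw.le (by omega)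
      _ = ∑ a ∈ Finset.range n, w ^ a := Fin.sum_univ_eq_sum_range (fun a => w ^ a) n
      _ ≤ 1 / (1 - w) := geo38 hw0.le hw n
  rw [h1]
  exact h2.trans (h3.trans h4)

theorem weight_cls (w : ℝ) (hw0 : 0 < w) (hw : w < 1) :
    ∃ Z : ℝ, 1 ≤ Z ∧ ∀ n : ℕ, ∑ g : Perm (Fin n), w ^ g.support.card / (cls g : ℝ) ≤ Z := by
  have hw1 : 0 < 1 - w := by linarith
  exact ⟨Real.exp (1 / (1 - w) * (1 / (1 - w))), Real.one_le_exp (by positivity), fun n => key38 hw0 hw n⟩

theorem card_classes_w (w : ℝ) (hw0 : 0 < w) (hw : w < 1) :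
    ∃ Z : ℝ, 1 ≤ Z ∧ ∀ n : ℕ, (Nat.card (ConjClasses (Perm (Fin n))) : ℝ) * w ^ n ≤ Z := by
  obtain ⟨Z, hZ, h⟩ := weight_cls w hw0 hw
  refine ⟨Z, hZ, fun n => le_trans ?_ (h n)⟩
  rw [← sum_inv_cls, Finset.sum_mul]
  refine Finset.sum_le_sum fun g _ => ?_
  have h1 : g.support.card ≤ n := by
    have := Finset.card_le_univ g.support
    rwa [Fintype.card_fin] at this
  have h2 : w ^ n ≤ w ^ g.support.card := pow_le_pow_of_le_one hw0.le hw.le h1
  rw [one_div_mul_eq_div]
  exact div_le_div_of_nonneg_right h2 (Nat.cast_nonneg _)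

end Pool.Agent.Helper70.TU
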